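import Mathlib

/-!
# Definitions: hyperbolic 3-manifolds, rank-one cusps, minimal surfaces and their area
-/

open MeasureTheory MeasureTheory.Measure Set Filter Topology
open scoped ENNReal Gradient

namespace Pool.Agent.Helper82

/-! ## Hyperbolic space and its isometries -/

/-- Euclidean 3-space. -/
abbrev E3 : Type := EuclideanSpace ℝ (Fin 3)

/-- Hyperbolic 3-space, upper half-space model: the points `(x, y, t)` of Euclidean 3-space with
`t > 0` (the coordinates `x, y, t` of `p` are `p 0, p 1, p 2`); the metric is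
`(dx² + dy² + dt²) / t²`. -/
abbrev H3 : Type := {p : E3 // 0 < p 2}

/-- The hyperbolic cosine of the hyperbolic distance of two points of upper half-space. -/
noncomputable def coshDist (p q : H3) : ℝ :=
  1 + dist (p : E3) q ^ 2 / (2 * (p : E3) 2 * (q : E3) 2)

/-- The group of isometries of hyperbolic 3-space: the bijections that preserve the hyperbolic
distance. -/
def HIsom : Subgroup (Equiv.Perm H3) where
  carrier := {γ | ∀ p q, coshDist (γ p) (γ q) = coshDist p q}
  mul_mem' := fun {a b} ha hb p q => by
    rw [Equiv.Perm.mul_apply, Equiv.Perm.mul_apply, ha, hb]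
  one_mem' := fun p q => rfl
  inv_mem' := fun {a} ha p q => by
    have h := ha (a⁻¹ p) (a⁻¹ q)
    have e : ∀ x, a (a⁻¹ x) = x := fun x => a.apply_symm_apply x
    rw [e, e] at h
    exact h.symm

/-! ## Groups of isometries -/

/-- Discreteness of a group of isometries: for every point `p`, every ball around `p` contains
`γ p` for only finitely many elements `γ` of the group. -/
def IsDiscrete (Γ : Subgroup (Equiv.Perm H3)) : Prop :=
  ∀ (p : H3) (r : ℝ), {γ : Equiv.Perm H3 | γ ∈ Γ ∧ coshDist p (γ p) ≤ r}.Finite

/-- A group without elements of finite order other than the identity. -/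
def IsTorsionFree (Γ : Subgroup (Equiv.Perm H3)) : Prop :=
  ∀ γ ∈ Γ, ∀ n : ℕ, 0 < n → γ ^ n = 1 → γ = 1

/-- A parabolic isometry: it has no fixed point, and its infimum displacement is zero. -/
def IsParabolic (γ : Equiv.Perm H3) : Prop :=
  (∀ p, γ p ≠ p) ∧ ∀ ε > 0, ∃ p, coshDist p (γ p) < 1 + ε

/-- A parabolic group: nontrivial, and all its elements other than the identity are parabolic. -/
def IsParabolicGroup (P : Subgroup (Equiv.Perm H3)) : Prop :=
  P ≠ ⊥ ∧ ∀ γ ∈ P, γ ≠ 1 → IsParabolic γ

/-- `Γ` has a rank-one cusp: it has a maximal parabolic subgroup isomorphic to the integers. -/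
def HasRankOneCusp (Γ : Subgroup (Equiv.Perm H3)) : Prop :=
  ∃ P ≤ Γ, IsParabolicGroup P ∧ (∀ Q ≤ Γ, IsParabolicGroup Q → P ≤ Q → Q = P) ∧
    Nonempty (P ≃* Multiplicative ℤ)

/-! ## The quotient manifold and surfaces in it -/

/-- The quotient `M = H³/Γ`, with the quotient topology. -/
abbrev Mfd (Γ : Subgroup (Equiv.Perm H3)) : Type := Quotient (MulAction.orbitRel Γ H3)

/-- The preimage in hyperbolic space of a subset of `M = H³/Γ`. -/
def lift (Γ : Subgroup (Equiv.Perm H3)) (S : Set (Mfd Γ)) : Set H3 :=
  {q | (Quotient.mk (MulAction.orbitRel Γ H3) q) ∈ S}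

/-- Euclidean divergence of a vector field: the trace of its derivative. -/
noncomputable def dv (X : E3 → E3) (q : E3) : ℝ :=
  LinearMap.trace ℝ E3 (fderiv ℝ X q : E3 →ₗ[ℝ] E3)

/-- Hyperbolic divergence of a vector field: `t³ div (t⁻³ X)`, since the hyperbolic volume is
`t⁻³ dx dy dt`. -/
noncomputable def hdiv (X : E3 → E3) (q : E3) : ℝ :=
  q 2 ^ 3 * dv (fun y => (y 2 ^ 3)⁻¹ • X y) q

/-- Hyperbolic gradient: `t²` times the Euclidean gradient. -/
noncomputable def hgrad (F : E3 → ℝ) (q : E3) : E3 := q 2 ^ 2 • ∇ F q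

/-- Hyperbolic length of a tangent vector `v` at the point `q`: `|v| / t`. -/
noncomputable def hnorm (q v : E3) : ℝ := ‖v‖ / q 2

/-- Mean curvature (trace of the second fundamental form) at `q` of the level set of `F` through
`q`: the hyperbolic divergence of the unit normal field `grad F / |grad F|`. -/
noncomputable def meanCurvature (F : E3 → ℝ) (q : E3) : ℝ :=
  hdiv (fun y => (hnorm y (hgrad F y))⁻¹ • hgrad F y) q

/-- `S` is a properly embedded minimal surface (of class `C²`, without boundary) in `M = H³/Γ`:
a nonempty closed subset such that every point of its preimage in hyperbolic space has a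
neighbourhood `W` in which the preimage is the zero set of a `C²` function `F` with nowhere
vanishing gradient, the mean curvature of this zero set being zero. -/
structure IsMinimalSurface (Γ : Subgroup (Equiv.Perm H3)) (S : Set (Mfd Γ)) : Prop where
  nonempty : S.Nonempty
  isClosed : IsClosed S
  level : ∀ p ∈ lift Γ S, ∃ (W : Set E3) (F : E3 → ℝ), IsOpen W ∧ (p : E3) ∈ W ∧
    ContDiffOn ℝ 2 F W ∧ (∀ q ∈ W, ∇ F q ≠ 0) ∧
    (∀ q : H3, (q : E3) ∈ W → (q ∈ lift Γ S ↔ F q = 0)) ∧
    ∀ q : H3, (q : E3) ∈ W → F q = 0 → meanCurvature F q = 0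

/-! ## Area -/

/-- Two-dimensional hyperbolic area in upper half-space: the Euclidean area (two-dimensional
Hausdorff measure of Euclidean space, normalised to be Lebesgue measure on planes) with the density
`1 / t²`. -/
noncomputable def harea : Measure H3 :=
  (Measure.comap Subtype.val (μHE[2] : Measure E3)).withDensity
    fun q => ENNReal.ofReal (((q : E3) 2 ^ 2)⁻¹)

/-- The area of `S ⊆ M = H³/Γ`: the infimum, over all Borel sets `D` of hyperbolic space whose
`Γ`-translates cover it, of the area of the part in `D` of the preimage of `S` (the infimum is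
attained when `D` is a fundamental domain). -/
noncomputable def area (Γ : Subgroup (Equiv.Perm H3)) (S : Set (Mfd Γ)) : ℝ≥0∞ :=
  ⨅ (D : Set H3) (_ : MeasurableSet D) (_ : ∀ q : H3, ∃ γ ∈ Γ, γ q ∈ D), harea (D ∩ lift Γ S)

end Pool.Agent.Helper82
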