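import Mathlib
import Pool.Agent.Helper82.Defs

/-!
# An area formula for embedded pieces

For a map `f : U → V` between real inner product spaces (with `U` finite dimensional), strictly
differentiable with injective derivative and injective on a measurable set `s`, the
`finrank U`-dimensional (Euclidean) Hausdorff measure of `f '' A`, `A ⊆ s`, is the integral over
`A` of the Jacobian `normDet (f' x)`.
-/

open MeasureTheory MeasureTheory.Measure Module Set Filter Topology
open scoped ENNReal NNReal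

namespace Pool.Agent.Helper82

section Compare

lemma image_le_of_edist_le {α Y Z : Type*} [MetricSpace Y] [MetricSpace Z]
    [MeasurableSpace Y] [BorelSpace Y] [MeasurableSpace Z] [BorelSpace Z]
    (f : α → Y) (h : α → Z) (A : Set α) (K : ℝ≥0)
    (H : ∀ p ∈ A, ∀ q ∈ A, edist (f p) (f q) ≤ K * edist (h p) (h q)) (d : ℕ) :
    μHE[d] (f '' A) ≤ (K : ℝ≥0∞) ^ d * μHE[d] (h '' A) := by
  classical
  rcases A.eq_empty_or_nonempty with rfl | ⟨p₀, hp₀⟩
  · simp
  let g : Z → Y := fun z => if hz : ∃ p ∈ A, h p = z then f hz.choose else f p₀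
  have hg : ∀ p ∈ A, g (h p) = f p := by
    intro p hp
    have hz : ∃ p' ∈ A, h p' = h p := ⟨p, hp, rfl⟩
    have h1 : g (h p) = f hz.choose := by simp only [g, dif_pos hz]
    have h2 := hz.choose_spec
    have h3 := H _ h2.1 p hp
    rw [h2.2, edist_self, mul_zero] at h3
    rw [h1]
    exact edist_le_zero.1 h3
  have hL : LipschitzOnWith K g (h '' A) := by
    rintro _ ⟨p, hp, rfl⟩ _ ⟨q, hq, rfl⟩
    rw [hg p hp, hg q hq]
    exact H p hp q hq
  have himg : f '' A = g '' (h '' A) := by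
    rw [image_image]
    exact image_congr fun p hp => (hg p hp).symm
  have h1 := hL.hausdorffMeasure_image_le (d := (d : ℝ)) (Nat.cast_nonneg d)
  rw [himg]
  simp_rw [euclideanHausdorffMeasure_def, Measure.smul_apply]
  rw [ENNReal.rpow_natCast] at h1
  calc _ ≤ (addHaarScalarFactor (volume : Measure (EuclideanSpace ℝ (Fin d))) μH[d]) •
        ((K : ℝ≥0∞) ^ d * μH[d] (h '' A)) := by gcongr
    _ = _ := by rw [mul_smul_comm]

end Compare

variable {U V : Type*} [NormedAddCommGroup U] [InnerProductSpace ℝ U] [FiniteDimensional ℝ U]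
  [NormedAddCommGroup V] [InnerProductSpace ℝ V]

lemma exists_nhds_edist_compare {f : U → V} {L : U →L[ℝ] V} {a : U}
    (h : HasStrictFDerivAt f L a) (hL : Function.Injective L) {ε : ℝ} (hε : 0 < ε) :
    ∃ N ∈ 𝓝 a, ∀ p ∈ N, ∀ q ∈ N,
      edist (f p) (f q) ≤ (Real.toNNReal (1 + ε) : ℝ≥0∞) * edist (L p) (L q) ∧
      edist (L p) (L q) ≤ (Real.toNNReal (1 + ε) : ℝ≥0∞) * edist (f p) (f q) := by
  obtain ⟨K, hK0, hK⟩ := (L : U →ₗ[ℝ] V).exists_antilipschitzWith (LinearMap.ker_eq_bot.2 hL)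
  have hK0' : (0 : ℝ) < K := hK0
  set c : ℝ := ε / (1 + ε) / K with hc
  have hc0 : 0 < c := by positivity
  have h1 := h.isLittleO.def hc0
  rw [nhds_prod_eq, Filter.eventually_prod_self_iff'] at h1
  obtain ⟨N, hN, hNN⟩ := h1
  refine ⟨N, hN, fun p hp q hq => ?_⟩
  have h2 := hNN p hp q hq
  simp only at h2
  have h3 : ‖p - q‖ ≤ K * ‖L (p - q)‖ := by
    have := hK.le_mul_dist p q
    rw [dist_eq_norm, dist_eq_norm] at this
    simpa [← map_sub] using this
  have h4 : ‖f p - f q - L (p - q)‖ ≤ ε / (1 + ε) * ‖L (p - q)‖ := by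
    refine h2.trans ?_
    calc c * ‖p - q‖ ≤ c * (K * ‖L (p - q)‖) := by gcongr
      _ = ε / (1 + ε) * ‖L (p - q)‖ := by
        rw [hc]; field_simp
  have hE : ε / (1 + ε) ≤ ε := by
    rw [div_le_iff₀ (by positivity)]
    nlinarith
  constructor
  · rw [edist_dist, edist_dist, dist_eq_norm, dist_eq_norm, ← map_sub]
    rw [ENNReal.coe_nnreal_eq, Real.coe_toNNReal _ (by positivity),
      ← ENNReal.ofReal_mul (by positivity)]
    apply ENNReal.ofReal_le_ofReal
    calc ‖f p - f q‖ = ‖(f p - f q - L (p - q)) + L (p - q)‖ := by simp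
      _ ≤ ‖f p - f q - L (p - q)‖ + ‖L (p - q)‖ := norm_add_le _ _
      _ ≤ ε / (1 + ε) * ‖L (p - q)‖ + ‖L (p - q)‖ := by gcongr
      _ ≤ ε * ‖L (p - q)‖ + ‖L (p - q)‖ := by gcongr
      _ = (1 + ε) * ‖L (p - q)‖ := by ring
  · rw [edist_dist, edist_dist, dist_eq_norm, dist_eq_norm, ← map_sub]
    rw [ENNReal.coe_nnreal_eq, Real.coe_toNNReal _ (by positivity),
      ← ENNReal.ofReal_mul (by positivity)]
    apply ENNReal.ofReal_le_ofReal
    have h5 : ‖L (p - q)‖ ≤ ‖f p - f q‖ + ‖f p - f q - L (p - q)‖ := by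
      have := norm_sub_le (f p - f q) (f p - f q - L (p - q))
      simpa using this
    have h6 : ‖L (p - q)‖ * (1 - ε / (1 + ε)) ≤ ‖f p - f q‖ := by linarith
    have h7 : 1 - ε / (1 + ε) = 1 / (1 + ε) := by field_simp; ring
    rw [h7, mul_one_div, div_le_iff₀ (by positivity)] at h6
    linarith

variable [MeasurableSpace U] [BorelSpace U] [MeasurableSpace V] [BorelSpace V]

/-- Local comparison of the two sides of the area formula. -/
lemma local_area_compare {f : U → V} {f' : U → U →L[ℝ] V} {s : Set U}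
    (hf : ∀ x ∈ s, HasStrictFDerivAt f (f' x) x)
    (hJ : ContinuousOn (fun x => (f' x : U →ₗ[ℝ] V).normDet) s)
    (himm : ∀ x ∈ s, Function.Injective (f' x)) {ε : ℝ} (hε : 0 < ε) (a : U) (ha : a ∈ s) :
    ∃ N, IsOpen N ∧ a ∈ N ∧ ∀ A ⊆ N ∩ s, MeasurableSet A →
      μHE[finrank ℝ U] (f '' A) ≤ ENNReal.ofReal ((1 + ε) ^ (finrank ℝ U + 1)) *
        ∫⁻ x in A, ENNReal.ofReal (f' x : U →ₗ[ℝ] V).normDet ∧
      ∫⁻ x in A, ENNReal.ofReal (f' x : U →ₗ[ℝ] V).normDet ≤
        ENNReal.ofReal ((1 + ε) ^ (finrank ℝ U + 1)) * μHE[finrank ℝ U] (f '' A) := by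
  set d := finrank ℝ U with hd
  set J : U → ℝ := fun x => (f' x : U →ₗ[ℝ] V).normDet with hJdef
  have hJa : 0 < J a := by
    refine lt_of_le_of_ne (LinearMap.normDet_nonneg _) (Ne.symm ?_)
    exact ((f' a : U →ₗ[ℝ] V).normDet_ne_zero_tfae.out 4 0).1 (himm a ha)
  obtain ⟨N₁, hN₁, hcmp⟩ := exists_nhds_edist_compare (hf a ha) (himm a ha) hε
  have hev : ∀ᶠ x in 𝓝[s] a, J x ∈ Ioo (J a / (1 + ε)) ((1 + ε) * J a) := by
    apply (hJ a ha)
    apply Ioo_mem_nhds
    · rw [div_lt_iff₀ (by positivity)]; nlinarith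
    · nlinarith
  rw [eventually_nhdsWithin_iff] at hev
  obtain ⟨N, hNsub, hNo, haN⟩ := mem_nhds_iff.1 (inter_mem hN₁ hev)
  refine ⟨N, hNo, haN, fun A hA hAm => ?_⟩
  have hA1 : ∀ x ∈ A, x ∈ N₁ := fun x hx => (hNsub (hA hx).1).1
  have hA2 : ∀ x ∈ A, J a / (1 + ε) < J x ∧ J x < (1 + ε) * J a := fun x hx =>
    (hNsub (hA hx).1).2 (hA hx).2
  set k : ℝ≥0 := Real.toNNReal (1 + ε) with hk
  have hkr : ((k : ℝ≥0) : ℝ≥0∞) ^ d = ENNReal.ofReal ((1 + ε) ^ d) := by
    rw [ENNReal.coe_nnreal_eq, hk, Real.coe_toNNReal _ (by positivity),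
      ← ENNReal.ofReal_pow (by positivity)]
  have hup := image_le_of_edist_le f (f' a) A k
    (fun p hp q hq => (hcmp p (hA1 p hp) q (hA1 q hq)).1) d
  have hlo := image_le_of_edist_le (f' a) f A k
    (fun p hp q hq => (hcmp p (hA1 p hp) q (hA1 q hq)).2) d
  have hlin : μHE[d] ((f' a) '' A) = ENNReal.ofReal (J a) * volume A :=
    (f' a : U →ₗ[ℝ] V).euclideanHausdorffMeasure_image_eq_normDet_mul_volume A
  rw [hlin, hkr] at hup hlo
  have hint1 : ENNReal.ofReal (J a) * volume A ≤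
      ENNReal.ofReal (1 + ε) * ∫⁻ x in A, ENNReal.ofReal (J x) := by
    rw [← lintegral_const_mul' _ _ ENNReal.ofReal_ne_top, ← setLIntegral_const]
    refine setLIntegral_mono' hAm fun x hx => ?_
    rw [← ENNReal.ofReal_mul (by positivity)]
    apply ENNReal.ofReal_le_ofReal
    have := (hA2 x hx).1
    rw [div_lt_iff₀ (by positivity)] at this
    linarith
  have hint2 : ∫⁻ x in A, ENNReal.ofReal (J x) ≤
      ENNReal.ofReal (1 + ε) * (ENNReal.ofReal (J a) * volume A) := by
    rw [← mul_assoc, ← ENNReal.ofReal_mul (by positivity), ← setLIntegral_const]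
    refine setLIntegral_mono' hAm fun x hx => ?_
    apply ENNReal.ofReal_le_ofReal
    exact (hA2 x hx).2.le
  constructor
  · calc μHE[d] (f '' A) ≤ ENNReal.ofReal ((1 + ε) ^ d) * (ENNReal.ofReal (J a) * volume A) := hup
      _ ≤ ENNReal.ofReal ((1 + ε) ^ d) *
          (ENNReal.ofReal (1 + ε) * ∫⁻ x in A, ENNReal.ofReal (J x)) := by gcongr
      _ = _ := by
        rw [← mul_assoc, ← ENNReal.ofReal_mul (by positivity), ← pow_succ]
  · calc ∫⁻ x in A, ENNReal.ofReal (J x)
        ≤ ENNReal.ofReal (1 + ε) * (ENNReal.ofReal (J a) * volume A) := hint2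
      _ ≤ ENNReal.ofReal (1 + ε) * (ENNReal.ofReal ((1 + ε) ^ d) * μHE[d] (f '' A)) := by gcongr
      _ = _ := by
        rw [← mul_assoc, ← ENNReal.ofReal_mul (by positivity), ← pow_succ']

lemma area_compare {f : U → V} {f' : U → U →L[ℝ] V} {s : Set U}
    (hf : ∀ x ∈ s, HasStrictFDerivAt f (f' x) x)
    (hJ : ContinuousOn (fun x => (f' x : U →ₗ[ℝ] V).normDet) s)
    (hinj : InjOn f s)
    (himm : ∀ x ∈ s, Function.Injective (f' x)) {ε : ℝ} (hε : 0 < ε)
    {A : Set U} (hAs : A ⊆ s) (hA : MeasurableSet A) :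
      μHE[finrank ℝ U] (f '' A) ≤ ENNReal.ofReal ((1 + ε) ^ (finrank ℝ U + 1)) *
        ∫⁻ x in A, ENNReal.ofReal (f' x : U →ₗ[ℝ] V).normDet ∧
      ∫⁻ x in A, ENNReal.ofReal (f' x : U →ₗ[ℝ] V).normDet ≤
        ENNReal.ofReal ((1 + ε) ^ (finrank ℝ U + 1)) * μHE[finrank ℝ U] (f '' A) := by
  have : CompleteSpace U := FiniteDimensional.complete ℝ U
  have : ProperSpace U := FiniteDimensional.proper ℝ U
  rcases A.eq_empty_or_nonempty with rfl | hne
  · simp
  choose! N hNo haN hN using fun a (ha : a ∈ s) =>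
    local_area_compare (f := f) (f' := f') (s := s) hf hJ himm hε a ha
  obtain ⟨t, hts, htc, hcov⟩ := TopologicalSpace.countable_cover_nhdsWithin
    (s := s) (f := N) (fun a ha => mem_nhdsWithin_of_mem_nhds ((hNo a ha).mem_nhds (haN a ha)))
  have htne : t.Nonempty := by
    obtain ⟨x, hx⟩ := hne
    have := hcov (hAs hx)
    simp only [mem_iUnion] at this
    obtain ⟨a, ha, _⟩ := this
    exact ⟨a, ha⟩
  obtain ⟨g, hg⟩ := htc.exists_eq_range htne
  have hgs : ∀ n, g n ∈ s := fun n => hts (hg ▸ mem_range_self n)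
  let O : ℕ → Set U := fun n => N (g n)
  have hOo : ∀ n, IsOpen (O n) := fun n => hNo _ (hgs n)
  have hcovO : s ⊆ ⋃ n, O n := by
    intro x hx
    have := hcov hx
    simp only [mem_iUnion] at this
    obtain ⟨a, ha, hxa⟩ := this
    rw [hg] at ha
    obtain ⟨n, rfl⟩ := ha
    exact mem_iUnion.2 ⟨n, hxa⟩
  let B : ℕ → Set U := fun n => disjointed O n ∩ A
  have hBm : ∀ n, MeasurableSet (B n) := fun n =>
    (MeasurableSet.disjointed (fun i => (hOo i).measurableSet) n).inter hA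
  have hBd : Pairwise (Function.onFun Disjoint B) := fun i j hij =>
    (disjoint_disjointed O hij).mono inter_subset_left inter_subset_left
  have hBU : ⋃ n, B n = A := by
    rw [← iUnion_inter, iUnion_disjointed]
    exact inter_eq_right.2 (hAs.trans hcovO)
  have hBsub : ∀ n, B n ⊆ O n ∩ s := fun n x hx => ⟨disjointed_subset O n hx.1, hAs hx.2⟩
  have hcont : ContinuousOn f s := fun x hx => (hf x hx).continuousAt.continuousWithinAt
  have himgm : ∀ n, MeasurableSet (f '' B n) := fun n =>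
    (hBm n).image_of_continuousOn_injOn (hcont.mono fun x hx => (hBsub n hx).2)
      (hinj.mono fun x hx => (hBsub n hx).2)
  have himgd : Pairwise (Function.onFun Disjoint fun n => f '' B n) := by
    intro i j hij
    have h1 := hBd hij
    simp only [Function.onFun] at h1 ⊢
    rw [Set.disjoint_left]
    rintro _ ⟨x, hx, rfl⟩ ⟨y, hy, hxy⟩
    have : y = x := hinj (hBsub j hy).2 (hBsub i hx).2 hxy
    subst this
    exact Set.disjoint_left.1 h1 hx hy
  have hA1 : μHE[finrank ℝ U] (f '' A) = ∑' n, μHE[finrank ℝ U] (f '' B n) := by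
    rw [← measure_iUnion himgd himgm, ← image_iUnion, hBU]
  have hA2 : ∫⁻ x in A, ENNReal.ofReal (f' x : U →ₗ[ℝ] V).normDet =
      ∑' n, ∫⁻ x in B n, ENNReal.ofReal (f' x : U →ₗ[ℝ] V).normDet := by
    rw [← lintegral_iUnion hBm hBd, hBU]
  rw [hA1, hA2, ← ENNReal.tsum_mul_left, ← ENNReal.tsum_mul_left]
  exact ⟨ENNReal.tsum_le_tsum fun n => (hN _ (hgs n) (B n) (hBsub n) (hBm n)).1,
    ENNReal.tsum_le_tsum fun n => (hN _ (hgs n) (B n) (hBsub n) (hBm n)).2⟩

/-- **Area formula** for a strictly differentiable injective immersion. -/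
theorem area_formula {f : U → V} {f' : U → U →L[ℝ] V} {s : Set U}
    (hf : ∀ x ∈ s, HasStrictFDerivAt f (f' x) x)
    (hJ : ContinuousOn (fun x => (f' x : U →ₗ[ℝ] V).normDet) s)
    (hinj : InjOn f s)
    (himm : ∀ x ∈ s, Function.Injective (f' x))
    {A : Set U} (hAs : A ⊆ s) (hA : MeasurableSet A) :
      μHE[finrank ℝ U] (f '' A) =
        ∫⁻ x in A, ENNReal.ofReal (f' x : U →ₗ[ℝ] V).normDet := by
  have hlim : Tendsto (fun n : ℕ => ENNReal.ofReal ((1 + 1 / ((n : ℝ) + 1)) ^ (finrank ℝ U + 1)))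
      atTop (𝓝 1) := by
    have h1 : Tendsto (fun n : ℕ => (1 + 1 / ((n : ℝ) + 1)) ^ (finrank ℝ U + 1)) atTop
        (𝓝 ((1 + 0) ^ (finrank ℝ U + 1))) :=
      (tendsto_const_nhds.add tendsto_one_div_add_atTop_nhds_zero_nat).pow _
    rw [add_zero, one_pow] at h1
    have h2 := (ENNReal.continuous_ofReal.tendsto 1).comp h1
    rwa [ENNReal.ofReal_one] at h2
  have hcmp := fun n : ℕ => area_compare (f := f) (f' := f') hf hJ hinj himm
    (ε := 1 / ((n : ℝ) + 1)) (by positivity) hAs hA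
  apply le_antisymm
  · have h := ENNReal.Tendsto.mul_const (b := ∫⁻ x in A, ENNReal.ofReal
      (f' x : U →ₗ[ℝ] V).normDet) hlim (Or.inl one_ne_zero)
    rw [one_mul] at h
    exact ge_of_tendsto' h fun n => (hcmp n).1
  · have h := ENNReal.Tendsto.mul_const (b := μHE[finrank ℝ U] (f '' A)) hlim
      (Or.inl one_ne_zero)
    rw [one_mul] at h
    exact ge_of_tendsto' h fun n => (hcmp n).2

/-- The Hausdorff measure on an embedded piece is the push-forward of the Jacobian density. -/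
theorem restrict_image_eq_map {f : U → V} {f' : U → U →L[ℝ] V} {s : Set U}
    (hs : MeasurableSet s)
    (hf : ∀ x ∈ s, HasStrictFDerivAt f (f' x) x)
    (hJ : ContinuousOn (fun x => (f' x : U →ₗ[ℝ] V).normDet) s)
    (hinj : InjOn f s)
    (himm : ∀ x ∈ s, Function.Injective (f' x)) :
    (μHE[finrank ℝ U] : Measure V).restrict (f '' s) =
      Measure.map f ((volume.restrict s).withDensity
        fun x => ENNReal.ofReal (f' x : U →ₗ[ℝ] V).normDet) := by
  have hcont : ContinuousOn f s := fun x hx => (hf x hx).continuousAt.continuousWithinAt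
  have hfm : AEMeasurable f ((volume.restrict s).withDensity
        fun x => ENNReal.ofReal (f' x : U →ₗ[ℝ] V).normDet) :=
    (hcont.aemeasurable hs).mono_ac (withDensity_absolutelyContinuous _ _)
  classical
  obtain ⟨v₀⟩ : Nonempty V := ⟨0⟩
  let g : U → V := s.piecewise f (fun _ => v₀)
  have hg : Measurable g := hcont.measurable_piecewise continuousOn_const hs
  have hgf : ∀ x ∈ s, g x = f x := fun x hx => Set.piecewise_eq_of_mem _ _ _ hx
  have hae : f =ᵐ[(volume.restrict s).withDensity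
        fun x => ENNReal.ofReal (f' x : U →ₗ[ℝ] V).normDet] g := by
    apply (withDensity_absolutelyContinuous _ _).ae_le
    have h1 : ∀ᵐ x ∂(volume.restrict s), f x = g x := by
      rw [ae_restrict_iff' hs]
      exact ae_of_all _ fun x hx => (hgf x hx).symm
    exact h1
  rw [Measure.map_congr hae]
  ext B hB
  have hm : MeasurableSet (s ∩ g ⁻¹' B) := hs.inter (hg hB)
  rw [Measure.restrict_apply hB, Measure.map_apply hg hB, withDensity_apply _ (hg hB),
    Measure.restrict_restrict (hg hB), inter_comm (g ⁻¹' B) s,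
    ← area_formula hf hJ hinj himm inter_subset_left hm]
  congr 1
  ext y
  constructor
  · rintro ⟨hyB, x, hx, rfl⟩
    exact ⟨x, ⟨hx, by rw [mem_preimage, hgf x hx]; exact hyB⟩, rfl⟩
  · rintro ⟨x, ⟨hx, hxB⟩, rfl⟩
    rw [mem_preimage, hgf x hx] at hxB
    exact ⟨hxB, x, hx, rfl⟩

end Pool.Agent.Helper82
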