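import Mathlib
import Pool.Agent.Helper82.AreaFormula

/-!
# Charts of level sets in Euclidean 3-space
-/

open MeasureTheory MeasureTheory.Measure Module Set Filter Topology
open scoped ENNReal NNReal Gradient RealInnerProductSpace

namespace Pool.Agent.Helper82

/-- The Euclidean plane. -/
abbrev E2 : Type := EuclideanSpace ℝ (Fin 2)

/-- Coordinates along the first two vectors of an orthonormal basis. -/
noncomputable def projL (b : OrthonormalBasis (Fin 3) ℝ E3) : E3 →L[ℝ] E2 :=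
  ((EuclideanSpace.equiv (Fin 2) ℝ).symm : (Fin 2 → ℝ) →L[ℝ] E2) ∘L
    ContinuousLinearMap.pi (fun j : Fin 2 => (innerSL ℝ (b j.castSucc) : E3 →L[ℝ] ℝ))

lemma projL_apply (b : OrthonormalBasis (Fin 3) ℝ E3) (p : E3) (j : Fin 2) :
    projL b p j = ⟪b j.castSucc, p⟫ := by
  simp [projL]

lemma eq_smul_of_projL_eq_zero {b : OrthonormalBasis (Fin 3) ℝ E3} {v : E3}
    (h : projL b v = 0) : v = ⟪b 2, v⟫ • b 2 := by
  have h0 : ⟪b 0, v⟫ = 0 := by
    have := congrArg (fun x : E2 => x 0) h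
    simpa [projL_apply] using this
  have h1 : ⟪b 1, v⟫ = 0 := by
    have := congrArg (fun x : E2 => x 1) h
    simpa [projL_apply] using this
  have := b.sum_repr' v
  rw [Fin.sum_univ_three, h0, h1, zero_smul, zero_smul, zero_add, zero_add] at this
  exact this.symm

/-- Data of a local chart of the level set `{F = 0}`. -/
structure Chart (F : E3 → ℝ) (b : OrthonormalBasis (Fin 3) ℝ E3) (W : Set E3) (V : Set E2)
    (ψ : E2 → E3) : Prop where
  isOpenW : IsOpen W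
  isOpenV : IsOpen V
  contF : ContDiffOn ℝ 2 F W
  contψ : ContDiffOn ℝ 2 ψ V
  pos : ∀ q ∈ W, 0 < fderiv ℝ F q (b 2)
  maps : ∀ x ∈ V, ψ x ∈ W
  zero : ∀ x ∈ V, F (ψ x) = 0
  proj : ∀ x ∈ V, projL b (ψ x) = x
  surj : ∀ q ∈ W, F q = 0 → projL b q ∈ V ∧ ψ (projL b q) = q

lemma exists_equiv_of_pos {b : OrthonormalBasis (Fin 3) ℝ E3} {L : E3 →L[ℝ] ℝ} (h : 0 < L (b 2)) :
    ∃ e : E3 ≃L[ℝ] (E2 × ℝ), (e : E3 →L[ℝ] (E2 × ℝ)) = (projL b).prod L := by
  have hinj : Function.Injective ((projL b).prod L : E3 →ₗ[ℝ] (E2 × ℝ)) := by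
    rw [← LinearMap.ker_eq_bot, LinearMap.ker_eq_bot']
    intro v hv
    simp only [ContinuousLinearMap.coe_coe, ContinuousLinearMap.prod_apply, Prod.mk_eq_zero] at hv
    have h1 := eq_smul_of_projL_eq_zero hv.1
    have h2 := hv.2
    rw [h1, map_smul, smul_eq_mul] at h2
    rcases mul_eq_zero.1 h2 with h3 | h3
    · rw [h1, h3, zero_smul]
    · exact absurd h3 h.ne'
  have hfin : finrank ℝ E3 = finrank ℝ (E2 × ℝ) := by
    simp
  let e := (LinearEquiv.ofInjectiveOfFinrankEq ((projL b).prod L : E3 →ₗ[ℝ] (E2 × ℝ)) hinj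
    hfin).toContinuousLinearEquiv
  refine ⟨e, ?_⟩
  ext v
  · rfl
  · rfl

theorem exists_chart {F : E3 → ℝ} {W : Set E3} (hW : IsOpen W) (hF : ContDiffOn ℝ 2 F W)
    {b : OrthonormalBasis (Fin 3) ℝ E3} {p₀ : E3} (hp₀ : p₀ ∈ W)
    (hb : 0 < fderiv ℝ F p₀ (b 2)) :
    ∃ W' V ψ, p₀ ∈ W' ∧ W' ⊆ W ∧ Chart F b W' V ψ := by
  have hFc : ContDiffAt ℝ 2 F p₀ := hF.contDiffAt (hW.mem_nhds hp₀)
  obtain ⟨e, he⟩ := exists_equiv_of_pos hb
  have hΦc : ContDiffAt ℝ 2 (fun p => (projL b p, F p)) p₀ :=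
    (projL b).contDiff.contDiffAt.prodMk hFc
  have hΦd : HasFDerivAt (fun p => (projL b p, F p)) (e : E3 →L[ℝ] (E2 × ℝ)) p₀ := by
    rw [he]
    exact (projL b).hasFDerivAt.prodMk
      (hFc.differentiableAt (by norm_num)).hasFDerivAt
  let Φ := hΦc.toOpenPartialHomeomorph _ hΦd (by norm_num)
  have hΦ : ∀ p, Φ p = (projL b p, F p) := fun p => rfl
  have hp₀Φ : p₀ ∈ Φ.source := hΦc.mem_toOpenPartialHomeomorph_source hΦd (by norm_num)
  -- the open set where the derivative in direction `b 2` is positive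
  have hcontd : ContinuousOn (fun q => fderiv ℝ F q (b 2)) W := by
    have h1 := hF.continuousOn_fderiv_of_isOpen hW (by norm_num)
    exact h1.clm_apply continuousOn_const
  let W₁ : Set E3 := W ∩ (fun q => fderiv ℝ F q (b 2)) ⁻¹' Ioi 0
  have hW₁ : IsOpen W₁ := hcontd.isOpen_inter_preimage hW isOpen_Ioi
  let Ψ := Φ.restrOpen W₁ hW₁
  have hΨs : Ψ.source = Φ.source ∩ W₁ := Φ.restrOpen_source W₁ hW₁
  let V : Set E2 := (fun x : E2 => (x, (0:ℝ))) ⁻¹' Ψ.target
  let ψ : E2 → E3 := fun x => Ψ.symm (x, 0)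
  have hψs : ∀ x ∈ V, ψ x ∈ Ψ.source := fun x hx => Ψ.map_target hx
  have hΨψ : ∀ x ∈ V, (projL b (ψ x), F (ψ x)) = (x, 0) := fun x hx => Ψ.right_inv hx
  refine ⟨Ψ.source, V, ψ, ?_, ?_, ?_⟩
  · rw [hΨs]
    exact ⟨hp₀Φ, hp₀, hb⟩
  · rw [hΨs]
    exact fun q hq => hq.2.1
  · constructor
    · exact Ψ.open_source
    · exact Ψ.open_target.preimage (by fun_prop)
    · exact hF.mono (by rw [hΨs]; exact fun q hq => hq.2.1)
    · intro x hx
      apply ContDiffAt.contDiffWithinAt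
      have hq : ψ x ∈ Ψ.source := hψs x hx
      have hqW : ψ x ∈ W₁ := by rw [hΨs] at hq; exact hq.2
      obtain ⟨e', he'⟩ := exists_equiv_of_pos (b := b) (L := fderiv ℝ F (ψ x)) hqW.2
      have hFq : ContDiffAt ℝ 2 F (ψ x) := hF.contDiffAt (hW.mem_nhds hqW.1)
      have hder : HasFDerivAt Ψ (e' : E3 →L[ℝ] (E2 × ℝ)) (Ψ.symm (x, 0)) := by
        rw [he']
        exact (projL b).hasFDerivAt.prodMk
          (hFq.differentiableAt (by norm_num)).hasFDerivAt
      have hcd : ContDiffAt ℝ 2 Ψ (Ψ.symm (x, 0)) :=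
        (projL b).contDiff.contDiffAt.prodMk hFq
      have := Ψ.contDiffAt_symm hx hder hcd
      exact this.comp x (contDiff_id.prodMk contDiff_const).contDiffAt
    · intro q hq
      rw [hΨs] at hq
      exact hq.2.2
    · exact hψs
    · intro x hx
      exact congrArg Prod.snd (hΨψ x hx)
    · intro x hx
      exact congrArg Prod.fst (hΨψ x hx)
    · intro q hq hq0
      have h1 : Ψ q = (projL b q, 0) := by
        have : Ψ q = (projL b q, F q) := rfl
        rw [this, hq0]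
      have h2 : Ψ q ∈ Ψ.target := Ψ.map_source hq
      rw [h1] at h2
      refine ⟨h2, ?_⟩
      change Ψ.symm (projL b q, 0) = q
      rw [← h1]
      exact Ψ.left_inv hq

end Pool.Agent.Helper82
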