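import Mathlib
import Pool.Agent.Helper82.Chart

open MeasureTheory MeasureTheory.Measure Module Set Filter Topology
open scoped ENNReal NNReal Gradient RealInnerProductSpace

namespace Pool.Agent.Helper82

variable {F : E3 → ℝ} {b : OrthonormalBasis (Fin 3) ℝ E3} {W : Set E3} {V : Set E2} {ψ : E2 → E3}

namespace Chart

lemma contDiffAt_ψ (h : Chart F b W V ψ) {x : E2} (hx : x ∈ V) : ContDiffAt ℝ 2 ψ x :=
  h.contψ.contDiffAt (h.isOpenV.mem_nhds hx)

lemma contDiffAt_F (h : Chart F b W V ψ) {q : E3} (hq : q ∈ W) : ContDiffAt ℝ 2 F q :=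
  h.contF.contDiffAt (h.isOpenW.mem_nhds hq)

lemma hasFDerivAt_ψ (h : Chart F b W V ψ) {x : E2} (hx : x ∈ V) :
    HasFDerivAt ψ (fderiv ℝ ψ x) x :=
  ((h.contDiffAt_ψ hx).differentiableAt (by norm_num)).hasFDerivAt

lemma hasStrictFDerivAt_ψ (h : Chart F b W V ψ) {x : E2} (hx : x ∈ V) :
    HasStrictFDerivAt ψ (fderiv ℝ ψ x) x :=
  (h.contDiffAt_ψ hx).hasStrictFDerivAt (by norm_num)

lemma hasFDerivAt_F (h : Chart F b W V ψ) {q : E3} (hq : q ∈ W) :
    HasFDerivAt F (fderiv ℝ F q) q :=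
  ((h.contDiffAt_F hq).differentiableAt (by norm_num)).hasFDerivAt

lemma proj_fderiv (h : Chart F b W V ψ) {x : E2} (hx : x ∈ V) (v : E2) :
    projL b (fderiv ℝ ψ x v) = v := by
  have h1 : HasFDerivAt (fun y => projL b (ψ y)) ((projL b) ∘L (fderiv ℝ ψ x)) x :=
    (projL b).hasFDerivAt.comp x (h.hasFDerivAt_ψ hx)
  have h2 : (fun y => projL b (ψ y)) =ᶠ[𝓝 x] fun y => y := by
    filter_upwards [h.isOpenV.mem_nhds hx] with y hy using h.proj y hy
  have h3 := (h1.congr_of_eventuallyEq h2.symm).unique (hasFDerivAt_id x)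
  exact congrArg (fun L : E2 →L[ℝ] E2 => L v) h3

lemma fderiv_F_fderiv (h : Chart F b W V ψ) {x : E2} (hx : x ∈ V) (v : E2) :
    fderiv ℝ F (ψ x) (fderiv ℝ ψ x v) = 0 := by
  have h1 : HasFDerivAt (fun y => F (ψ y)) ((fderiv ℝ F (ψ x)) ∘L (fderiv ℝ ψ x)) x :=
    (h.hasFDerivAt_F (h.maps x hx)).comp x (h.hasFDerivAt_ψ hx)
  have h2 : (fun y => F (ψ y)) =ᶠ[𝓝 x] fun _ => (0:ℝ) := by
    filter_upwards [h.isOpenV.mem_nhds hx] with y hy using h.zero y hy
  have h3 := (h1.congr_of_eventuallyEq h2.symm).unique (hasFDerivAt_const (0:ℝ) x)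
  exact congrArg (fun L : E2 →L[ℝ] ℝ => L v) h3

lemma injective_fderiv (h : Chart F b W V ψ) {x : E2} (hx : x ∈ V) :
    Function.Injective (fderiv ℝ ψ x) := fun v w hvw => by
  rw [← h.proj_fderiv hx v, ← h.proj_fderiv hx w, hvw]

lemma injOn (h : Chart F b W V ψ) : InjOn ψ V := fun x hx y hy hxy => by
  rw [← h.proj x hx, ← h.proj y hy, hxy]

lemma image_eq (h : Chart F b W V ψ) : ψ '' V = {q | q ∈ W ∧ F q = 0} := by
  ext q
  constructor
  · rintro ⟨x, hx, rfl⟩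
    exact ⟨h.maps x hx, h.zero x hx⟩
  · rintro ⟨hq, hq0⟩
    exact ⟨_, (h.surj q hq hq0).1, (h.surj q hq hq0).2⟩

/-- The derivative of the chart in the `j`-th coordinate direction. -/
lemma fderiv_single (h : Chart F b W V ψ) {x : E2} (hx : x ∈ V) (j : Fin 2) :
    fderiv ℝ ψ x (EuclideanSpace.single j 1) =
      b j.castSucc - (fderiv ℝ F (ψ x) (b j.castSucc) / fderiv ℝ F (ψ x) (b 2)) • b 2 := by
  have hpos := h.pos _ (h.maps x hx)
  set w := fderiv ℝ ψ x (EuclideanSpace.single j 1) with hw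
  have h1 : projL b (w - b j.castSucc) = 0 := by
    rw [map_sub, hw, h.proj_fderiv hx]
    ext i
    simp only [PiLp.sub_apply, projL_apply, PiLp.zero_apply]
    rw [orthonormal_iff_ite.1 b.orthonormal]
    by_cases hij : i = j
    · subst hij; simp
    · have : i.castSucc ≠ j.castSucc := fun hh => hij (Fin.castSucc_injective _ hh)
      simp [hij, this]
  have h2 := eq_smul_of_projL_eq_zero h1
  set c := ⟪b 2, w - b j.castSucc⟫ with hc
  have h3 : w = b j.castSucc + c • b 2 := by rw [← h2]; abel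
  have h4 := h.fderiv_F_fderiv hx (EuclideanSpace.single j 1)
  rw [← hw, h3, map_add, map_smul, smul_eq_mul] at h4
  have h5 : c = -(fderiv ℝ F (ψ x) (b j.castSucc) / fderiv ℝ F (ψ x) (b 2)) := by
    rw [eq_neg_iff_add_eq_zero, ← mul_right_inj' hpos.ne', mul_zero, mul_add,
      mul_div_cancel₀ _ hpos.ne']
    linarith
  rw [h3, h5, neg_smul, sub_eq_add_neg]

lemma norm_gradient_sq (F : E3 → ℝ) (b : OrthonormalBasis (Fin 3) ℝ E3) (q : E3) :
    ‖∇ F q‖ ^ 2 = fderiv ℝ F q (b 0) ^ 2 + fderiv ℝ F q (b 1) ^ 2 + fderiv ℝ F q (b 2) ^ 2 := by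
  have := b.sum_sq_norm_inner_left (∇ F q)
  rw [Fin.sum_univ_three] at this
  rw [← this]
  simp only [inner_gradient_left, Real.norm_eq_abs, sq_abs]

lemma normDet_eq (h : Chart F b W V ψ) {x : E2} (hx : x ∈ V) :
    (fderiv ℝ ψ x : E2 →ₗ[ℝ] E3).normDet = ‖∇ F (ψ x)‖ / fderiv ℝ F (ψ x) (b 2) := by
  have hpos := h.pos _ (h.maps x hx)
  have h1 := (fderiv ℝ ψ x : E2 →ₗ[ℝ] E3).normDet_sq_eq_det_gram
    (EuclideanSpace.basisFun (Fin 2) ℝ)
  have h0 : 0 ≤ (fderiv ℝ ψ x : E2 →ₗ[ℝ] E3).normDet := LinearMap.normDet_nonneg _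
  rw [← sq_eq_sq₀ h0 (by positivity), div_pow, norm_gradient_sq F b]
  have h2 : (fderiv ℝ ψ x : E2 →ₗ[ℝ] E3).normDet ^ 2 = _ := h1
  rw [h2, Matrix.det_fin_two]
  simp only [Matrix.gram_apply, EuclideanSpace.basisFun_apply, ContinuousLinearMap.coe_coe,
    h.fderiv_single hx]
  have e0 : (0 : Fin 2).castSucc = (0 : Fin 3) := rfl
  have e1 : (1 : Fin 2).castSucc = (1 : Fin 3) := rfl
  have hon := orthonormal_iff_ite.1 b.orthonormal
  simp only [e0, e1, inner_sub_left, inner_sub_right, inner_smul_left, inner_smul_right, hon]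
  simp
  field_simp
  ring

lemma continuousOn_normDet (h : Chart F b W V ψ) :
    ContinuousOn (fun x => (fderiv ℝ ψ x : E2 →ₗ[ℝ] E3).normDet) V := by
  have hd : ContinuousOn (fun q => fderiv ℝ F q) W :=
    h.contF.continuousOn_fderiv_of_isOpen h.isOpenW (by norm_num)
  have hψ : ContinuousOn ψ V := h.contψ.continuousOn
  have hd2 : ContinuousOn (fun x => fderiv ℝ F (ψ x)) V := hd.comp hψ h.maps
  have hg : ContinuousOn (fun x => ‖∇ F (ψ x)‖) V := by
    apply ContinuousOn.norm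
    exact (InnerProductSpace.toDual ℝ E3).symm.continuous.comp_continuousOn hd2
  have h2 : ContinuousOn (fun x => fderiv ℝ F (ψ x) (b 2)) V := hd2.clm_apply continuousOn_const
  refine (hg.div h2 fun x hx => (h.pos _ (h.maps x hx)).ne').congr fun x hx => ?_
  exact h.normDet_eq hx

theorem restrict_eq_map (h : Chart F b W V ψ) :
    (μHE[2] : Measure E3).restrict {q | q ∈ W ∧ F q = 0} =
      Measure.map ψ ((volume.restrict V).withDensity
        fun x => ENNReal.ofReal (fderiv ℝ ψ x : E2 →ₗ[ℝ] E3).normDet) := by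
  have h1 := restrict_image_eq_map (U := E2) (V := E3) (f := ψ) (f' := fderiv ℝ ψ)
    h.isOpenV.measurableSet (fun x hx => h.hasStrictFDerivAt_ψ hx) h.continuousOn_normDet h.injOn
    (fun x hx => h.injective_fderiv hx)
  have h2 : finrank ℝ E2 = 2 := by simp
  rw [h2, h.image_eq] at h1
  exact h1

end Chart

end Pool.Agent.Helper82
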