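import Mathlib
import Pool.Agent.Helper82.ChartMeasure

open MeasureTheory MeasureTheory.Measure Module Set Filter Topology
open scoped ENNReal NNReal Gradient RealInnerProductSpace

namespace Pool.Agent.Helper82

lemma dv_eq_sum (b : OrthonormalBasis (Fin 3) ℝ E3) (B : E3 → E3) (q : E3) :
    dv B q = ⟪b 0, fderiv ℝ B q (b 0)⟫ + ⟪b 1, fderiv ℝ B q (b 1)⟫ + ⟪b 2, fderiv ℝ B q (b 2)⟫ := by
  rw [dv, LinearMap.trace_eq_sum_inner _ b, Fin.sum_univ_three]
  rfl

/-- The integral of a derivative of a compactly supported `C¹` function vanishes. -/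
lemma integral_fderiv_eq_zero' {g : E2 → ℝ} (hg : ContDiff ℝ 1 g) (hc : HasCompactSupport g)
    (v : E2) : ∫ x, fderiv ℝ g x v = 0 := by
  have hd : Continuous (fun x => fderiv ℝ g x v) :=
    (hg.continuous_fderiv (by norm_num)).clm_apply continuous_const
  have hdc : HasCompactSupport (fun x => fderiv ℝ g x v) := by
    have h1 := hc.fderiv (𝕜 := ℝ)
    refine h1.mono ?_
    intro x hx
    simp only [Function.mem_support] at hx ⊢
    intro h0
    apply hx
    rw [h0]; rfl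
  have hi : Integrable (fun x => fderiv ℝ g x v) := hd.integrable_of_hasCompactSupport hdc
  have hi0 : Integrable g := hg.continuous.integrable_of_hasCompactSupport hc
  have h := integral_mul_fderiv_eq_neg_fderiv_mul_of_integrable (μ := (volume : Measure E2))
    (f := fun _ : E2 => (1:ℝ)) (g := g) (v := v) (by simp) (by simpa using hi)
    (by simpa using hi0) (by simp) (fun x _ => (hg.differentiable (by norm_num)) x)
  simpa using h

variable {F : E3 → ℝ} {b : OrthonormalBasis (Fin 3) ℝ E3} {W : Set E3} {V : Set E2} {ψ : E2 → E3}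

namespace Chart

lemma measurableSet_level (h : Chart F b W V ψ) : MeasurableSet {q | q ∈ W ∧ F q = 0} := by
  have h1 : {q | q ∈ W ∧ F q = 0} = W \ (W ∩ F ⁻¹' {0}ᶜ) := by
    ext q
    simp only [mem_ofPred_eq, Set.mem_sdiff, mem_inter_iff, mem_preimage, mem_compl_iff,
      mem_singleton_iff]
    tauto
  rw [h1]
  exact h.isOpenW.measurableSet.diff
    (h.contF.continuousOn.isOpen_inter_preimage h.isOpenW isOpen_compl_singleton).measurableSet

/-- Change of variables for integrals over the level set. -/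
lemma integral_eq (h : Chart F b W V ψ) {g : E3 → ℝ} (hg : ContinuousOn g W) :
    ∫ q in {q | q ∈ W ∧ F q = 0}, g q ∂(μHE[2] : Measure E3) =
      ∫ x in V, (‖∇ F (ψ x)‖ / fderiv ℝ F (ψ x) (b 2)) * g (ψ x) := by
  have hm := h.measurableSet_level
  have hJm : AEMeasurable (fun x => ENNReal.ofReal (fderiv ℝ ψ x : E2 →ₗ[ℝ] E3).normDet)
      (volume.restrict V) :=
    (h.continuousOn_normDet.aemeasurable h.isOpenV.measurableSet).ennreal_ofReal
  have hψm : AEMeasurable ψ ((volume.restrict V).withDensity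
        fun x => ENNReal.ofReal (fderiv ℝ ψ x : E2 →ₗ[ℝ] E3).normDet) :=
    (h.contψ.continuousOn.aemeasurable h.isOpenV.measurableSet).mono_ac
      (withDensity_absolutelyContinuous _ _)
  have hgm : AEStronglyMeasurable g (Measure.map ψ ((volume.restrict V).withDensity
        fun x => ENNReal.ofReal (fderiv ℝ ψ x : E2 →ₗ[ℝ] E3).normDet)) := by
    rw [← h.restrict_eq_map]
    have h1 : {q | q ∈ W ∧ F q = 0} ⊆ W := fun q hq => hq.1
    exact (hg.mono h1).aestronglyMeasurable hm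
  rw [h.restrict_eq_map, integral_map hψm hgm,
    integral_withDensity_eq_integral_toReal_smul₀ hJm (ae_of_all _ fun x => ENNReal.ofReal_lt_top)]
  refine setIntegral_congr_fun h.isOpenV.measurableSet fun x hx => ?_
  simp only [smul_eq_mul]
  rw [ENNReal.toReal_ofReal (LinearMap.normDet_nonneg _), h.normDet_eq hx]

lemma contDiffAt_beta (h : Chart F b W V ψ) {B : E3 → E3} (hB : ContDiff ℝ 1 B) {x : E2}
    (hx : x ∈ V) (j : Fin 3) :
    ContDiffAt ℝ 1 (fun y => ⟪b j, B (ψ y)⟫ / fderiv ℝ F (ψ y) (b 2)) x := by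
  have hq := h.maps x hx
  have hpos := h.pos _ hq
  have hψ1 : ContDiffAt ℝ 1 ψ x := (h.contDiffAt_ψ hx).of_le (by norm_num)
  have h1 : ContDiffAt ℝ 1 (fun y => ⟪b j, B (ψ y)⟫) x :=
    (innerSL ℝ (b j) : E3 →L[ℝ] ℝ).contDiff.contDiffAt.comp x (hB.contDiffAt.comp x hψ1)
  have h2 : ContDiffAt ℝ 1 (fun y => fderiv ℝ F (ψ y) (b 2)) x := by
    have h3 : ContDiffAt ℝ 1 (fderiv ℝ F) (ψ x) :=
      (h.contDiffAt_F hq).fderiv_right (by norm_num)
    exact (h3.comp x hψ1).clm_apply contDiffAt_const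
  exact h1.div h2 hpos.ne'

lemma fderiv_beta (h : Chart F b W V ψ) {B : E3 → E3} (hB : ContDiff ℝ 1 B) {x : E2}
    (hx : x ∈ V) (j : Fin 3) (v : E2) :
    fderiv ℝ (fun y => ⟪b j, B (ψ y)⟫ / fderiv ℝ F (ψ y) (b 2)) x v =
      (⟪b j, fderiv ℝ B (ψ x) (fderiv ℝ ψ x v)⟫ -
        (⟪b j, B (ψ x)⟫ / fderiv ℝ F (ψ x) (b 2)) *
          fderiv ℝ (fderiv ℝ F) (ψ x) (fderiv ℝ ψ x v) (b 2)) / fderiv ℝ F (ψ x) (b 2) := by
  have hq := h.maps x hx
  have hpos := h.pos _ hq
  set β : E2 → ℝ := fun y => ⟪b j, B (ψ y)⟫ / fderiv ℝ F (ψ y) (b 2) with hβ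
  have hβd : HasFDerivAt β (fderiv ℝ β x) x :=
    ((h.contDiffAt_beta hB hx j).differentiableAt (by norm_num)).hasFDerivAt
  have h1 : HasFDerivAt (fun y => ⟪b j, B (ψ y)⟫)
      ((innerSL ℝ (b j) : E3 →L[ℝ] ℝ) ∘L ((fderiv ℝ B (ψ x)) ∘L (fderiv ℝ ψ x))) x := by
    have hBd : HasFDerivAt B (fderiv ℝ B (ψ x)) (ψ x) :=
      ((hB.differentiable (by norm_num)) _).hasFDerivAt
    exact (innerSL ℝ (b j) : E3 →L[ℝ] ℝ).hasFDerivAt.comp x (hBd.comp x (h.hasFDerivAt_ψ hx))
  have h2 : HasFDerivAt (fun y => fderiv ℝ F (ψ y) (b 2))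
      (((fderiv ℝ (fderiv ℝ F) (ψ x)) ∘L (fderiv ℝ ψ x)).flip (b 2)) x := by
    have hdd : HasFDerivAt (fderiv ℝ F) (fderiv ℝ (fderiv ℝ F) (ψ x)) (ψ x) := by
      have : ContDiffAt ℝ 1 (fderiv ℝ F) (ψ x) :=
        (h.contDiffAt_F hq).fderiv_right (by norm_num)
      exact (this.differentiableAt (by norm_num)).hasFDerivAt
    have h3 := hdd.comp x (h.hasFDerivAt_ψ hx)
    have h4 := h3.clm_apply (hasFDerivAt_const (b 2) x)
    simpa using h4
  have h5 := hβd.mul h2
  have h6 : (fun y => ⟪b j, B (ψ y)⟫) =ᶠ[𝓝 x] fun y => β y * fderiv ℝ F (ψ y) (b 2) := by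
    filter_upwards [h.isOpenV.mem_nhds hx] with y hy
    have := (h.pos _ (h.maps y hy)).ne'
    simp only [hβ]
    field_simp
  have h7 := (h5.congr_of_eventuallyEq h6).unique h1
  have h8 := congrArg (fun L : E2 →L[ℝ] ℝ => L v) h7
  simp only [_root_.add_apply, _root_.smul_apply,
    ContinuousLinearMap.flip_apply, ContinuousLinearMap.comp_apply, smul_eq_mul,
    innerSL_apply_apply] at h8
  rw [eq_div_iff hpos.ne']
  have h9 : β x = ⟪b j, B (ψ x)⟫ / fderiv ℝ F (ψ x) (b 2) := rfl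
  rw [← h9]
  linarith

/-- Pointwise divergence identity in the chart. -/
lemma sum_fderiv_beta (h : Chart F b W V ψ) {B : E3 → E3} (hB : ContDiff ℝ 1 B)
    (horth : ∀ q ∈ W, fderiv ℝ F q (B q) = 0) {x : E2} (hx : x ∈ V) :
    fderiv ℝ (fun y => ⟪b 0, B (ψ y)⟫ / fderiv ℝ F (ψ y) (b 2)) x (EuclideanSpace.single 0 1) +
    fderiv ℝ (fun y => ⟪b 1, B (ψ y)⟫ / fderiv ℝ F (ψ y) (b 2)) x (EuclideanSpace.single 1 1) =
      dv B (ψ x) / fderiv ℝ F (ψ x) (b 2) := by
  have hq := h.maps x hx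
  have hpos := h.pos _ hq
  rw [h.fderiv_beta hB hx 0, h.fderiv_beta hB hx 1, h.fderiv_single hx 0, h.fderiv_single hx 1,
    dv_eq_sum b]
  have e0 : (0 : Fin 2).castSucc = (0 : Fin 3) := rfl
  have e1 : (1 : Fin 2).castSucc = (1 : Fin 3) := rfl
  rw [e0, e1]
  set q := ψ x with hqdef
  set L := fderiv ℝ F q with hL
  set H := fderiv ℝ (fderiv ℝ F) q with hH
  set D := fderiv ℝ B q with hD
  -- the orthogonality relation
  have hBexp : B q = ⟪b 0, B q⟫ • b 0 + ⟪b 1, B q⟫ • b 1 + ⟪b 2, B q⟫ • b 2 := by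
    have := b.sum_repr' (B q)
    rw [Fin.sum_univ_three] at this
    exact this.symm
  have hDexp : D (b 2) = ⟪b 0, D (b 2)⟫ • b 0 + ⟪b 1, D (b 2)⟫ • b 1 + ⟪b 2, D (b 2)⟫ • b 2 := by
    have := b.sum_repr' (D (b 2))
    rw [Fin.sum_univ_three] at this
    exact this.symm
  have o1 : ⟪b 0, B q⟫ * L (b 0) + ⟪b 1, B q⟫ * L (b 1) + ⟪b 2, B q⟫ * L (b 2) = 0 := by
    have h1 := horth q hq
    rw [hBexp, map_add, map_add, map_smul, map_smul, map_smul] at h1
    simpa [smul_eq_mul] using h1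
  have hsymm : ∀ v w, H v w = H w v := by
    have := (h.contDiffAt_F hq).isSymmSndFDerivAt (by simp)
    exact fun v w => this v w
  have o2 : H (b 2) (B q) + L (D (b 2)) = 0 := by
    have hdd : HasFDerivAt (fderiv ℝ F) H q := by
      have : ContDiffAt ℝ 1 (fderiv ℝ F) q :=
        (h.contDiffAt_F hq).fderiv_right (by norm_num)
      exact (this.differentiableAt (by norm_num)).hasFDerivAt
    have hBd : HasFDerivAt B D q := ((hB.differentiable (by norm_num)) _).hasFDerivAt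
    have h1 := hdd.clm_apply hBd
    have h2 : (fun y => fderiv ℝ F y (B y)) =ᶠ[𝓝 q] fun _ => (0:ℝ) := by
      filter_upwards [h.isOpenW.mem_nhds hq] with y hy using horth y hy
    have h3 := (h1.congr_of_eventuallyEq h2.symm).unique (hasFDerivAt_const (0:ℝ) q)
    have h4 := congrArg (fun T : E3 →L[ℝ] ℝ => T (b 2)) h3
    simp only [_root_.add_apply, ContinuousLinearMap.comp_apply,
      ContinuousLinearMap.flip_apply, _root_.zero_apply] at h4
    linarith
  have o3 : ⟪b 0, B q⟫ * H (b 2) (b 0) + ⟪b 1, B q⟫ * H (b 2) (b 1) + ⟪b 2, B q⟫ * H (b 2) (b 2) +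
      (⟪b 0, D (b 2)⟫ * L (b 0) + ⟪b 1, D (b 2)⟫ * L (b 1) + ⟪b 2, D (b 2)⟫ * L (b 2)) = 0 := by
    have h1 : H (b 2) (B q) = ⟪b 0, B q⟫ * H (b 2) (b 0) + ⟪b 1, B q⟫ * H (b 2) (b 1) +
        ⟪b 2, B q⟫ * H (b 2) (b 2) := by
      conv_lhs => rw [hBexp]
      simp only [map_add, map_smul, smul_eq_mul]
    have h2 : L (D (b 2)) = ⟪b 0, D (b 2)⟫ * L (b 0) + ⟪b 1, D (b 2)⟫ * L (b 1) +
        ⟪b 2, D (b 2)⟫ * L (b 2) := by
      conv_lhs => rw [hDexp]
      simp only [map_add, map_smul, smul_eq_mul]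
    rw [h1, h2] at o2
    linarith
  have hLne : L (b 2) ≠ 0 := hpos.ne'
  simp only [map_sub, map_smul, _root_.sub_apply, _root_.smul_apply,
    smul_eq_mul, inner_sub_right, inner_smul_right]
  rw [hsymm (b 0) (b 2), hsymm (b 1) (b 2)]
  field_simp
  linear_combination (-(L (b 2))) * o3 + (H (b 2) (b 2)) * o1

lemma continuousOn_gradient (h : Chart F b W V ψ) : ContinuousOn (∇ F) W := by
  have hd : ContinuousOn (fun q => fderiv ℝ F q) W :=
    h.contF.continuousOn_fderiv_of_isOpen h.isOpenW (by norm_num)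
  exact (InnerProductSpace.toDual ℝ E3).symm.continuous.comp_continuousOn hd

lemma gradient_ne_zero (h : Chart F b W V ψ) {q : E3} (hq : q ∈ W) : ∇ F q ≠ 0 := by
  intro h0
  have h1 := h.pos q hq
  rw [← inner_gradient_left, h0, inner_zero_left] at h1
  exact lt_irrefl _ h1

/-- **Stokes' theorem on a level set**, for compactly supported tangential fields. -/
theorem integral_dv_eq_zero (h : Chart F b W V ψ) {B : E3 → E3} (hB : ContDiff ℝ 1 B)
    (horth : ∀ q ∈ W, fderiv ℝ F q (B q) = 0) (hc : HasCompactSupport B) (hs : tsupport B ⊆ W) :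
    ∫ q in {q | q ∈ W ∧ F q = 0}, dv B q / ‖∇ F q‖ ∂(μHE[2] : Measure E3) = 0 := by
  classical
  -- the compact set in the parameter domain
  have hK : IsCompact {q | q ∈ tsupport B ∧ F q = 0} := by
    have h1 : {q | q ∈ tsupport B ∧ F q = 0} = tsupport B ∩ F ⁻¹' {0} := rfl
    rw [h1]
    have h2 : IsClosed (tsupport B ∩ F ⁻¹' {0}) :=
      (h.contF.continuousOn.mono hs).preimage_isClosed_of_isClosed (isClosed_tsupport B)
        isClosed_singleton
    exact hc.isCompact.of_isClosed_subset h2 inter_subset_left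
  set C : Set E2 := projL b '' {q | q ∈ tsupport B ∧ F q = 0} with hC
  have hCc : IsCompact C := hK.image (projL b).continuous
  have hCV : C ⊆ V := by
    rintro _ ⟨q, ⟨hq, hq0⟩, rfl⟩
    exact (h.surj q (hs hq) hq0).1
  have hout : ∀ x ∈ V, x ∉ C → B (ψ x) = 0 := by
    intro x hx hxC
    by_contra hne
    apply hxC
    refine ⟨ψ x, ⟨subset_tsupport B hne, h.zero x hx⟩, h.proj x hx⟩
  let α : Fin 3 → E2 → ℝ := fun j => V.indicator fun y => ⟪b j, B (ψ y)⟫ / fderiv ℝ F (ψ y) (b 2)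
  have hαC : ∀ j, ∀ x ∉ C, α j x = 0 := by
    intro j x hx
    by_cases hxV : x ∈ V
    · simp only [α, indicator_of_mem hxV, hout x hxV hx, inner_zero_right, zero_div]
    · simp only [α, indicator_of_notMem hxV]
  have hαcd : ∀ j, ContDiff ℝ 1 (α j) := by
    intro j
    rw [contDiff_iff_contDiffAt]
    intro x
    by_cases hxV : x ∈ V
    · refine (h.contDiffAt_beta hB hxV j).congr_of_eventuallyEq ?_
      filter_upwards [h.isOpenV.mem_nhds hxV] with y hy
      simp only [α, indicator_of_mem hy]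
    · have hxC : x ∉ C := fun hx => hxV (hCV hx)
      refine (contDiffAt_const (c := (0:ℝ))).congr_of_eventuallyEq ?_
      filter_upwards [hCc.isClosed.isOpen_compl.mem_nhds hxC] with y hy using hαC j y hy
  have hαcs : ∀ j, HasCompactSupport (α j) := fun j =>
    HasCompactSupport.of_support_subset_isCompact hCc fun x hx => by
      by_contra hxC
      exact hx (hαC j x hxC)
  have hint : ∫ x, (fderiv ℝ (α 0) x (EuclideanSpace.single 0 1) +
      fderiv ℝ (α 1) x (EuclideanSpace.single 1 1)) = 0 := by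
    have hi : ∀ j (v : E2), Integrable (fun x => fderiv ℝ (α j) x v) := by
      intro j v
      have hd : Continuous (fun x => fderiv ℝ (α j) x v) :=
        ((hαcd j).continuous_fderiv (by norm_num)).clm_apply continuous_const
      refine hd.integrable_of_hasCompactSupport ?_
      refine ((hαcs j).fderiv (𝕜 := ℝ)).mono ?_
      intro x hx
      simp only [Function.mem_support] at hx ⊢
      intro h0
      apply hx
      rw [h0]; rfl
    rw [integral_add (hi 0 _) (hi 1 _), integral_fderiv_eq_zero' (hαcd 0) (hαcs 0),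
      integral_fderiv_eq_zero' (hαcd 1) (hαcs 1), add_zero]
  have hg : ContinuousOn (fun q => dv B q / ‖∇ F q‖) W := by
    refine ContinuousOn.div ?_ h.continuousOn_gradient.norm
      fun q hq => norm_ne_zero_iff.2 (h.gradient_ne_zero hq)
    have h1 : Continuous (fun q => fderiv ℝ B q) := hB.continuous_fderiv (by norm_num)
    have h2 : Continuous (dv B) := by
      have : dv B = fun q => ⟪b 0, fderiv ℝ B q (b 0)⟫ + ⟪b 1, fderiv ℝ B q (b 1)⟫ +
          ⟪b 2, fderiv ℝ B q (b 2)⟫ := funext fun q => dv_eq_sum b B q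
      rw [this]
      fun_prop
    exact h2.continuousOn
  rw [h.integral_eq hg]
  have hVeq : ∀ x ∈ V, (‖∇ F (ψ x)‖ / fderiv ℝ F (ψ x) (b 2)) * (dv B (ψ x) / ‖∇ F (ψ x)‖) =
      fderiv ℝ (α 0) x (EuclideanSpace.single 0 1) +
      fderiv ℝ (α 1) x (EuclideanSpace.single 1 1) := by
    intro x hx
    have hloc : ∀ j, fderiv ℝ (α j) x =
        fderiv ℝ (fun y => ⟪b j, B (ψ y)⟫ / fderiv ℝ F (ψ y) (b 2)) x := by
      intro j
      apply Filter.EventuallyEq.fderiv_eq
      filter_upwards [h.isOpenV.mem_nhds hx] with y hy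
      simp only [α, indicator_of_mem hy]
    rw [hloc 0, hloc 1, h.sum_fderiv_beta hB horth hx]
    have h1 := norm_ne_zero_iff.2 (h.gradient_ne_zero (h.maps x hx))
    have h2 := (h.pos _ (h.maps x hx)).ne'
    field_simp
  rw [setIntegral_congr_fun h.isOpenV.measurableSet hVeq]
  rw [setIntegral_eq_integral_of_forall_compl_eq_zero, hint]
  intro x hx
  have hxC : x ∉ C := fun hxC => hx (hCV hxC)
  have hloc : ∀ j, fderiv ℝ (α j) x = 0 := by
    intro j
    have h1 : α j =ᶠ[𝓝 x] fun _ => (0:ℝ) := by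
      filter_upwards [hCc.isClosed.isOpen_compl.mem_nhds hxC] with y hy using hαC j y hy
    rw [h1.fderiv_eq]
    simp
  rw [hloc 0, hloc 1]
  simp

end Chart

end Pool.Agent.Helper82
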