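import Mathlib
import Pool.Agent.Helper82.Stokes

open MeasureTheory MeasureTheory.Measure Module Set Filter Topology
open scoped ENNReal NNReal Gradient RealInnerProductSpace

namespace Pool.Agent.Helper82

lemma dv_smul {g : E3 → ℝ} {Y : E3 → E3} {q : E3} (hg : DifferentiableAt ℝ g q)
    (hY : DifferentiableAt ℝ Y q) :
    dv (fun y => g y • Y y) q = g q * dv Y q + fderiv ℝ g q (Y q) := by
  have h1 : fderiv ℝ (fun y => g y • Y y) q =
      g q • fderiv ℝ Y q + (fderiv ℝ g q).smulRight (Y q) := fderiv_fun_smul hg hY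
  let b := EuclideanSpace.basisFun (Fin 3) ℝ
  rw [dv_eq_sum b, dv_eq_sum b, h1]
  have h2 : Y q = ⟪b 0, Y q⟫ • b 0 + ⟪b 1, Y q⟫ • b 1 + ⟪b 2, Y q⟫ • b 2 := by
    have := b.sum_repr' (Y q)
    rw [Fin.sum_univ_three] at this
    exact this.symm
  have h3 : fderiv ℝ g q (Y q) = ⟪b 0, Y q⟫ * fderiv ℝ g q (b 0) + ⟪b 1, Y q⟫ * fderiv ℝ g q (b 1)
      + ⟪b 2, Y q⟫ * fderiv ℝ g q (b 2) := by
    conv_lhs => rw [h2]
    simp only [map_add, map_smul, smul_eq_mul]
  rw [h3]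
  simp only [_root_.add_apply, _root_.smul_apply, ContinuousLinearMap.smulRight_apply,
    inner_add_right, inner_smul_right]
  ring

lemma dv_sub {Y Z : E3 → E3} {q : E3} (hY : DifferentiableAt ℝ Y q)
    (hZ : DifferentiableAt ℝ Z q) :
    dv (fun y => Y y - Z y) q = dv Y q - dv Z q := by
  have h1 : fderiv ℝ (fun y => Y y - Z y) q = fderiv ℝ Y q - fderiv ℝ Z q := fderiv_fun_sub hY hZ
  let b := EuclideanSpace.basisFun (Fin 3) ℝ
  rw [dv_eq_sum b, dv_eq_sum b, dv_eq_sum b, h1]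
  simp only [_root_.sub_apply, inner_sub_right]
  ring

lemma dv_congr {Y Z : E3 → E3} {q : E3} (h : Y =ᶠ[𝓝 q] Z) : dv Y q = dv Z q := by
  unfold dv
  rw [h.fderiv_eq]

section Pointwise

variable {F : E3 → ℝ} {q : E3}

lemma contDiffAt_gradient (hF : ContDiffAt ℝ 2 F q) : ContDiffAt ℝ 1 (∇ F) q := by
  have h3 : ContDiffAt ℝ 1 (fderiv ℝ F) q := hF.fderiv_right (by norm_num)
  exact (InnerProductSpace.toDual ℝ E3).symm.contDiff.contDiffAt.comp q h3

lemma inner_fderiv_gradient (hF : ContDiffAt ℝ 2 F q) (v u : E3) :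
    ⟪fderiv ℝ (∇ F) q v, u⟫ = fderiv ℝ (fderiv ℝ F) q v u := by
  have h3 : ContDiffAt ℝ 1 (fderiv ℝ F) q := hF.fderiv_right (by norm_num)
  have h4 : HasFDerivAt (fderiv ℝ F) (fderiv ℝ (fderiv ℝ F) q) q :=
    (h3.differentiableAt (by norm_num)).hasFDerivAt
  have h5 : HasFDerivAt (∇ F) (fderiv ℝ (∇ F) q) q :=
    ((contDiffAt_gradient hF).differentiableAt (by norm_num)).hasFDerivAt
  -- compare the derivatives of `y ↦ ⟪∇ F y, u⟫ = fderiv F y u`
  have h6 : HasFDerivAt (fun y => ⟪∇ F y, u⟫) ((innerSL ℝ u : E3 →L[ℝ] ℝ) ∘L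
      (fderiv ℝ (∇ F) q)) q := by
    have := (innerSL ℝ u : E3 →L[ℝ] ℝ).hasFDerivAt.comp q h5
    refine this.congr_of_eventuallyEq (Eventually.of_forall fun y => ?_)
    simp only [Function.comp_apply, innerSL_apply_apply]
    exact real_inner_comm _ _
  have h7 : HasFDerivAt (fun y => ⟪∇ F y, u⟫) ((fderiv ℝ (fderiv ℝ F) q).flip u) q := by
    have h8 := h4.clm_apply (hasFDerivAt_const u q)
    have h9 : (fun y => ⟪∇ F y, u⟫) = fun y => fderiv ℝ F y u := by
      funext y; rw [inner_gradient_left]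
    rw [h9]
    simpa using h8
  have h10 := congrArg (fun T : E3 →L[ℝ] ℝ => T v) (h6.unique h7)
  simp only [ContinuousLinearMap.comp_apply, innerSL_apply_apply,
    ContinuousLinearMap.flip_apply] at h10
  rw [real_inner_comm, h10]

lemma inner_fderiv_gradient_symm (hF : ContDiffAt ℝ 2 F q) (v u : E3) :
    ⟪fderiv ℝ (∇ F) q v, u⟫ = ⟪fderiv ℝ (∇ F) q u, v⟫ := by
  rw [inner_fderiv_gradient hF, inner_fderiv_gradient hF]
  exact hF.isSymmSndFDerivAt (by simp) v u

/-- The pointwise identity behind the first variation formula. -/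
lemma dv_tangential (hF : ContDiffAt ℝ 2 F q) (hG : ∇ F q ≠ 0) {w : E3 → ℝ}
    (hw : DifferentiableAt ℝ w q) {X : E3 → E3} (hX : DifferentiableAt ℝ X q)
    (hEL : dv (fun y => (w y * ‖∇ F y‖⁻¹) • ∇ F y) q = 0) :
    dv (fun y => (w y * ‖∇ F y‖) • X y - ⟪X y, ∇ F y⟫ • ((w y * ‖∇ F y‖⁻¹) • ∇ F y)) q =
      ‖∇ F q‖ * (w q * dv X q + fderiv ℝ w q (X q) -
        w q * ⟪fderiv ℝ X q (∇ F q), ∇ F q⟫ / ‖∇ F q‖ ^ 2) := by
  set G := ∇ F with hGdef
  have hn : ‖G q‖ ≠ 0 := norm_ne_zero_iff.2 hG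
  have hGd : DifferentiableAt ℝ G q := (contDiffAt_gradient hF).differentiableAt (by norm_num)
  have hnd : DifferentiableAt ℝ (fun y => ‖G y‖) q := hGd.norm ℝ hG
  have hninv : DifferentiableAt ℝ (fun y => ‖G y‖⁻¹) q := hnd.fun_inv hn
  have hwn : DifferentiableAt ℝ (fun y => w y * ‖G y‖) q := hw.fun_mul hnd
  have hwi : DifferentiableAt ℝ (fun y => w y * ‖G y‖⁻¹) q := hw.fun_mul hninv
  have hZ : DifferentiableAt ℝ (fun y => (w y * ‖G y‖⁻¹) • G y) q := hwi.fun_smul hGd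
  have hP : DifferentiableAt ℝ (fun y => ⟪X y, G y⟫) q := hX.inner ℝ hGd
  rw [dv_sub (hwn.fun_smul hX) (hP.fun_smul hZ), dv_smul hwn hX, dv_smul hP hZ, hEL, mul_zero,
    zero_add]
  -- derivative of the norm
  have hn1 : ∀ v, ‖G q‖ * fderiv ℝ (fun y => ‖G y‖) q v = ⟪fderiv ℝ G q v, G q⟫ := by
    intro v
    have h1 : HasFDerivAt (fun y => ‖G y‖ * ‖G y‖) _ q := hnd.hasFDerivAt.mul hnd.hasFDerivAt
    have h2 : HasFDerivAt (fun y => ⟪G y, G y⟫) _ q := hGd.hasFDerivAt.inner ℝ hGd.hasFDerivAt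
    have h3 : (fun y => ‖G y‖ * ‖G y‖) = fun y => ⟪G y, G y⟫ := by
      funext y; rw [real_inner_self_eq_norm_mul_norm]
    rw [h3] at h1
    have h4 := congrArg (fun T : E3 →L[ℝ] ℝ => T v) (h1.unique h2)
    simp only [_root_.add_apply, _root_.smul_apply, smul_eq_mul,
      ContinuousLinearMap.comp_apply, ContinuousLinearMap.prod_apply, fderivInnerCLM_apply] at h4
    rw [real_inner_comm (fderiv ℝ G q v) (G q)] at h4
    linarith
  have hwn' : ∀ v, fderiv ℝ (fun y => w y * ‖G y‖) q v =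
      w q * fderiv ℝ (fun y => ‖G y‖) q v + ‖G q‖ * fderiv ℝ w q v := by
    intro v
    rw [fderiv_fun_mul hw hnd]
    simp only [_root_.add_apply, _root_.smul_apply, smul_eq_mul]
  have hP' : ∀ v, fderiv ℝ (fun y => ⟪X y, G y⟫) q v =
      ⟪X q, fderiv ℝ G q v⟫ + ⟪fderiv ℝ X q v, G q⟫ := by
    intro v
    exact fderiv_inner_apply ℝ hX hGd v
  rw [hwn', hP']
  have h5 := hn1 (X q)
  have h6 : ⟪X q, fderiv ℝ G q (G q)⟫ = ⟪fderiv ℝ G q (X q), G q⟫ := by
    rw [real_inner_comm, inner_fderiv_gradient_symm hF]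
  simp only [map_smul, inner_smul_right, inner_smul_left]
  rw [h6]
  simp only [conj_trivial]
  set D := fderiv ℝ (fun y => ‖G y‖) q (X q) with hD
  set a := ⟪fderiv ℝ G q (X q), G q⟫ with ha
  set c := ⟪fderiv ℝ X q (G q), G q⟫ with hc
  set n := ‖G q‖ with hnn
  have h7 : D = a / n := by
    rw [eq_div_iff hn]; linarith
  rw [h7]
  field_simp
  ring

end Pointwise

variable {F : E3 → ℝ} {b : OrthonormalBasis (Fin 3) ℝ E3} {W : Set E3} {V : Set E2} {ψ : E2 → E3}

/-- **First variation formula in a chart**: `w`-weighted area, `X` compactly supported in `W`. -/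
theorem Chart.first_variation (h : Chart F b W V ψ) {w : E3 → ℝ} (hw : ContDiffOn ℝ 1 w W)
    (hEL : ∀ q ∈ W, F q = 0 → dv (fun y => (w y * ‖∇ F y‖⁻¹) • ∇ F y) q = 0)
    {X : E3 → E3} (hX : ContDiff ℝ 1 X) (hc : HasCompactSupport X) (hs : tsupport X ⊆ W) :
    ∫ q in {q | q ∈ W ∧ F q = 0}, (w q * dv X q + fderiv ℝ w q (X q) -
        w q * ⟪fderiv ℝ X q (∇ F q), ∇ F q⟫ / ‖∇ F q‖ ^ 2) ∂(μHE[2] : Measure E3) = 0 := by
  classical
  let B₀ : E3 → E3 := fun y =>
    (w y * ‖∇ F y‖) • X y - ⟪X y, ∇ F y⟫ • ((w y * ‖∇ F y‖⁻¹) • ∇ F y)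
  let B : E3 → E3 := W.indicator B₀
  have hXout : ∀ y, y ∉ tsupport X → B y = 0 := by
    intro y hy
    have hX0 : X y = 0 := image_eq_zero_of_notMem_tsupport hy
    by_cases hyW : y ∈ W
    · simp only [B, B₀, indicator_of_mem hyW, hX0, inner_zero_left, smul_zero, zero_smul, sub_zero]
    · simp only [B, indicator_of_notMem hyW]
  have hBev : ∀ y ∈ W, B =ᶠ[𝓝 y] B₀ := by
    intro y hy
    filter_upwards [h.isOpenW.mem_nhds hy] with z hz
    simp only [B, indicator_of_mem hz]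
  have hBcd : ContDiff ℝ 1 B := by
    rw [contDiff_iff_contDiffAt]
    intro y
    by_cases hy : y ∈ W
    · refine ContDiffAt.congr_of_eventuallyEq ?_ (hBev y hy)
      have hwy : ContDiffAt ℝ 1 w y := hw.contDiffAt (h.isOpenW.mem_nhds hy)
      have hG : ContDiffAt ℝ 1 (∇ F) y := contDiffAt_gradient (h.contDiffAt_F hy)
      have hn : ContDiffAt ℝ 1 (fun z => ‖∇ F z‖) y := hG.norm ℝ (h.gradient_ne_zero hy)
      have hni : ContDiffAt ℝ 1 (fun z => ‖∇ F z‖⁻¹) y :=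
        hn.inv (norm_ne_zero_iff.2 (h.gradient_ne_zero hy))
      have hXy : ContDiffAt ℝ 1 X y := hX.contDiffAt
      exact ((hwy.mul hn).smul hXy).sub ((hXy.inner ℝ hG).smul ((hwy.mul hni).smul hG))
    · have hy' : y ∉ tsupport X := fun hh => hy (hs hh)
      refine (contDiffAt_const (c := (0 : E3))).congr_of_eventuallyEq ?_
      filter_upwards [(isClosed_tsupport X).isOpen_compl.mem_nhds hy'] with z hz using hXout z hz
  have hsuppB : tsupport B ⊆ tsupport X := by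
    apply closure_minimal _ (isClosed_tsupport X)
    intro y hy
    by_contra hcon
    exact hy (hXout y hcon)
  have hBc : HasCompactSupport B := hc.of_isClosed_subset (isClosed_tsupport B) hsuppB
  have horth : ∀ q ∈ W, fderiv ℝ F q (B q) = 0 := by
    intro q hq
    have hn := norm_ne_zero_iff.2 (h.gradient_ne_zero hq)
    rw [← inner_gradient_left]
    simp only [B, B₀, indicator_of_mem hq, inner_sub_right, inner_smul_right,
      real_inner_self_eq_norm_mul_norm]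
    rw [real_inner_comm (X q) (∇ F q)]
    field_simp
    ring
  have hst := h.integral_dv_eq_zero hBcd horth hBc (hsuppB.trans hs)
  refine Eq.trans ?_ hst
  refine setIntegral_congr_fun h.measurableSet_level ?_
  rintro q ⟨hq, hq0⟩
  have hn := norm_ne_zero_iff.2 (h.gradient_ne_zero hq)
  have hwy : DifferentiableAt ℝ w q :=
    (hw.contDiffAt (h.isOpenW.mem_nhds hq)).differentiableAt (by norm_num)
  have h1 := dv_tangential (h.contDiffAt_F hq) (h.gradient_ne_zero hq) hwy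
    ((hX.differentiable (by norm_num)) q) (hEL q hq hq0)
  simp only
  rw [dv_congr (hBev q hq), h1]
  field_simp

end Pool.Agent.Helper82
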