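import Mathlib
import Pool.Agent.Helper82.FirstVariation

open MeasureTheory MeasureTheory.Measure Module Set Filter Topology
open scoped ENNReal NNReal Gradient RealInnerProductSpace Manifold ContDiff

namespace Pool.Agent.Helper82

/-- `S` is a (relatively closed, embedded, `C²`) surface in the open set `U`, critical for the
`w`-weighted area. -/
structure IsMinimalIn (w : E3 → ℝ) (U S : Set E3) : Prop where
  isOpen : IsOpen U
  contw : ContDiffOn ℝ 1 w U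
  subset : S ⊆ U
  closed : ∀ p ∈ U, p ∉ S → ∀ᶠ q in 𝓝 p, q ∉ S
  level : ∀ p ∈ S, ∃ (W : Set E3) (F : E3 → ℝ), IsOpen W ∧ p ∈ W ∧ W ⊆ U ∧ ContDiffOn ℝ 2 F W ∧
    (∀ q ∈ W, ∇ F q ≠ 0) ∧ (∀ q ∈ W, q ∈ S ↔ F q = 0) ∧
    ∀ q ∈ W, F q = 0 → dv (fun y => (w y * ‖∇ F y‖⁻¹) • ∇ F y) q = 0

lemma exists_basis {u : E3} (hu : ‖u‖ = 1) : ∃ b : OrthonormalBasis (Fin 3) ℝ E3, b 2 = u := by
  have hv : Orthonormal ℝ (({2} : Set (Fin 3)).domRestrict (fun _ => u)) := by
    constructor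
    · intro i; simpa using hu
    · intro i j hij
      exact absurd (Subtype.ext (i.2.trans j.2.symm)) hij
  obtain ⟨b, hb⟩ := hv.exists_orthonormalBasis_extension_of_card_eq (by simp)
  exact ⟨b, hb 2 rfl⟩

lemma exists_basis_pos {F : E3 → ℝ} {p : E3} (h : ∇ F p ≠ 0) :
    ∃ b : OrthonormalBasis (Fin 3) ℝ E3, 0 < fderiv ℝ F p (b 2) := by
  have hn : ‖∇ F p‖ ≠ 0 := norm_ne_zero_iff.2 h
  obtain ⟨b, hb⟩ := exists_basis (u := ‖∇ F p‖⁻¹ • ∇ F p) (by
    rw [norm_smul, norm_inv, norm_norm, inv_mul_cancel₀ hn])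
  refine ⟨b, ?_⟩
  rw [hb, ← inner_gradient_left, inner_smul_right, real_inner_self_eq_norm_mul_norm,
    ← mul_assoc, inv_mul_cancel₀ hn, one_mul]
  positivity

/-- Local chart data adapted to a weighted-minimal surface. -/
structure GoodChart (w : E3 → ℝ) (U S : Set E3) (F : E3 → ℝ)
    (b : OrthonormalBasis (Fin 3) ℝ E3) (W : Set E3) (V : Set E2) (ψ : E2 → E3) : Prop where
  chart : Chart F b W V ψ
  subU : W ⊆ U
  mem_iff : ∀ q ∈ W, q ∈ S ↔ F q = 0
  el : ∀ q ∈ W, F q = 0 → dv (fun y => (w y * ‖∇ F y‖⁻¹) • ∇ F y) q = 0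

variable {w : E3 → ℝ} {U S : Set E3}

lemma IsMinimalIn.exists_goodChart (hS : IsMinimalIn w U S) {p : E3} (hp : p ∈ S) :
    ∃ F b W V ψ, p ∈ W ∧ GoodChart w U S F b W V ψ := by
  obtain ⟨W, F, hWo, hpW, hWU, hF, hG, hmem, hel⟩ := hS.level p hp
  obtain ⟨b, hb⟩ := exists_basis_pos (hG p hpW)
  obtain ⟨W', V, ψ, hpW', hW'W, hch⟩ := exists_chart hWo hF hpW hb
  exact ⟨F, b, W', V, ψ, hpW', hch, hW'W.trans hWU, fun q hq => hmem q (hW'W hq),
    fun q hq => hel q (hW'W hq)⟩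

/-- Two local defining functions have proportional gradients. -/
lemma Chart.gradient_parallel {F : E3 → ℝ} {b : OrthonormalBasis (Fin 3) ℝ E3} {W : Set E3}
    {V : Set E2} {ψ : E2 → E3} (h : Chart F b W V ψ) (hmem : ∀ q ∈ W, q ∈ S ↔ F q = 0)
    {q : E3} (hq : q ∈ W) (hqS : q ∈ S)
    {F' : E3 → ℝ} (hF' : DifferentiableAt ℝ F' q) (h' : ∀ᶠ y in 𝓝 q, y ∈ S → F' y = 0) :
    ∃ c : ℝ, ∇ F' q = c • ∇ F q := by
  have hF0 := (hmem q hq).1 hqS
  obtain ⟨hxV, hψx⟩ := h.surj q hq hF0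
  set x := projL b q with hx
  have hpos := h.pos q hq
  refine ⟨fderiv ℝ F' q (b 2) / fderiv ℝ F q (b 2), ?_⟩
  have hzero : ∀ v : E2, fderiv ℝ F' q (fderiv ℝ ψ x v) = 0 := by
    intro v
    have h1 : HasFDerivAt (fun y => F' (ψ y)) ((fderiv ℝ F' q) ∘L (fderiv ℝ ψ x)) x := by
      have : HasFDerivAt F' (fderiv ℝ F' q) (ψ x) := by rw [hψx]; exact hF'.hasFDerivAt
      exact this.comp x (h.hasFDerivAt_ψ hxV)
    have hcont : ContinuousAt ψ x := (h.hasFDerivAt_ψ hxV).continuousAt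
    have h2 : (fun y => F' (ψ y)) =ᶠ[𝓝 x] fun _ => (0:ℝ) := by
      have h3 : ∀ᶠ y in 𝓝 x, ψ y ∈ S → F' (ψ y) = 0 := by
        have : Tendsto ψ (𝓝 x) (𝓝 q) := by rw [← hψx]; exact hcont
        exact this.eventually h'
      filter_upwards [h3, h.isOpenV.mem_nhds hxV] with y hy hyV
      exact hy ((hmem _ (h.maps y hyV)).2 (h.zero y hyV))
    have h3 := (h1.congr_of_eventuallyEq h2.symm).unique (hasFDerivAt_const (0:ℝ) x)
    exact congrArg (fun L : E2 →L[ℝ] ℝ => L v) h3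
  have hj : ∀ j : Fin 2, fderiv ℝ F' q (b j.castSucc) =
      fderiv ℝ F' q (b 2) / fderiv ℝ F q (b 2) * fderiv ℝ F q (b j.castSucc) := by
    intro j
    have h1 := hzero (EuclideanSpace.single j 1)
    rw [h.fderiv_single hxV j, hψx, map_sub, map_smul, smul_eq_mul, sub_eq_zero] at h1
    rw [h1]
    ring
  apply InnerProductSpace.ext_inner_right_basis b.toBasis
  intro i
  rw [b.coe_toBasis, inner_gradient_left, inner_smul_left, inner_gradient_left]
  simp only [conj_trivial]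
  fin_cases i
  · exact hj 0
  · exact hj 1
  · exact (div_mul_cancel₀ _ hpos.ne').symm

open Classical in
/-- A unit normal field along `S` (with an arbitrary choice of sign at every point). -/
noncomputable def IsMinimalIn.normal (hS : IsMinimalIn w U S) (p : E3) : E3 :=
  if hp : p ∈ S then
    ‖∇ (hS.exists_goodChart hp).choose p‖⁻¹ • ∇ (hS.exists_goodChart hp).choose p
  else 0

lemma IsMinimalIn.normal_spec (hS : IsMinimalIn w U S) {F : E3 → ℝ}
    {b : OrthonormalBasis (Fin 3) ℝ E3} {W : Set E3} {V : Set E2} {ψ : E2 → E3}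
    (h : GoodChart w U S F b W V ψ) {q : E3} (hq : q ∈ W) (hqS : q ∈ S) :
    ‖hS.normal q‖ = 1 ∧ ∃ c : ℝ, ∇ F q = c • hS.normal q := by
  obtain ⟨b', W', V', ψ', hqW', h'⟩ := (hS.exists_goodChart hqS).choose_spec
  have hN : hS.normal q =
      ‖∇ (hS.exists_goodChart hqS).choose q‖⁻¹ • ∇ (hS.exists_goodChart hqS).choose q := by
    simp only [IsMinimalIn.normal, dif_pos hqS]
  set F' := (hS.exists_goodChart hqS).choose with hF'
  have hne : ‖∇ F' q‖ ≠ 0 := norm_ne_zero_iff.2 (h'.chart.gradient_ne_zero hqW')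
  refine ⟨?_, ?_⟩
  · rw [hN, norm_smul, norm_inv, norm_norm, inv_mul_cancel₀ hne]
  · have hFd : DifferentiableAt ℝ F q := (h.chart.contDiffAt_F hq).differentiableAt (by norm_num)
    obtain ⟨c, hc⟩ := h'.chart.gradient_parallel h'.mem_iff hqW' hqS hFd (by
      filter_upwards [h.chart.isOpenW.mem_nhds hq] with y hy hyS
      exact (h.mem_iff y hy).1 hyS)
    refine ⟨c * ‖∇ F' q‖, ?_⟩
    rw [hc, hN, mul_smul, smul_inv_smul₀ hne]

lemma IsMinimalIn.normal_quad (hS : IsMinimalIn w U S) {F : E3 → ℝ}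
    {b : OrthonormalBasis (Fin 3) ℝ E3} {W : Set E3} {V : Set E2} {ψ : E2 → E3}
    (h : GoodChart w U S F b W V ψ) {q : E3} (hq : q ∈ W) (hqS : q ∈ S) (T : E3 →L[ℝ] E3) :
    ⟪T (∇ F q), ∇ F q⟫ / ‖∇ F q‖ ^ 2 = ⟪T (hS.normal q), hS.normal q⟫ := by
  obtain ⟨h1, c, hc⟩ := hS.normal_spec h hq hqS
  have hne := h.chart.gradient_ne_zero hq
  have hc0 : c ≠ 0 := by
    rintro rfl
    rw [zero_smul] at hc
    exact hne hc
  rw [hc, norm_smul, h1, map_smul, inner_smul_left, inner_smul_right]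
  simp only [conj_trivial, Real.norm_eq_abs, mul_one, sq_abs]
  field_simp

/-- The first variation integrand. -/
noncomputable def FV (w : E3 → ℝ) (N : E3 → E3) (X : E3 → E3) (q : E3) : ℝ :=
  w q * dv X q + fderiv ℝ w q (X q) - w q * ⟪fderiv ℝ X q (N q), N q⟫

lemma IsMinimalIn.first_variation_local (hS : IsMinimalIn w U S) {F : E3 → ℝ}
    {b : OrthonormalBasis (Fin 3) ℝ E3} {W : Set E3} {V : Set E2} {ψ : E2 → E3}
    (h : GoodChart w U S F b W V ψ) {X : E3 → E3} (hX : ContDiff ℝ 1 X)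
    (hc : HasCompactSupport X) (hs : tsupport X ⊆ W) :
    ∫ q in {q | q ∈ W ∧ F q = 0}, FV w hS.normal X q ∂(μHE[2] : Measure E3) = 0 := by
  have hst := h.chart.first_variation (hS.contw.mono h.subU) h.el hX hc hs
  refine Eq.trans ?_ hst
  refine setIntegral_congr_fun h.chart.measurableSet_level ?_
  rintro q ⟨hq, hq0⟩
  have h1 := hS.normal_quad h hq ((h.mem_iff q hq).2 hq0) (fderiv ℝ X q)
  simp only [FV]
  rw [← h1]
  ring

end Pool.Agent.Helper82
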