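import Mathlib
import Pool.Agent.Helper82.Surface

open MeasureTheory MeasureTheory.Measure Module Set Filter Topology
open scoped ENNReal NNReal Gradient RealInnerProductSpace Manifold ContDiff

namespace Pool.Agent.Helper82

variable {w : E3 → ℝ} {U S : Set E3}

lemma Chart.measure_lt_top {F : E3 → ℝ} {b : OrthonormalBasis (Fin 3) ℝ E3} {W : Set E3}
    {V : Set E2} {ψ : E2 → E3} (h : Chart F b W V ψ) {K : Set E3} (hK : IsCompact K)
    (hKW : K ⊆ W) : (μHE[2] : Measure E3) ({q | q ∈ W ∧ F q = 0} ∩ K) < ⊤ := by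
  have hK0 : IsCompact (K ∩ F ⁻¹' {0}) := by
    have h2 : IsClosed (K ∩ F ⁻¹' {0}) :=
      (h.contF.continuousOn.mono hKW).preimage_isClosed_of_isClosed hK.isClosed
        isClosed_singleton
    exact hK.of_isClosed_subset h2 inter_subset_left
  set C : Set E2 := projL b '' (K ∩ F ⁻¹' {0}) with hC
  have hCc : IsCompact C := hK0.image (projL b).continuous
  have hCV : C ⊆ V := by
    rintro _ ⟨q, ⟨hq, hq0⟩, rfl⟩
    exact (h.surj q (hKW hq) hq0).1
  have hsub : {q | q ∈ W ∧ F q = 0} ∩ K ⊆ ψ '' C := by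
    rintro q ⟨⟨hqW, hq0⟩, hqK⟩
    exact ⟨projL b q, ⟨q, ⟨hqK, hq0⟩, rfl⟩, (h.surj q hqW hq0).2⟩
  refine (measure_mono hsub).trans_lt ?_
  have h1 := area_formula (U := E2) (V := E3) (f := ψ) (f' := fderiv ℝ ψ) (s := V)
    (fun x hx => h.hasStrictFDerivAt_ψ hx) h.continuousOn_normDet h.injOn
    (fun x hx => h.injective_fderiv hx) hCV hCc.measurableSet
  have h2 : finrank ℝ E2 = 2 := by simp
  rw [h2] at h1
  rw [h1]
  have h3 : IntegrableOn (fun x => (fderiv ℝ ψ x : E2 →ₗ[ℝ] E3).normDet) C :=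
    (h.continuousOn_normDet.mono hCV).integrableOn_compact hCc
  exact h3.lintegral_lt_top

namespace IsMinimalIn

lemma isOpen_diff (hS : IsMinimalIn w U S) : IsOpen (U \ S) := by
  rw [isOpen_iff_mem_nhds]
  rintro p ⟨hpU, hpS⟩
  filter_upwards [hS.isOpen.mem_nhds hpU, hS.closed p hpU hpS] with q h1 h2 using ⟨h1, h2⟩

lemma measurableSet (hS : IsMinimalIn w U S) : MeasurableSet S := by
  have : S = U \ (U \ S) := by
    rw [sdiff_sdiff_right_self]
    exact (inter_eq_right.2 hS.subset).symm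
  rw [this]
  exact hS.isOpen.measurableSet.diff hS.isOpen_diff.measurableSet

lemma measure_lt_top (hS : IsMinimalIn w U S) {K : Set E3} (hK : IsCompact K) (hKU : K ⊆ U) :
    (μHE[2] : Measure E3) (S ∩ K) < ⊤ := by
  have h1 : ((μHE[2] : Measure E3).restrict S) K < ⊤ := by
    apply hK.measure_lt_top_of_nhdsWithin
    intro p hp
    by_cases hpS : p ∈ S
    · obtain ⟨F, b, W, V, ψ, hpW, h⟩ := hS.exists_goodChart hpS
      obtain ⟨K', hK'n, hK'W, hK'c⟩ := local_compact_nhds (h.chart.isOpenW.mem_nhds hpW)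
      refine ⟨K', mem_nhdsWithin_of_mem_nhds hK'n, ?_⟩
      rw [Measure.restrict_apply hK'c.measurableSet]
      refine (measure_mono ?_).trans_lt (h.chart.measure_lt_top hK'c hK'W)
      rintro q ⟨hqK, hqS⟩
      exact ⟨⟨hK'W hqK, (h.mem_iff q (hK'W hqK)).1 hqS⟩, hqK⟩
    · have := hS.closed p (hKU hp) hpS
      refine ⟨Sᶜ, mem_nhdsWithin_of_mem_nhds this, ?_⟩
      rw [Measure.restrict_apply hS.measurableSet.compl, compl_inter_self, measure_empty]
      exact ENNReal.zero_lt_top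
  rwa [Measure.restrict_apply hK.measurableSet, inter_comm] at h1

lemma isCompact_inter (hS : IsMinimalIn w U S) {K : Set E3} (hK : IsCompact K) (hKU : K ⊆ U) :
    IsCompact (S ∩ K) := by
  have : S ∩ K = K ∩ (U \ S)ᶜ := by
    ext q
    simp only [mem_inter_iff, mem_compl_iff, Set.mem_sdiff, not_and, not_not]
    constructor
    · rintro ⟨h1, h2⟩; exact ⟨h2, fun _ => h1⟩
    · rintro ⟨h1, h2⟩; exact ⟨h2 (hKU h1), h1⟩
  rw [this]
  exact hK.inter_right hS.isOpen_diff.isClosed_compl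

lemma integrableOn (hS : IsMinimalIn w U S) {g : E3 → ℝ} (hg : ContinuousOn g S)
    {K : Set E3} (hK : IsCompact K) (hKU : K ⊆ U) (h0 : ∀ q ∈ S, q ∉ K → g q = 0) :
    IntegrableOn g S (μHE[2] : Measure E3) := by
  have hcomp := hS.isCompact_inter hK hKU
  have h1 : IntegrableOn g (S ∩ K) (μHE[2] : Measure E3) := by
    obtain ⟨C, hC⟩ := hcomp.exists_bound_of_continuousOn (hg.mono inter_subset_left)
    refine ⟨(hg.mono inter_subset_left).aestronglyMeasurable hcomp.measurableSet,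
      .restrict_of_bounded (C := C) (hS.measure_lt_top hK hKU) ?_⟩
    rw [ae_restrict_iff' hcomp.measurableSet]
    exact ae_of_all _ fun q hq => hC q hq
  refine h1.of_forall_sdiff_eq_zero hS.measurableSet ?_
  rintro q ⟨hq, hq'⟩
  exact h0 q hq fun hqK => hq' ⟨hq, hqK⟩

lemma continuousOn_quad (hS : IsMinimalIn w U S) {T : E3 → E3 →L[ℝ] E3} (hT : ContinuousOn T U) :
    ContinuousOn (fun q => ⟪T q (hS.normal q), hS.normal q⟫) S := by
  intro q hqS
  obtain ⟨F, b, W, V, ψ, hqW, h⟩ := hS.exists_goodChart hqS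
  have hcont : ContinuousAt (fun y => ⟪T y (∇ F y), ∇ F y⟫ / ‖∇ F y‖ ^ 2) q := by
    have h1 : ContinuousAt (∇ F) q :=
      h.chart.continuousOn_gradient.continuousAt (h.chart.isOpenW.mem_nhds hqW)
    have h2 : ContinuousAt T q := hT.continuousAt (hS.isOpen.mem_nhds (hS.subset hqS))
    refine ContinuousAt.div ((h2.clm_apply h1).inner h1) (h1.norm.pow 2) ?_
    exact pow_ne_zero _ (norm_ne_zero_iff.2 (h.chart.gradient_ne_zero hqW))
  refine hcont.continuousWithinAt.congr_of_eventuallyEq ?_ ?_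
  · have : ∀ᶠ y in 𝓝[S] q, y ∈ W := mem_nhdsWithin_of_mem_nhds (h.chart.isOpenW.mem_nhds hqW)
    filter_upwards [this, self_mem_nhdsWithin] with y hyW hyS
    exact (hS.normal_quad h hyW hyS (T y)).symm
  · exact (hS.normal_quad h hqW hqS (T q)).symm

lemma norm_normal (hS : IsMinimalIn w U S) {q : E3} (hqS : q ∈ S) : ‖hS.normal q‖ = 1 := by
  obtain ⟨F, b, W, V, ψ, hqW, h⟩ := hS.exists_goodChart hqS
  exact (hS.normal_spec h hqW hqS).1

lemma continuousOn_FV (hS : IsMinimalIn w U S) {X : E3 → E3} (hX : ContDiff ℝ 1 X) :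
    ContinuousOn (FV w hS.normal X) S := by
  have hwc : ContinuousOn w S := hS.contw.continuousOn.mono hS.subset
  have hdw : ContinuousOn (fderiv ℝ w) S :=
    (hS.contw.continuousOn_fderiv_of_isOpen hS.isOpen (by norm_num)).mono hS.subset
  have hdX : Continuous (fderiv ℝ X) := hX.continuous_fderiv (by norm_num)
  have hdv : Continuous (dv X) := by
    let b := EuclideanSpace.basisFun (Fin 3) ℝ
    have : dv X = fun q => ⟪b 0, fderiv ℝ X q (b 0)⟫ + ⟪b 1, fderiv ℝ X q (b 1)⟫ +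
        ⟪b 2, fderiv ℝ X q (b 2)⟫ := funext fun q => dv_eq_sum b X q
    rw [this]
    fun_prop
  unfold FV
  refine ((hwc.mul hdv.continuousOn).add (hdw.clm_apply hX.continuous.continuousOn)).sub ?_
  exact hwc.mul (hS.continuousOn_quad hdX.continuousOn)

lemma FV_eq_zero {N X : E3 → E3} {q : E3} (hq : q ∉ tsupport X) : FV w N X q = 0 := by
  have h1 : X =ᶠ[𝓝 q] fun _ => 0 := by
    filter_upwards [(isClosed_tsupport X).isOpen_compl.mem_nhds hq] with y hy
    exact image_eq_zero_of_notMem_tsupport hy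
  have h2 : fderiv ℝ X q = 0 := by rw [h1.fderiv_eq]; simp
  have h3 : X q = 0 := h1.self_of_nhds
  simp [FV, dv, h2, h3]

lemma integrableOn_FV (hS : IsMinimalIn w U S) {X : E3 → E3} (hX : ContDiff ℝ 1 X)
    (hc : HasCompactSupport X) (hs : tsupport X ⊆ U) :
    IntegrableOn (FV w hS.normal X) S (μHE[2] : Measure E3) :=
  hS.integrableOn (hS.continuousOn_FV hX) hc.isCompact hs fun _ _ hq => FV_eq_zero hq

lemma FV_sum {ι : Type*} (s : Finset ι) (N : E3 → E3) (X : ι → E3 → E3)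
    (hX : ∀ i ∈ s, ContDiff ℝ 1 (X i)) (q : E3) :
    FV w N (fun y => ∑ i ∈ s, X i y) q = ∑ i ∈ s, FV w N (X i) q := by
  have h1 : fderiv ℝ (fun y => ∑ i ∈ s, X i y) q = ∑ i ∈ s, fderiv ℝ (X i) q :=
    fderiv_fun_sum fun i hi => ((hX i hi).differentiable (by norm_num)) q
  let b := EuclideanSpace.basisFun (Fin 3) ℝ
  simp only [FV, dv_eq_sum b, h1, _root_.sum_apply, inner_sum, sum_inner, _root_.map_sum,
    Finset.mul_sum, Finset.sum_add_distrib, Finset.sum_sub_distrib, mul_add]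

/-- **First variation formula** for a weighted-minimal surface. -/
theorem first_variation (hS : IsMinimalIn w U S) {X : E3 → E3} (hX : ContDiff ℝ 1 X)
    (hc : HasCompactSupport X) (hs : tsupport X ⊆ U) :
    ∫ q in S, FV w hS.normal X q ∂(μHE[2] : Measure E3) = 0 := by
  classical
  -- good neighbourhoods
  have hnb : ∀ p ∈ tsupport X, ∃ O : Set E3, IsOpen O ∧ p ∈ O ∧
      ∀ Y : E3 → E3, ContDiff ℝ 1 Y → HasCompactSupport Y → tsupport Y ⊆ O →
        ∫ q in S, FV w hS.normal Y q ∂(μHE[2] : Measure E3) = 0 := by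
    intro p hp
    by_cases hpS : p ∈ S
    · obtain ⟨F, b, W, V, ψ, hpW, h⟩ := hS.exists_goodChart hpS
      refine ⟨W, h.chart.isOpenW, hpW, fun Y hY hYc hYs => ?_⟩
      have h1 := hS.first_variation_local h hY hYc hYs
      refine Eq.trans ?_ h1
      have hsub : {q | q ∈ W ∧ F q = 0} ⊆ S := fun q hq => (h.mem_iff q hq.1).2 hq.2
      apply setIntegral_eq_of_subset_of_forall_sdiff_eq_zero hS.measurableSet hsub
      rintro q ⟨hqS, hq⟩
      apply FV_eq_zero
      intro hqY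
      exact hq ⟨hYs hqY, (h.mem_iff q (hYs hqY)).1 hqS⟩
    · refine ⟨U \ S, hS.isOpen_diff, ⟨hs hp, hpS⟩, fun Y hY hYc hYs => ?_⟩
      have : ∀ q ∈ S, FV w hS.normal Y q = 0 := fun q hq => FV_eq_zero fun hqY => (hYs hqY).2 hq
      rw [setIntegral_congr_fun hS.measurableSet this]
      simp
  choose! O hOo hpO hO using hnb
  obtain ⟨t, ht, hcov⟩ := hc.isCompact.elim_nhds_subcover O fun p hp => (hOo p hp).mem_nhds (hpO p hp)
  have hcov' : tsupport X ⊆ ⋃ i : t, O i := by
    intro q hq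
    have := hcov hq
    simp only [mem_iUnion] at this ⊢
    obtain ⟨p, hp, hqp⟩ := this
    exact ⟨⟨p, hp⟩, hqp⟩
  obtain ⟨f, hf⟩ := SmoothPartitionOfUnity.exists_isSubordinate (I := 𝓘(ℝ, E3))
    (isClosed_tsupport X) (fun i : t => O i) (fun i => hOo i (ht i i.2)) hcov'
  have hfs : ∀ i, ContDiff ℝ 1 (fun y => f i y) := fun i =>
    (f i).contMDiff.contDiff.of_le (by exact_mod_cast le_top)
  let Y : t → E3 → E3 := fun i y => f i y • X y
  have hY : ∀ i, ContDiff ℝ 1 (Y i) := fun i => (hfs i).smul hX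
  have hYsupp : ∀ i, tsupport (Y i) ⊆ O i := fun i =>
    (tsupport_smul_subset_left (fun y => f i y) X).trans (hf i)
  have hYc : ∀ i, HasCompactSupport (Y i) := fun i => hc.smul_left (f := fun y => f i y)
  have hXsum : X = fun y => ∑ i : t, Y i y := by
    funext y
    by_cases hy : y ∈ tsupport X
    · have h1 := f.sum_eq_one hy
      rw [finsum_eq_sum_of_fintype] at h1
      simp only [Y]
      rw [← Finset.sum_smul, h1, one_smul]
    · have hX0 : X y = 0 := image_eq_zero_of_notMem_tsupport hy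
      simp only [Y, hX0, smul_zero, Finset.sum_const_zero]
  have hYU : ∀ i, tsupport (Y i) ⊆ U := fun i =>
    (tsupport_smul_subset_right (fun y => f i y) X).trans hs
  have hFV : ∀ q, FV w hS.normal X q = ∑ i : t, FV w hS.normal (Y i) q := by
    intro q
    conv_lhs => rw [hXsum]
    exact FV_sum Finset.univ _ _ (fun i _ => hY i) q
  simp_rw [hFV]
  rw [integral_finsetSum _ fun i _ => hS.integrableOn_FV (hY i) (hYc i) (hYU i)]
  exact Finset.sum_eq_zero fun i _ => hO i (ht i i.2) (Y i) (hY i) (hYc i) (hYsupp i)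

end IsMinimalIn

end Pool.Agent.Helper82
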