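import Mathlib
import Pool.Agent.Helper82.Global

/-!
# The upper half-space model of hyperbolic 3-space and its isometries
-/

open MeasureTheory MeasureTheory.Measure Module Set Filter Topology
open scoped ENNReal NNReal Gradient RealInnerProductSpace ContDiff

namespace Pool.Agent.Helper82

lemma mem_HIsom {γ : Equiv.Perm H3} : γ ∈ HIsom ↔ ∀ p q, coshDist (γ p) (γ q) = coshDist p q :=
  Iff.rfl

lemma coshDist_comm (p q : H3) : coshDist p q = coshDist q p := by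
  unfold coshDist
  rw [dist_comm]
  ring

lemma one_le_coshDist (p q : H3) : 1 ≤ coshDist p q := by
  unfold coshDist
  have h1 := p.2
  have h2 := q.2
  have : 0 ≤ dist (p : E3) q ^ 2 / (2 * (p : E3) 2 * (q : E3) 2) := by positivity
  linarith

lemma coshDist_self (p : H3) : coshDist p p = 1 := by
  simp [coshDist]

lemma eq_of_coshDist_eq_one {p q : H3} (h : coshDist p q = 1) : p = q := by
  unfold coshDist at h
  have h1 := p.2
  have h2 := q.2
  have h3 : dist (p : E3) q ^ 2 / (2 * (p : E3) 2 * (q : E3) 2) = 0 := by linarith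
  rw [div_eq_zero_iff] at h3
  rcases h3 with h3 | h3
  · exact Subtype.ext (dist_eq_zero.1 (pow_eq_zero_iff (two_ne_zero) |>.1 h3))
  · have : 0 < 2 * (p : E3) 2 * (q : E3) 2 := by positivity
    exact absurd h3 this.ne'

lemma dist_sq_eq (p q : E3) :
    dist p q ^ 2 = (p 0 - q 0) ^ 2 + (p 1 - q 1) ^ 2 + (p 2 - q 2) ^ 2 := by
  rw [EuclideanSpace.dist_eq, Real.sq_sqrt (by positivity), Fin.sum_univ_three,
    Real.dist_eq, Real.dist_eq, Real.dist_eq, sq_abs, sq_abs, sq_abs]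

lemma norm_sq_eq (p : E3) : ‖p‖ ^ 2 = p 0 ^ 2 + p 1 ^ 2 + p 2 ^ 2 := by
  rw [EuclideanSpace.norm_eq, Real.sq_sqrt (by positivity), Fin.sum_univ_three]
  simp

lemma coshDist_mul (p q : H3) : coshDist p q * (2 * (p : E3) 2 * (q : E3) 2) =
    ((p : E3) 0 - (q : E3) 0) ^ 2 + ((p : E3) 1 - (q : E3) 1) ^ 2 +
      (p : E3) 2 ^ 2 + (q : E3) 2 ^ 2 := by
  have h1 := p.2
  have h2 := q.2
  unfold coshDist
  rw [dist_sq_eq]
  field_simp
  ring

lemma coshDist_eq (p q : H3) : coshDist p q =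
    (((p : E3) 0 - (q : E3) 0) ^ 2 + ((p : E3) 1 - (q : E3) 1) ^ 2 +
      (p : E3) 2 ^ 2 + (q : E3) 2 ^ 2) / (2 * (p : E3) 2 * (q : E3) 2) := by
  have h1 := p.2
  have h2 := q.2
  rw [eq_div_iff (by positivity), coshDist_mul]

/-- Harnack-type inequality (`cosh (a + b) ≤ 2 cosh a cosh b`). -/
lemma coshDist_le (p o q : H3) : coshDist p q ≤ 2 * coshDist p o * coshDist o q := by
  have h1 := p.2
  have h2 := q.2
  have h3 := o.2
  rw [coshDist_eq p q, coshDist_eq p o, coshDist_eq o q]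
  generalize (p : E3) 0 = a0 at *
  generalize (p : E3) 1 = a1 at *
  generalize (p : E3) 2 = a2 at *
  generalize (q : E3) 0 = c0 at *
  generalize (q : E3) 1 = c1 at *
  generalize (q : E3) 2 = c2 at *
  generalize (o : E3) 0 = b0 at *
  generalize (o : E3) 1 = b1 at *
  generalize (o : E3) 2 = b2 at *
  have e : 2 * (((a0 - b0) ^ 2 + (a1 - b1) ^ 2 + a2 ^ 2 + b2 ^ 2) / (2 * a2 * b2)) *
      (((b0 - c0) ^ 2 + (b1 - c1) ^ 2 + b2 ^ 2 + c2 ^ 2) / (2 * b2 * c2)) =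
      ((((a0 - b0) ^ 2 + (a1 - b1) ^ 2 + a2 ^ 2 + b2 ^ 2) *
        ((b0 - c0) ^ 2 + (b1 - c1) ^ 2 + b2 ^ 2 + c2 ^ 2)) / b2 ^ 2) / (2 * a2 * c2) := by
    field_simp
  rw [e]
  refine div_le_div_of_nonneg_right ?_ (by positivity)
  rw [le_div_iff₀ (by positivity)]
  nlinarith [sq_nonneg ((a0 - b0) * (b0 - c0) + (a1 - b1) * (b1 - c1) - b2 ^ 2),
    sq_nonneg ((a0 - b0) * (b1 - c1) - (a1 - b1) * (b0 - c0)),
    mul_nonneg (sq_nonneg a2) (sq_nonneg (b0 - c0)), mul_nonneg (sq_nonneg a2) (sq_nonneg (b1 - c1)),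
    mul_nonneg (sq_nonneg c2) (sq_nonneg (a0 - b0)), mul_nonneg (sq_nonneg c2) (sq_nonneg (a1 - b1)),
    mul_nonneg (sq_nonneg a2) (sq_nonneg c2)]

lemma height_le (p q : H3) : (p : E3) 2 ≤ 2 * coshDist p q * (q : E3) 2 := by
  have h1 := p.2
  have h2 := q.2
  have h := coshDist_mul p q
  have h3 : (p : E3) 2 * (p : E3) 2 ≤ (2 * coshDist p q * (q : E3) 2) * (p : E3) 2 := by
    nlinarith [sq_nonneg ((p : E3) 0 - (q : E3) 0), sq_nonneg ((p : E3) 1 - (q : E3) 1),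
      sq_nonneg ((q : E3) 2)]
  exact le_of_mul_le_mul_right h3 h1

end Pool.Agent.Helper82
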