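import Mathlib
import Pool.Agent.Helper82.Hyp

/-!
# Isometries of hyperbolic 3-space are smooth and conformal
-/

open MeasureTheory MeasureTheory.Measure Module Set Filter Topology
open scoped ENNReal NNReal Gradient RealInnerProductSpace ContDiff

namespace Pool.Agent.Helper82

/-- The open half-space as a subset of Euclidean space. -/
def UH : Set E3 := {q | 0 < q 2}

lemma isOpen_UH : IsOpen UH := isOpen_lt continuous_const (by fun_prop)

/-- Extension of a self-map of upper half-space to Euclidean space. -/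
noncomputable def ext (γ : Equiv.Perm H3) (q : E3) : E3 :=
  if h : 0 < q 2 then (γ ⟨q, h⟩ : E3) else q

lemma ext_coe (γ : Equiv.Perm H3) (q : H3) : ext γ q = (γ q : E3) := by
  have h : 0 < (q : E3) 2 := q.2
  simp only [ext, dif_pos h]

/-- The conformal factor. -/
noncomputable def cf (γ : Equiv.Perm H3) (q : E3) : ℝ := (ext γ q) 2 / q 2

lemma cf_pos (γ : Equiv.Perm H3) (q : H3) : 0 < cf γ q := by
  unfold cf
  rw [ext_coe]
  exact div_pos (γ q).2 q.2

lemma cf_mul (γ : Equiv.Perm H3) (q : H3) : cf γ q * (q : E3) 2 = (γ q : E3) 2 := by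
  unfold cf
  rw [ext_coe]
  exact div_mul_cancel₀ _ q.2.ne'

lemma dist_sq_map {γ : Equiv.Perm H3} (hγ : γ ∈ HIsom) (p q : H3) :
    dist (γ p : E3) (γ q) ^ 2 = cf γ p * cf γ q * dist (p : E3) q ^ 2 := by
  have h := hγ p q
  unfold coshDist at h
  have h1 := p.2
  have h2 := q.2
  have h3 := (γ p).2
  have h4 := (γ q).2
  have h5 : dist (γ p : E3) (γ q) ^ 2 / (2 * (γ p : E3) 2 * (γ q : E3) 2) =
      dist (p : E3) q ^ 2 / (2 * (p : E3) 2 * (q : E3) 2) := by linarith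
  rw [div_eq_div_iff (by positivity) (by positivity), ← cf_mul γ p, ← cf_mul γ q] at h5
  have h6 : (2 * (p : E3) 2 * (q : E3) 2) ≠ 0 := by positivity
  have h7 : dist (γ p : E3) (γ q) ^ 2 * (2 * (p : E3) 2 * (q : E3) 2) =
      (cf γ p * cf γ q * dist (p : E3) q ^ 2) * (2 * (p : E3) 2 * (q : E3) 2) := by
    rw [h5]; ring
  exact mul_right_cancel₀ h6 h7

/-- Coordinates of the (rescaled) hyperboloid embedding. -/
noncomputable def vv (q : E3) : Fin 4 → ℝ := ![1, q 0, q 1, ‖q‖ ^ 2]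

/-- The Lorentz form. -/
noncomputable def lor (u w : Fin 4 → ℝ) : ℝ := (u 3 * w 0 + u 0 * w 3) / 2 - u 1 * w 1 - u 2 * w 2

lemma lor_vv (p q : H3) : lor (vv p) (vv q) = coshDist p q * ((p : E3) 2 * (q : E3) 2) := by
  have h := coshDist_mul p q
  have : coshDist p q * ((p : E3) 2 * (q : E3) 2) =
      (((p : E3) 0 - (q : E3) 0) ^ 2 + ((p : E3) 1 - (q : E3) 1) ^ 2 +
      (p : E3) 2 ^ 2 + (q : E3) 2 ^ 2) / 2 := by linarith
  rw [this]
  simp only [lor, vv, norm_sq_eq]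
  simp
  ring

/-- Row vector of the form `lor u ·`. -/
noncomputable def lorRow (u : Fin 4 → ℝ) : Fin 4 → ℝ := ![u 3 / 2, - u 1, - u 2, u 0 / 2]

lemma lorRow_dot (u w : Fin 4 → ℝ) : lorRow u ⬝ᵥ w = lor u w := by
  simp only [dotProduct, Fin.sum_univ_four, lorRow, lor]
  simp
  ring

/-- Four reference points of upper half-space. -/
noncomputable def refPt : Fin 4 → H3 :=
  ![⟨!₂[0, 0, 1], by simp⟩, ⟨!₂[1, 0, 1], by simp⟩, ⟨!₂[0, 1, 1], by simp⟩, ⟨!₂[0, 0, 2], by simp⟩]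

lemma vv_refPt (i : Fin 4) : vv (refPt i) =
    (![![1, 0, 0, 1], ![1, 1, 0, 2], ![1, 0, 1, 2], ![1, 0, 0, 4]] : Fin 4 → Fin 4 → ℝ) i := by
  fin_cases i
  all_goals
    simp [vv, refPt, norm_sq_eq]
    try norm_num

lemma det_ref : (Matrix.of fun i j : Fin 4 => lor (vv (refPt i)) (vv (refPt j))).det ≠ 0 := by
  have : (Matrix.of fun i j : Fin 4 => lor (vv (refPt i)) (vv (refPt j))) =
      !![1, 3/2, 3/2, 5/2; 3/2, 1, 2, 3; 3/2, 2, 1, 3; 5/2, 3, 3, 4] := by
    ext i j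
    rw [Matrix.of_apply, vv_refPt, vv_refPt]
    fin_cases i <;> fin_cases j <;> simp [lor] <;> norm_num
  rw [this]
  have h1 : (Fin.succAbove 1 2 : Fin 4) = 3 := by decide
  have h2 : (Fin.succAbove 2 2 : Fin 4) = 3 := by decide
  have h3 : (Fin.succAbove 3 2 : Fin 4) = 2 := by decide
  simp [Matrix.det_succ_row_zero, Fin.sum_univ_succ, h1, h2, h3]
  norm_num

/-- Isometries of upper half-space are linear in hyperboloid coordinates. -/
lemma exists_linear {γ : Equiv.Perm H3} (hγ : γ ∈ HIsom) :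
    ∃ L : Matrix (Fin 4) (Fin 4) ℝ, ∀ p : H3,
      vv (γ p) = cf γ p • L.mulVec (vv p) := by
  set M : Matrix (Fin 4) (Fin 4) ℝ :=
    Matrix.of fun i => lorRow ((cf γ (refPt i))⁻¹ • vv (γ (refPt i))) with hM
  set M0 : Matrix (Fin 4) (Fin 4) ℝ := Matrix.of fun i => lorRow (vv (refPt i)) with hM0
  have hlor : ∀ p q : H3, lor ((cf γ p)⁻¹ • vv (γ p)) ((cf γ q)⁻¹ • vv (γ q)) =
      lor (vv p) (vv q) := by
    intro p q
    have h1 : lor ((cf γ p)⁻¹ • vv (γ p)) ((cf γ q)⁻¹ • vv (γ q)) =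
        (cf γ p)⁻¹ * (cf γ q)⁻¹ * lor (vv (γ p)) (vv (γ q)) := by
      simp only [lor, Pi.smul_apply, smul_eq_mul]
      ring
    rw [h1, lor_vv, lor_vv, hγ p q, ← cf_mul γ p, ← cf_mul γ q]
    have h2 := (cf_pos γ p).ne'
    have h3 := (cf_pos γ q).ne'
    field_simp
  have hMp : ∀ p : H3, M.mulVec ((cf γ p)⁻¹ • vv (γ p)) = M0.mulVec (vv p) := by
    intro p
    ext i
    simp only [Matrix.mulVec, hM, hM0, Matrix.of_apply]
    rw [lorRow_dot, lorRow_dot, hlor]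
  have hdet : M.det ≠ 0 := by
    have h1 : M * (Matrix.of fun j => (cf γ (refPt j))⁻¹ • vv (γ (refPt j))).transpose =
        Matrix.of fun i j : Fin 4 => lor (vv (refPt i)) (vv (refPt j)) := by
      ext i j
      have := congrFun (hMp (refPt j)) i
      simp only [Matrix.mulVec, hM0, Matrix.of_apply, lorRow_dot] at this
      rw [Matrix.of_apply, ← this]
      rfl
    intro h0
    apply det_ref
    rw [← h1, Matrix.det_mul, h0, zero_mul]
  refine ⟨M⁻¹ * M0, fun p => ?_⟩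
  rw [← Matrix.mulVec_mulVec, ← hMp p, Matrix.mulVec_mulVec, Matrix.nonsing_inv_mul _
    (isUnit_iff_ne_zero.2 hdet), Matrix.one_mulVec, smul_smul, mul_inv_cancel₀ (cf_pos γ p).ne',
    one_smul]

lemma contDiff_vv (k : Fin 4) : ContDiff ℝ ∞ (fun q => vv q k) := by
  fin_cases k
  · simpa [vv] using contDiff_const
  · simp only [vv]
    simp
    fun_prop
  · simp only [vv]
    simp
    fun_prop
  · simp only [vv]
    simp
    exact contDiff_norm_sq ℝ

lemma contDiffOn_cf {γ : Equiv.Perm H3} (hγ : γ ∈ HIsom) : ContDiffOn ℝ ∞ (cf γ) UH ∧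
    ContDiffOn ℝ ∞ (ext γ) UH := by
  obtain ⟨L, hL⟩ := exists_linear hγ
  have hl : ∀ j, ContDiff ℝ ∞ (fun q => L.mulVec (vv q) j) := by
    intro j
    simp only [Matrix.mulVec, dotProduct]
    exact ContDiff.sum fun k _ => contDiff_const.mul (contDiff_vv k)
  have h0 : ∀ q : H3, cf γ q * L.mulVec (vv q) 0 = 1 := by
    intro q
    have := congrFun (hL q) 0
    simpa [vv] using this.symm
  have hne : ∀ q ∈ UH, L.mulVec (vv q) 0 ≠ 0 := by
    intro q hq h
    have := h0 ⟨q, hq⟩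
    simp only [h, mul_zero] at this
    exact zero_ne_one this
  have hcf : ∀ q ∈ UH, cf γ q = (L.mulVec (vv q) 0)⁻¹ := fun q hq =>
    eq_inv_of_mul_eq_one_left (h0 ⟨q, hq⟩)
  have hc : ContDiffOn ℝ ∞ (cf γ) UH :=
    ContDiffOn.congr (fun q hq => ((hl 0).contDiffAt.inv (hne q hq)).contDiffWithinAt) hcf
  refine ⟨hc, ?_⟩
  rw [contDiffOn_euclidean]
  intro i
  fin_cases i
  · refine (hc.mul (hl 1).contDiffOn).congr fun q hq => ?_
    have := congrFun (hL ⟨q, hq⟩) 1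
    rw [← ext_coe] at this
    simpa [vv] using this
  · refine (hc.mul (hl 2).contDiffOn).congr fun q hq => ?_
    have := congrFun (hL ⟨q, hq⟩) 2
    rw [← ext_coe] at this
    simpa [vv] using this
  · have h2 : ContDiffOn ℝ ∞ (fun q : E3 => q 2) UH := by
      apply ContDiff.contDiffOn; fun_prop
    refine (hc.mul h2).congr fun q hq => ?_
    have := cf_mul γ ⟨q, hq⟩
    rw [← ext_coe] at this
    simpa using this.symm

lemma contDiffOn_ext {γ : Equiv.Perm H3} (hγ : γ ∈ HIsom) : ContDiffOn ℝ ∞ (ext γ) UH :=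
  (contDiffOn_cf hγ).2

lemma contDiffAt_ext {γ : Equiv.Perm H3} (hγ : γ ∈ HIsom) (q : H3) :
    ContDiffAt ℝ ∞ (ext γ) (q : E3) :=
  (contDiffOn_ext hγ).contDiffAt (isOpen_UH.mem_nhds q.2)

lemma differentiableAt_ext {γ : Equiv.Perm H3} (hγ : γ ∈ HIsom) (q : H3) :
    DifferentiableAt ℝ (ext γ) (q : E3) :=
  (contDiffAt_ext hγ q).differentiableAt (by simp)

lemma continuousAt_cf {γ : Equiv.Perm H3} (hγ : γ ∈ HIsom) (q : H3) :
    ContinuousAt (cf γ) (q : E3) :=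
  (contDiffOn_cf hγ).1.continuousOn.continuousAt (isOpen_UH.mem_nhds q.2)

/-- Isometries are conformal. -/
lemma norm_fderiv_ext {γ : Equiv.Perm H3} (hγ : γ ∈ HIsom) (q : H3) (v : E3) :
    ‖fderiv ℝ (ext γ) q v‖ = cf γ q * ‖v‖ := by
  have h1 : HasFDerivAt (ext γ) (fderiv ℝ (ext γ) q) ((q : E3) + (0:ℝ) • v) := by
    rw [zero_smul, add_zero]
    exact (differentiableAt_ext hγ q).hasFDerivAt
  have hline : HasDerivAt (fun s : ℝ => (q : E3) + s • v) v 0 := by
    simpa using ((hasDerivAt_id (0:ℝ)).smul_const v).const_add (q : E3)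
  have h2 : HasDerivAt (fun s : ℝ => ext γ ((q : E3) + s • v)) (fderiv ℝ (ext γ) q v) 0 := by
    have h := HasFDerivAt.comp_hasDerivAt (f := fun s : ℝ => (q : E3) + s • v) (0:ℝ) h1 hline
    exact h
  have h3 := h2.tendsto_slope_zero
  simp only [zero_add, zero_smul, add_zero] at h3
  have h4 : Tendsto (fun s : ℝ => ‖s⁻¹ • (ext γ ((q : E3) + s • v) - ext γ q)‖ ^ 2) (𝓝[≠] 0)
      (𝓝 (‖fderiv ℝ (ext γ) q v‖ ^ 2)) := (h3.norm.pow 2)
  have hc : ContinuousAt (fun s : ℝ => (q : E3) + s • v) 0 := hline.continuousAt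
  have h5 : Tendsto (fun s : ℝ => cf γ ((q : E3) + s • v) * cf γ q * ‖v‖ ^ 2) (𝓝[≠] 0)
      (𝓝 (cf γ q * cf γ q * ‖v‖ ^ 2)) := by
    have h6 : ContinuousAt (fun s : ℝ => cf γ ((q : E3) + s • v)) 0 := by
      have : ContinuousAt (cf γ) ((q : E3) + (0:ℝ) • v) := by
        rw [zero_smul, add_zero]; exact continuousAt_cf hγ q
      exact ContinuousAt.comp (f := fun s : ℝ => (q : E3) + s • v) this hc
    have h7 : Tendsto (fun s : ℝ => cf γ ((q : E3) + s • v)) (𝓝[≠] 0) (𝓝 (cf γ q)) := by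
      have := h6.tendsto.mono_left (nhdsWithin_le_nhds (s := {0}ᶜ))
      simpa using this
    exact (h7.mul_const _).mul_const _
  have hev : ∀ᶠ s : ℝ in 𝓝[≠] 0, (q : E3) + s • v ∈ UH := by
    apply nhdsWithin_le_nhds
    apply hc.preimage_mem_nhds
    rw [zero_smul, add_zero]
    exact isOpen_UH.mem_nhds q.2
  have h6 : (fun s : ℝ => ‖s⁻¹ • (ext γ ((q : E3) + s • v) - ext γ q)‖ ^ 2) =ᶠ[𝓝[≠] 0]
      fun s : ℝ => cf γ ((q : E3) + s • v) * cf γ q * ‖v‖ ^ 2 := by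
    filter_upwards [hev, self_mem_nhdsWithin] with s hs hs0
    have hs0' : s ≠ 0 := hs0
    have h7 := dist_sq_map hγ ⟨_, hs⟩ q
    rw [← ext_coe, ← ext_coe] at h7
    simp only at h7
    rw [norm_smul, mul_pow, norm_inv, ← dist_eq_norm, h7, dist_eq_norm, add_sub_cancel_left,
      norm_smul]
    have : ‖s‖ ≠ 0 := norm_ne_zero_iff.2 hs0'
    field_simp
  have h8 := tendsto_nhds_unique (h4.congr' h6) h5
  have h9 : ‖fderiv ℝ (ext γ) q v‖ ^ 2 = (cf γ q * ‖v‖) ^ 2 := by rw [h8]; ring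
  exact (pow_left_inj₀ (norm_nonneg _) (mul_nonneg (cf_pos γ q).le (norm_nonneg _))
    two_ne_zero).1 h9

lemma inner_fderiv_ext {γ : Equiv.Perm H3} (hγ : γ ∈ HIsom) (q : H3) (v u : E3) :
    ⟪fderiv ℝ (ext γ) q v, fderiv ℝ (ext γ) q u⟫ = cf γ q ^ 2 * ⟪v, u⟫ := by
  rw [real_inner_eq_norm_add_mul_self_sub_norm_mul_self_sub_norm_mul_self_div_two,
    real_inner_eq_norm_add_mul_self_sub_norm_mul_self_sub_norm_mul_self_div_two v u, ← map_add,
    norm_fderiv_ext hγ, norm_fderiv_ext hγ, norm_fderiv_ext hγ]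
  ring

end Pool.Agent.Helper82
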