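import Mathlib
import Pool.Agent.Helper82.Isometry

/-!
# The hyperbolic area measure is invariant under isometries
-/

open MeasureTheory MeasureTheory.Measure Module Set Filter Topology
open scoped ENNReal NNReal Gradient RealInnerProductSpace ContDiff

namespace Pool.Agent.Helper82

lemma measurableEmbedding_val : MeasurableEmbedding (Subtype.val : H3 → E3) :=
  MeasurableEmbedding.subtype_coe isOpen_UH.measurableSet

lemma continuous_of_mem_HIsom {γ : Equiv.Perm H3} (hγ : γ ∈ HIsom) : Continuous γ := by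
  rw [continuous_induced_rng, continuous_iff_continuousAt]
  intro q
  have h1 : ContinuousAt (ext γ) (q : E3) := (differentiableAt_ext hγ q).continuousAt
  have h2 : ContinuousAt (fun p : H3 => ext γ p) q :=
    ContinuousAt.comp (f := fun p : H3 => (p : E3)) h1 continuous_subtype_val.continuousAt
  refine h2.congr (Eventually.of_forall fun p => ?_)
  exact ext_coe γ p

/-- The homeomorphism of an isometry. -/
noncomputable def toHomeo {γ : Equiv.Perm H3} (hγ : γ ∈ HIsom) : H3 ≃ₜ H3 where
  toEquiv := γ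
  continuous_toFun := continuous_of_mem_HIsom hγ
  continuous_invFun := continuous_of_mem_HIsom (inv_mem hγ)

lemma measurableSet_image {γ : Equiv.Perm H3} (hγ : γ ∈ HIsom) {E : Set H3}
    (hE : MeasurableSet E) : MeasurableSet (γ '' E) :=
  (toHomeo hγ).toMeasurableEquiv.measurableSet_image.2 hE

lemma harea_apply {E : Set H3} (hE : MeasurableSet E) : harea E =
    ∫⁻ q in E, ENNReal.ofReal (((q : E3) 2 ^ 2)⁻¹)
      ∂(Measure.comap Subtype.val (μHE[2] : Measure E3)) :=
  withDensity_apply _ hE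

lemma comap_apply_val (E : Set H3) : Measure.comap Subtype.val (μHE[2] : Measure E3) E =
    (μHE[2] : Measure E3) (Subtype.val '' E) :=
  measurableEmbedding_val.comap_apply _ _

lemma harea_le {E : Set H3} (hE : MeasurableSet E) {c : ℝ} (hc : 0 < c)
    (h : ∀ q ∈ E, c ≤ (q : E3) 2) :
    harea E ≤ ENNReal.ofReal ((c ^ 2)⁻¹) * (μHE[2] : Measure E3) (Subtype.val '' E) := by
  rw [harea_apply hE, ← comap_apply_val, ← setLIntegral_const]
  apply setLIntegral_mono' hE
  intro q hq
  apply ENNReal.ofReal_le_ofReal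
  have := h q hq
  gcongr

lemma le_harea {E : Set H3} (hE : MeasurableSet E) {c : ℝ}
    (h : ∀ q ∈ E, (q : E3) 2 ≤ c) :
    ENNReal.ofReal ((c ^ 2)⁻¹) * (μHE[2] : Measure E3) (Subtype.val '' E) ≤ harea E := by
  rw [harea_apply hE, ← comap_apply_val, ← setLIntegral_const]
  apply setLIntegral_mono' hE
  intro q hq
  apply ENNReal.ofReal_le_ofReal
  have := h q hq
  have h0 := q.2
  gcongr

lemma harea_image_le_piece {γ : Equiv.Perm H3} (hγ : γ ∈ HIsom) {E : Set H3}
    (hE : MeasurableSet E) {r a b : ℝ} (hr : 1 < r) (ha : 0 < a) (hb : 0 < b)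
    (h1 : ∀ q ∈ E, a ≤ cf γ q ∧ cf γ q ≤ a * r) (h2 : ∀ q ∈ E, b ≤ (q : E3) 2 ∧ (q : E3) 2 ≤ b * r) :
    harea (γ '' E) ≤ ENNReal.ofReal (r ^ 4) * harea E := by
  have hr0 : 0 < r := by linarith
  have hA : harea (γ '' E) ≤ ENNReal.ofReal (((a * b) ^ 2)⁻¹) *
      (μHE[2] : Measure E3) (Subtype.val '' (γ '' E)) := by
    apply harea_le (measurableSet_image hγ hE) (by positivity)
    rintro _ ⟨q, hq, rfl⟩
    rw [← cf_mul]
    have := (h1 q hq).1
    have := (h2 q hq).1
    have := (cf_pos γ q).le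
    gcongr
  have hB : (μHE[2] : Measure E3) (Subtype.val '' (γ '' E)) ≤
      ENNReal.ofReal (a * r) ^ 2 * (μHE[2] : Measure E3) (Subtype.val '' E) := by
    rw [image_image]
    refine image_le_of_edist_le (fun q : H3 => (γ q : E3)) (fun q : H3 => (q : E3)) E
      (Real.toNNReal (a * r)) ?_ 2
    intro p hp q hq
    rw [edist_dist, edist_dist]
    change ENNReal.ofReal _ ≤ ENNReal.ofReal (a * r) * ENNReal.ofReal _
    rw [← ENNReal.ofReal_mul (by positivity)]
    apply ENNReal.ofReal_le_ofReal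
    rw [← pow_le_pow_iff_left₀ dist_nonneg (by positivity) two_ne_zero, dist_sq_map hγ, mul_pow]
    have hp2 := (h1 p hp).2
    have hq2 := (h1 q hq).2
    have := cf_pos γ p
    have := cf_pos γ q
    rw [sq (a * r)]
    gcongr
  have hC := le_harea hE (c := b * r) fun q hq => (h2 q hq).2
  calc harea (γ '' E) ≤ ENNReal.ofReal (((a * b) ^ 2)⁻¹) *
        (ENNReal.ofReal (a * r) ^ 2 * (μHE[2] : Measure E3) (Subtype.val '' E)) :=
      hA.trans (by gcongr)
    _ = ENNReal.ofReal (r ^ 4) * (ENNReal.ofReal (((b * r) ^ 2)⁻¹) *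
        (μHE[2] : Measure E3) (Subtype.val '' E)) := by
      rw [← mul_assoc, ← mul_assoc, ← ENNReal.ofReal_pow (by positivity),
        ← ENNReal.ofReal_mul (by positivity), ← ENNReal.ofReal_mul (by positivity)]
      congr 2
      field_simp
    _ ≤ _ := by gcongr

lemma harea_image_le {γ : Equiv.Perm H3} (hγ : γ ∈ HIsom) {E : Set H3}
    (hE : MeasurableSet E) : harea (γ '' E) ≤ harea E := by
  have key : ∀ r : ℝ, 1 < r → harea (γ '' E) ≤ ENNReal.ofReal (r ^ 4) * harea E := by
    intro r hr
    have hr0 : 0 < r := by linarith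
    have hcont : Continuous (fun q : H3 => cf γ q) := by
      rw [continuous_iff_continuousAt]
      intro q
      exact ContinuousAt.comp (f := fun p : H3 => (p : E3)) (continuousAt_cf hγ q)
        continuous_subtype_val.continuousAt
    have hcont2 : Continuous (fun q : H3 => (q : E3) 2) := by fun_prop
    let P : ℤ × ℤ → Set H3 := fun m => E ∩ {q | cf γ q ∈ Ico (r ^ m.1) (r ^ (m.1 + 1)) ∧
      (q : E3) 2 ∈ Ico (r ^ m.2) (r ^ (m.2 + 1))}
    have hPm : ∀ m, MeasurableSet (P m) := fun m =>
      hE.inter ((hcont.measurable measurableSet_Ico).inter (hcont2.measurable measurableSet_Ico))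
    have hPE : E = ⋃ m, P m := by
      ext q
      simp only [mem_iUnion, P, mem_inter_iff, Set.mem_ofPred_eq]
      constructor
      · intro hq
        obtain ⟨m, hm⟩ := exists_mem_Ico_zpow (cf_pos γ q) hr
        obtain ⟨n, hn⟩ := exists_mem_Ico_zpow q.2 hr
        exact ⟨(m, n), hq, hm, hn⟩
      · rintro ⟨m, hq, -⟩; exact hq
    have hPd : Pairwise (Function.onFun Disjoint P) := by
      intro m m' hmm'
      rw [Function.onFun, Set.disjoint_left]
      rintro q ⟨-, h1, h2⟩ ⟨-, h1', h2'⟩
      apply hmm'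
      have hmono : StrictMono (fun n : ℤ => r ^ n) := zpow_right_strictMono₀ hr
      have huniq : ∀ {x : ℝ} {a b : ℤ}, x ∈ Ico (r ^ a) (r ^ (a + 1)) →
          x ∈ Ico (r ^ b) (r ^ (b + 1)) → a = b := by
        intro x a b ha hb
        have h3 : a < b + 1 := hmono.lt_iff_lt.1 (ha.1.trans_lt hb.2)
        have h4 : b < a + 1 := hmono.lt_iff_lt.1 (hb.1.trans_lt ha.2)
        omega
      exact Prod.ext (huniq h1 h1') (huniq h2 h2')
    calc harea (γ '' E) = harea (⋃ m, γ '' (P m)) := by
          conv_lhs => rw [hPE]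
          rw [image_iUnion]
      _ ≤ ∑' m, harea (γ '' (P m)) := measure_iUnion_le _
      _ ≤ ∑' m, ENNReal.ofReal (r ^ 4) * harea (P m) := by
          apply ENNReal.tsum_le_tsum
          intro m
          refine harea_image_le_piece hγ (hPm m) hr (zpow_pos hr0 m.1) (zpow_pos hr0 m.2) ?_ ?_
          · rintro q ⟨-, h1, -⟩
            rw [← zpow_add_one₀ hr0.ne']
            exact ⟨h1.1, h1.2.le⟩
          · rintro q ⟨-, -, h2⟩
            rw [← zpow_add_one₀ hr0.ne']
            exact ⟨h2.1, h2.2.le⟩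
      _ = ENNReal.ofReal (r ^ 4) * harea E := by
          rw [ENNReal.tsum_mul_left, ← measure_iUnion hPd hPm, ← hPE]
  have hlim : Tendsto (fun r : ℝ => ENNReal.ofReal (r ^ 4) * harea E) (𝓝[>] 1)
      (𝓝 (ENNReal.ofReal (1 ^ 4) * harea E)) := by
    refine ENNReal.Tendsto.mul_const ?_ (Or.inl (by simp))
    refine (ENNReal.continuous_ofReal.tendsto _).comp ?_
    exact ((continuous_pow 4).tendsto (1:ℝ)).mono_left nhdsWithin_le_nhds
  have h1 := ge_of_tendsto hlim (by
    filter_upwards [self_mem_nhdsWithin] with r hr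
    exact key r hr)
  simpa using h1

lemma harea_image {γ : Equiv.Perm H3} (hγ : γ ∈ HIsom) {E : Set H3}
    (hE : MeasurableSet E) : harea (γ '' E) = harea E := by
  refine le_antisymm (harea_image_le hγ hE) ?_
  have h := harea_image_le (inv_mem hγ) (measurableSet_image hγ hE)
  have h2 : (γ⁻¹ : Equiv.Perm H3) '' (γ '' E) = E := by
    rw [image_image]
    have e : ∀ x, γ⁻¹ (γ x) = x := fun x => γ.symm_apply_apply x
    simp [e]
  rwa [h2] at h

lemma measurePreserving_harea {γ : Equiv.Perm H3} (hγ : γ ∈ HIsom) :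
    MeasurePreserving γ harea harea := by
  refine ⟨(continuous_of_mem_HIsom hγ).measurable, ?_⟩
  ext E hE
  rw [Measure.map_apply (continuous_of_mem_HIsom hγ).measurable hE]
  have h := harea_image (inv_mem hγ) hE
  rw [← h]
  congr 1
  ext x
  constructor
  · intro hx
    exact ⟨γ x, hx, γ.symm_apply_apply x⟩
  · rintro ⟨y, hy, rfl⟩
    have e : γ (γ⁻¹ y) = y := γ.apply_symm_apply y
    rw [mem_preimage, e]
    exact hy

/-- Invariance for the restriction to an invariant set. -/
lemma measurePreserving_restrict {γ : Equiv.Perm H3} (hγ : γ ∈ HIsom) {S : Set H3}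
    (hS : MeasurableSet S) (hinv : ∀ q, γ q ∈ S ↔ q ∈ S) :
    MeasurePreserving γ (harea.restrict S) (harea.restrict S) := by
  have h := (measurePreserving_harea hγ).restrict_preimage hS
  have h2 : γ ⁻¹' S = S := by ext q; exact hinv q
  rwa [h2] at h

end Pool.Agent.Helper82
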