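import Mathlib
import Pool.Agent.Helper82.AreaInv

/-!
# The vector field attached to the distance from the vertical plane
-/

open MeasureTheory MeasureTheory.Measure Module Set Filter Topology
open scoped ENNReal NNReal Gradient RealInnerProductSpace ContDiff

namespace Pool.Agent.Helper82

/-- The weight `t ^ (-2)`. -/
noncomputable def wt (q : E3) : ℝ := (q 2 ^ 2)⁻¹

/-- Coordinate functionals. -/
noncomputable def pr (i : Fin 3) : E3 →L[ℝ] ℝ := EuclideanSpace.proj i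

lemma pr_apply (i : Fin 3) (q : E3) : pr i q = q i := rfl

/-- Coordinate vectors. -/
noncomputable def ev (i : Fin 3) : E3 := EuclideanSpace.single i 1

lemma hasFDerivAt_coord (i : Fin 3) (q : E3) : HasFDerivAt (fun q : E3 => q i) (pr i) q :=
  (pr i).hasFDerivAt

lemma hasFDerivAt_wt {q : E3} (hq : 0 < q 2) :
    HasFDerivAt wt ((-(2 * (q 2 ^ 3)⁻¹)) • pr 2) q := by
  have h1 : HasFDerivAt (fun q : E3 => q 2 ^ 2) _ q := (hasFDerivAt_coord 2 q).pow 2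
  have h2 : HasDerivAt (fun x : ℝ => x⁻¹) (-((q 2 ^ 2) ^ 2)⁻¹) (q 2 ^ 2) :=
    hasDerivAt_inv (by positivity)
  have h3 : HasFDerivAt (fun q : E3 => (q 2 ^ 2)⁻¹) _ q := h2.comp_hasFDerivAt q h1
  refine h3.congr_fderiv ?_
  ext v
  simp only [_root_.smul_apply, smul_eq_mul, pr_apply]
  field_simp
  simp
  ring

lemma contDiffOn_wt : ContDiffOn ℝ 1 wt UH := by
  intro q hq
  have h : (q 2 ^ 2 : ℝ) ≠ 0 := pow_ne_zero _ (ne_of_gt hq)
  have h1 : ContDiffAt ℝ 1 (fun q : E3 => q 2 ^ 2) q := by fun_prop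
  exact (h1.inv h).contDiffWithinAt

/-- The coefficient of the vector field. -/
noncomputable def ca (q : E3) : ℝ := q 1 * q 2 / (q 1 ^ 2 + q 2 ^ 2)

/-- Infinitesimal rotation in the last two coordinates. -/
noncomputable def ZL : E3 →L[ℝ] E3 := (pr 2).smulRight (ev 1) - (pr 1).smulRight (ev 2)

lemma ZL_apply (q : E3) : ZL q = q 2 • ev 1 - q 1 • ev 2 := rfl

lemma inner_ZL (q v : E3) : ⟪ZL q, v⟫ = q 2 * v 1 - q 1 * v 2 := by
  rw [ZL_apply, inner_sub_left, inner_smul_left, inner_smul_left, ev, ev,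
    EuclideanSpace.inner_single_left, EuclideanSpace.inner_single_left]
  simp

lemma inner_ZL_self (v : E3) : ⟪ZL v, v⟫ = 0 := by rw [inner_ZL]; ring

/-- `t ^ 2` times the Euclidean gradient of `log cosh` of the distance from the plane `y = 0`. -/
noncomputable def YY (q : E3) : E3 := ca q • ZL q

lemma hasFDerivAt_ca {q : E3} (hq : 0 < q 2) : HasFDerivAt ca
    (((q 2 ^ 2 - q 1 ^ 2) / (q 1 ^ 2 + q 2 ^ 2) ^ 2) • (q 2 • pr 1 - q 1 • pr 2)) q := by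
  have h0 : q 1 ^ 2 + q 2 ^ 2 ≠ 0 := by positivity
  have h1 : HasFDerivAt (fun q : E3 => q 1 * q 2) _ q :=
    (hasFDerivAt_coord 1 q).mul (hasFDerivAt_coord 2 q)
  have h2 : HasFDerivAt (fun q : E3 => q 1 ^ 2 + q 2 ^ 2) _ q :=
    ((hasFDerivAt_coord 1 q).pow 2).add ((hasFDerivAt_coord 2 q).pow 2)
  have h3 : HasFDerivAt (fun q : E3 => (q 1 ^ 2 + q 2 ^ 2)⁻¹) _ q :=
    (hasDerivAt_inv h0).comp_hasFDerivAt q h2
  have h4 : HasFDerivAt (fun q : E3 => (q 1 * q 2) * (q 1 ^ 2 + q 2 ^ 2)⁻¹) _ q := h1.mul h3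
  refine HasFDerivAt.congr_fderiv (f := ca) h4 ?_
  ext v
  simp only [_root_.smul_apply, smul_eq_mul, pr_apply, _root_.sub_apply, _root_.add_apply]
  simp
  field_simp
  ring

lemma contDiffOn_ca : ContDiffOn ℝ 1 ca UH := by
  intro q hq
  have hq' : 0 < q 2 := hq
  have h : q 1 ^ 2 + q 2 ^ 2 ≠ 0 := by positivity
  have h1 : ContDiffAt ℝ 1 (fun q : E3 => q 1 * q 2) q := by fun_prop
  have h2 : ContDiffAt ℝ 1 (fun q : E3 => q 1 ^ 2 + q 2 ^ 2) q := by fun_prop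
  exact (h1.div h2 h).contDiffWithinAt

lemma contDiffOn_YY : ContDiffOn ℝ 1 YY UH := contDiffOn_ca.smul ZL.contDiff.contDiffOn

lemma dv_ZL (q : E3) : dv ZL q = 0 := by
  let b := EuclideanSpace.basisFun (Fin 3) ℝ
  rw [dv_eq_sum b, ContinuousLinearMap.fderiv, real_inner_comm, inner_ZL_self,
    real_inner_comm, inner_ZL_self, real_inner_comm, inner_ZL_self]
  ring

lemma fderiv_YY {q : E3} (hq : 0 < q 2) (v : E3) : fderiv ℝ YY q v =
    ((q 2 ^ 2 - q 1 ^ 2) / (q 1 ^ 2 + q 2 ^ 2) ^ 2 * ⟪ZL q, v⟫) • ZL q + ca q • ZL v := by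
  have h := (hasFDerivAt_ca hq).fun_smul (ZL.hasFDerivAt (x := q))
  have h' : HasFDerivAt YY _ q := h
  rw [h'.fderiv, inner_ZL]
  simp only [_root_.add_apply, _root_.smul_apply, ContinuousLinearMap.smulRight_apply,
    _root_.sub_apply, pr_apply, smul_eq_mul]
  rw [add_comm]

lemma differentiableAt_YY {q : E3} (hq : 0 < q 2) : DifferentiableAt ℝ YY q :=
  (contDiffOn_YY.contDiffAt (isOpen_UH.mem_nhds hq)).differentiableAt (by norm_num)

lemma inner_ZL_ZL (q : E3) : ⟪ZL q, ZL q⟫ = q 1 ^ 2 + q 2 ^ 2 := by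
  rw [inner_ZL, ZL_apply]
  simp [ev]
  ring

lemma dv_YY {q : E3} (hq : 0 < q 2) : dv YY q = (q 2 ^ 2 - q 1 ^ 2) / (q 1 ^ 2 + q 2 ^ 2) := by
  have h0 : q 1 ^ 2 + q 2 ^ 2 ≠ 0 := by positivity
  have h1 : dv YY q = ca q * dv ZL q + fderiv ℝ ca q (ZL q) :=
    dv_smul (hasFDerivAt_ca hq).differentiableAt ZL.differentiableAt
  rw [h1, dv_ZL, (hasFDerivAt_ca hq).fderiv]
  simp only [_root_.smul_apply, _root_.sub_apply, pr_apply, smul_eq_mul, ZL_apply]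
  simp [ev]
  field_simp
  ring

/-- The tangential part of the vector field. -/
noncomputable def YT (N : E3 → E3) (q : E3) : E3 := YY q - ⟪YY q, N q⟫ • N q

lemma FV_YY {ζ : E3 → ℝ} {N : E3 → E3} {q : E3} (hq : 0 < q 2) (hζ : DifferentiableAt ℝ ζ q) :
    FV wt N (fun y => ζ y • YY y) q =
      wt q * (ζ q * (1 - (q 2 ^ 2 - q 1 ^ 2) / (q 1 ^ 2 + q 2 ^ 2) ^ 2 * ⟪ZL q, N q⟫ ^ 2) +
        fderiv ℝ ζ q (YT N q)) := by
  have h0 : q 1 ^ 2 + q 2 ^ 2 ≠ 0 := by positivity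
  have h1 : fderiv ℝ (fun y => ζ y • YY y) q (N q) =
      ζ q • fderiv ℝ YY q (N q) + fderiv ℝ ζ q (N q) • YY q := by
    rw [fderiv_fun_smul hζ (differentiableAt_YY hq)]
    rfl
  have h2 : fderiv ℝ wt q (ζ q • YY q) = wt q * (ζ q * (2 * q 1 ^ 2 / (q 1 ^ 2 + q 2 ^ 2))) := by
    rw [(hasFDerivAt_wt hq).fderiv]
    simp only [_root_.smul_apply, pr_apply, smul_eq_mul, YY, ZL_apply, wt, ca]
    simp [ev]
    field_simp
  rw [FV, dv_smul hζ (differentiableAt_YY hq), dv_YY hq, h1, h2, fderiv_YY hq, YT, map_sub,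
    map_smul]
  simp only [inner_add_left, inner_smul_left, inner_ZL_self, smul_eq_mul, conj_trivial]
  field_simp
  ring

/-- Lower bound for the first variation integrand. -/
lemma FV_ge {ζ : E3 → ℝ} {N : E3 → E3} {q : E3} (hq : 0 < q 2) (hζ : DifferentiableAt ℝ ζ q)
    (h0 : 0 ≤ ζ q) (hN : ‖N q‖ = 1) :
    wt q * (ζ q * (q 1 ^ 2 / (q 1 ^ 2 + q 2 ^ 2)) + fderiv ℝ ζ q (YT N q)) ≤
      FV wt N (fun y => ζ y • YY y) q := by
  have hw : 0 ≤ wt q := by unfold wt; positivity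
  rw [FV_YY hq hζ]
  refine mul_le_mul_of_nonneg_left (add_le_add_left ?_ _) hw
  refine mul_le_mul_of_nonneg_left ?_ h0
  have hs : 0 < q 1 ^ 2 + q 2 ^ 2 := by positivity
  have hm : ⟪ZL q, N q⟫ ^ 2 ≤ q 1 ^ 2 + q 2 ^ 2 := by
    have h1 := real_inner_mul_inner_self_le (ZL q) (N q)
    rw [inner_ZL_ZL, real_inner_self_eq_norm_sq, hN] at h1
    nlinarith
  have hm0 := sq_nonneg ⟪ZL q, N q⟫
  generalize ⟪ZL q, N q⟫ ^ 2 = m at *
  rw [div_mul_eq_mul_div, le_sub_iff_add_le, div_add_div _ _ hs.ne' (by positivity),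
    div_le_one (by positivity)]
  rcases le_total (q 1 ^ 2) (q 2 ^ 2) with h | h
  · nlinarith [mul_nonneg (sub_nonneg.2 h) (sub_nonneg.2 hm), sq_nonneg (q 1), sq_nonneg (q 2),
      mul_nonneg hs.le (mul_nonneg (sub_nonneg.2 h) (sub_nonneg.2 hm)), mul_pos hs hs,
      mul_nonneg hs.le (mul_nonneg hs.le (sq_nonneg (q 1)))]
  · nlinarith [mul_nonneg (sub_nonneg.2 h) hm0, mul_nonneg hs.le (mul_nonneg (sub_nonneg.2 h) hm0),
      mul_nonneg hs.le (mul_nonneg hs.le (sq_nonneg (q 2)))]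

lemma norm_YY_le {q : E3} (hq : 0 < q 2) : ‖YY q‖ ≤ q 2 := by
  have hs : 0 < q 1 ^ 2 + q 2 ^ 2 := by positivity
  rw [← pow_le_pow_iff_left₀ (norm_nonneg _) hq.le two_ne_zero, ← real_inner_self_eq_norm_sq, YY,
    inner_smul_left, inner_smul_right, inner_ZL_ZL, ca]
  simp only [conj_trivial]
  have : q 1 * q 2 / (q 1 ^ 2 + q 2 ^ 2) * (q 1 * q 2 / (q 1 ^ 2 + q 2 ^ 2) *
      (q 1 ^ 2 + q 2 ^ 2)) = q 2 ^ 2 * (q 1 ^ 2 / (q 1 ^ 2 + q 2 ^ 2)) := by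
    field_simp
  rw [this]
  have h2 : q 1 ^ 2 / (q 1 ^ 2 + q 2 ^ 2) ≤ 1 := by
    rw [div_le_one hs]
    nlinarith [sq_nonneg (q 2)]
  nlinarith [sq_nonneg (q 2)]

lemma norm_YT_le {N : E3 → E3} {q : E3} (hq : 0 < q 2) (hN : ‖N q‖ = 1) : ‖YT N q‖ ≤ q 2 := by
  refine le_trans ?_ (norm_YY_le hq)
  rw [← pow_le_pow_iff_left₀ (norm_nonneg _) (norm_nonneg _) two_ne_zero, YT,
    ← real_inner_self_eq_norm_sq, ← real_inner_self_eq_norm_sq]
  simp only [inner_sub_left, inner_sub_right, inner_smul_left, inner_smul_right, conj_trivial,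
    real_inner_self_eq_norm_sq (N q), hN, real_inner_comm (YY q) (N q)]
  nlinarith [sq_nonneg ⟪YY q, N q⟫]

end Pool.Agent.Helper82
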