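import Mathlib
import Pool.Agent.Helper82.Convex

/-!
# The kernel `cosh (dist) ^ (-3)` and its gradient
-/

open MeasureTheory MeasureTheory.Measure Module Set Filter Topology
open scoped ENNReal NNReal Gradient RealInnerProductSpace ContDiff

namespace Pool.Agent.Helper82

/-- `cosh` of the distance to `p`, as a function on Euclidean space (meaningful on `UH`). -/
noncomputable def CD (p : H3) (q : E3) : ℝ :=
  ((q 0 - (p : E3) 0) ^ 2 + (q 1 - (p : E3) 1) ^ 2 + q 2 ^ 2 + (p : E3) 2 ^ 2) /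
    (2 * q 2 * (p : E3) 2)

lemma CD_coe (p q : H3) : CD p q = coshDist q p := by
  rw [coshDist_eq]; rfl

/-- The kernel. -/
noncomputable def bt (p : H3) (q : E3) : ℝ := (CD p q ^ 3)⁻¹

lemma bt_coe (p q : H3) : bt p q = (coshDist q p ^ 3)⁻¹ := by rw [bt, CD_coe]

lemma CD_pos (p q : H3) : 0 < CD p q := by
  rw [CD_coe]; exact lt_of_lt_of_le one_pos (one_le_coshDist _ _)

lemma one_le_CD (p q : H3) : 1 ≤ CD p q := by
  rw [CD_coe]; exact one_le_coshDist _ _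

lemma bt_pos (p q : H3) : 0 < bt p q := by
  unfold bt
  have := CD_pos p q
  positivity

lemma bt_le_one (p q : H3) : bt p q ≤ 1 := by
  unfold bt
  exact inv_le_one_of_one_le₀ (one_le_pow₀ (one_le_CD p q))

lemma bt_map {γ : Equiv.Perm H3} (hγ : γ ∈ HIsom) (p q : H3) : bt p (γ q) = bt (γ⁻¹ p) q := by
  rw [bt_coe, bt_coe]
  have h := hγ q (γ⁻¹ p)
  have e : γ (γ⁻¹ p) = p := γ.apply_symm_apply p
  rw [e] at h
  rw [h]

lemma hasFDerivAt_CD (p : H3) {q : E3} (hq : 0 < q 2) : HasFDerivAt (CD p)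
    (((q 0 - (p : E3) 0) / (q 2 * (p : E3) 2)) • pr 0 +
      ((q 1 - (p : E3) 1) / (q 2 * (p : E3) 2)) • pr 1 +
      (((p : E3) 2)⁻¹ - CD p q / q 2) • pr 2) q := by
  have hp := p.2
  have h0 : 2 * q 2 * (p : E3) 2 ≠ 0 := by positivity
  have h1 : HasFDerivAt (fun q : E3 => (q 0 - (p : E3) 0) ^ 2 + (q 1 - (p : E3) 1) ^ 2 +
      q 2 ^ 2 + (p : E3) 2 ^ 2) _ q :=
    (((((hasFDerivAt_coord 0 q).sub_const _).pow 2).add
      (((hasFDerivAt_coord 1 q).sub_const _).pow 2)).add ((hasFDerivAt_coord 2 q).pow 2)).add_const _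
  have h2 : HasFDerivAt (fun q : E3 => 2 * q 2 * (p : E3) 2) _ q :=
    ((hasFDerivAt_coord 2 q).const_mul 2).mul_const _
  have h3 : HasFDerivAt (fun q : E3 => (2 * q 2 * (p : E3) 2)⁻¹) _ q :=
    (hasDerivAt_inv h0).comp_hasFDerivAt q h2
  have h4 : HasFDerivAt (fun q : E3 => ((q 0 - (p : E3) 0) ^ 2 + (q 1 - (p : E3) 1) ^ 2 +
      q 2 ^ 2 + (p : E3) 2 ^ 2) * (2 * q 2 * (p : E3) 2)⁻¹) _ q := h1.mul h3
  refine HasFDerivAt.congr_fderiv (f := CD p) h4 ?_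
  ext v
  simp only [_root_.smul_apply, smul_eq_mul, pr_apply, _root_.sub_apply, _root_.add_apply, CD]
  simp
  field_simp
  ring

lemma norm_fderiv_CD_le (p : H3) {q : E3} (hq : 0 < q 2) : ‖fderiv ℝ (CD p) q‖ * q 2 ≤ CD p q := by
  have hp := p.2
  have hC : 0 ≤ CD p q := (CD_pos p ⟨q, hq⟩).le
  rw [← le_div_iff₀ hq]
  refine ContinuousLinearMap.opNorm_le_bound _ (div_nonneg hC hq.le) fun v => ?_
  rw [(hasFDerivAt_CD p hq).fderiv]
  simp only [_root_.smul_apply, smul_eq_mul, pr_apply, _root_.add_apply]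
  set c0 := (q 0 - (p : E3) 0) / (q 2 * (p : E3) 2) with hc0
  set c1 := (q 1 - (p : E3) 1) / (q 2 * (p : E3) 2) with hc1
  set c2 := ((p : E3) 2)⁻¹ - CD p q / q 2 with hc2
  have hsum : c0 ^ 2 + c1 ^ 2 + c2 ^ 2 ≤ (CD p q / q 2) ^ 2 := by
    have : c0 ^ 2 + c1 ^ 2 + c2 ^ 2 = (CD p q / q 2) ^ 2 - (q 2 ^ 2)⁻¹ := by
      rw [hc0, hc1, hc2, CD]
      field_simp
      ring
    rw [this]
    have : 0 ≤ (q 2 ^ 2)⁻¹ := by positivity
    linarith
  have hv := norm_sq_eq v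
  rw [Real.norm_eq_abs, ← pow_le_pow_iff_left₀ (abs_nonneg _) (by positivity) two_ne_zero, sq_abs,
    mul_pow]
  calc (c0 * v 0 + c1 * v 1 + c2 * v 2) ^ 2
      ≤ (c0 ^ 2 + c1 ^ 2 + c2 ^ 2) * ‖v‖ ^ 2 := by
        rw [hv]
        nlinarith [sq_nonneg (c0 * v 1 - c1 * v 0), sq_nonneg (c0 * v 2 - c2 * v 0),
          sq_nonneg (c1 * v 2 - c2 * v 1)]
    _ ≤ (CD p q / q 2) ^ 2 * ‖v‖ ^ 2 := by gcongr

lemma hasFDerivAt_bt (p : H3) {q : E3} (hq : 0 < q 2) :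
    HasFDerivAt (bt p) ((-(3 * (CD p q ^ 4)⁻¹)) • fderiv ℝ (CD p) q) q := by
  have hC : CD p q ≠ 0 := (CD_pos p ⟨q, hq⟩).ne'
  have h1 : HasFDerivAt (CD p) (fderiv ℝ (CD p) q) q :=
    (hasFDerivAt_CD p hq).differentiableAt.hasFDerivAt
  have h2 : HasFDerivAt (fun q => CD p q ^ 3) _ q := h1.pow 3
  have h3 : HasFDerivAt (fun q => (CD p q ^ 3)⁻¹) _ q :=
    (hasDerivAt_inv (pow_ne_zero 3 hC)).comp_hasFDerivAt q h2
  refine HasFDerivAt.congr_fderiv (f := bt p) h3 ?_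
  ext v
  simp only [_root_.smul_apply, smul_eq_mul]
  simp
  field_simp

lemma norm_fderiv_bt_le (p : H3) {q : E3} (hq : 0 < q 2) :
    ‖fderiv ℝ (bt p) q‖ * q 2 ≤ 3 * bt p q := by
  have hC : 0 < CD p q := CD_pos p ⟨q, hq⟩
  rw [(hasFDerivAt_bt p hq).fderiv, norm_smul, mul_assoc, norm_neg, Real.norm_of_nonneg
    (by positivity), bt]
  calc 3 * (CD p q ^ 4)⁻¹ * (‖fderiv ℝ (CD p) q‖ * q 2) ≤ 3 * (CD p q ^ 4)⁻¹ * CD p q := by
        gcongr
        exact norm_fderiv_CD_le p hq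
    _ = _ := by field_simp

lemma contDiffOn_CD (p : H3) : ContDiffOn ℝ ∞ (CD p) UH := by
  intro q hq
  have hq' : 0 < q 2 := hq
  have hp := p.2
  have h : 2 * q 2 * (p : E3) 2 ≠ 0 := by positivity
  have h1 : ContDiffAt ℝ ∞ (fun q : E3 => (q 0 - (p : E3) 0) ^ 2 + (q 1 - (p : E3) 1) ^ 2 +
      q 2 ^ 2 + (p : E3) 2 ^ 2) q := by fun_prop
  have h2 : ContDiffAt ℝ ∞ (fun q : E3 => 2 * q 2 * (p : E3) 2) q := by fun_prop
  exact (h1.div h2 h).contDiffWithinAt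

lemma contDiffOn_bt (p : H3) : ContDiffOn ℝ ∞ (bt p) UH := by
  intro q hq
  exact ((contDiffOn_CD p q hq).pow 3).inv (pow_ne_zero 3 (CD_pos p ⟨q, hq⟩).ne')

lemma bt_harnack (p q q' : H3) : bt p q ≤ (2 * coshDist q q') ^ 3 * bt p q' := by
  rw [bt_coe, bt_coe]
  have h1 := coshDist_le q' q p
  have h2 := lt_of_lt_of_le one_pos (one_le_coshDist q p)
  have h3 := lt_of_lt_of_le one_pos (one_le_coshDist q' p)
  have h4 := lt_of_lt_of_le one_pos (one_le_coshDist q q')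
  rw [coshDist_comm q' q] at h1
  rw [inv_le_iff_one_le_mul₀ (by positivity), mul_assoc, mul_comm, mul_assoc, ← div_eq_inv_mul,
    le_div_iff₀ (by positivity), one_mul, ← mul_pow]
  calc coshDist q' p ^ 3 ≤ (2 * coshDist q q' * coshDist q p) ^ 3 := by gcongr
    _ = _ := by ring

end Pool.Agent.Helper82
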