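import Mathlib
import Pool.Agent.Helper82.Kernel

/-!
# Discrete groups of isometries and summability of the orbit sum
-/

open MeasureTheory MeasureTheory.Measure Module Set Filter Topology
open scoped ENNReal NNReal Gradient RealInnerProductSpace ContDiff

namespace Pool.Agent.Helper82

variable {Γ : Subgroup (Equiv.Perm H3)}

lemma eq_one_of_fixed (hd : IsDiscrete Γ) (ht : IsTorsionFree Γ) {γ : Equiv.Perm H3}
    (hγ : γ ∈ Γ) {p : H3} (hp : γ p = p) : γ = 1 := by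
  have hpow : ∀ n : ℕ, (γ ^ n) p = p := by
    intro n
    induction n with
    | zero => rfl
    | succ n ih => rw [pow_succ, Equiv.Perm.mul_apply, hp, ih]
  have hfin := hd p 1
  have hmem : ∀ n : ℕ, γ ^ n ∈ {γ : Equiv.Perm H3 | γ ∈ Γ ∧ coshDist p (γ p) ≤ 1} := by
    intro n
    refine ⟨pow_mem hγ n, ?_⟩
    rw [hpow n, coshDist_self]
  by_contra hne
  have hinj : Function.Injective (fun n : ℕ => γ ^ n) := by
    have key : ∀ m n : ℕ, m < n → γ ^ m ≠ γ ^ n := by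
      intro m n hmn h
      apply hne
      refine ht γ hγ (n - m) (by omega) ?_
      have h1 : γ ^ n = γ ^ m * γ ^ (n - m) := by rw [← pow_add]; congr 1; omega
      rw [h1] at h
      exact (mul_eq_left.1 h.symm)
    intro m n h
    rcases lt_trichotomy m n with h' | h' | h'
    · exact absurd h (key m n h')
    · exact h'
    · exact absurd h.symm (key n m h')
  exact Set.infinite_of_injective_forall_mem hinj hmem hfin

lemma countable_of_discrete (hd : IsDiscrete Γ) : Countable Γ := by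
  let p : H3 := refPt 0
  have h1 : (Γ : Set (Equiv.Perm H3)) ⊆
      ⋃ n : ℕ, {γ : Equiv.Perm H3 | γ ∈ Γ ∧ coshDist p (γ p) ≤ n} := by
    intro γ hγ
    obtain ⟨n, hn⟩ := exists_nat_ge (coshDist p (γ p))
    exact mem_iUnion.2 ⟨n, hγ, hn⟩
  have h2 : (Γ : Set (Equiv.Perm H3)).Countable :=
    (Set.countable_iUnion fun n : ℕ => (hd p (n : ℝ)).countable).mono h1
  exact h2.to_subtype

lemma coshDist_close {p a b : H3} {δ : ℝ} (hδ1 : δ ≤ 1)
    (ha : coshDist p a ≤ 1 + δ) (hb : coshDist p b ≤ 1 + δ) : coshDist a b ≤ 1 + 16 * δ := by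
  have hp := p.2
  have ha0 := a.2
  have hb0 := b.2
  have h1 := height_le p a
  have h2 := height_le p b
  have hδ : 0 ≤ δ := by have := one_le_coshDist p a; linarith
  have h1' : (p : E3) 2 ≤ 4 * (a : E3) 2 := by nlinarith
  have h2' : (p : E3) 2 ≤ 4 * (b : E3) 2 := by nlinarith
  unfold coshDist at ha hb ⊢
  have ha' : dist (p : E3) a ^ 2 ≤ δ * (2 * (p : E3) 2 * (a : E3) 2) := by
    rw [← div_le_iff₀ (by positivity)]; linarith
  have hb' : dist (p : E3) b ^ 2 ≤ δ * (2 * (p : E3) 2 * (b : E3) 2) := by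
    rw [← div_le_iff₀ (by positivity)]; linarith
  have htri : dist (a : E3) b ≤ dist (p : E3) a + dist (p : E3) b := by
    have := dist_triangle_left (a : E3) b p
    exact this
  have hab : dist (a : E3) b ^ 2 ≤ 2 * dist (p : E3) a ^ 2 + 2 * dist (p : E3) b ^ 2 := by
    have h0 : 0 ≤ dist (a : E3) b := dist_nonneg
    nlinarith [sq_nonneg (dist (p : E3) a - dist (p : E3) b)]
  have : dist (a : E3) b ^ 2 / (2 * (a : E3) 2 * (b : E3) 2) ≤ 16 * δ := by
    rw [div_le_iff₀ (by positivity)]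
    have h3 : δ * ((p : E3) 2 * (a : E3) 2) ≤ δ * (4 * (b : E3) 2 * (a : E3) 2) := by gcongr
    have h4 : δ * ((p : E3) 2 * (b : E3) 2) ≤ δ * (4 * (a : E3) 2 * (b : E3) 2) := by gcongr
    nlinarith
  linarith

/-- The base point `(0, 0, 1)`. -/
noncomputable def oo : H3 := ⟨EuclideanSpace.single 2 1, by simp⟩

lemma CD_oo (q : E3) : CD oo q = (‖q‖ ^ 2 + 1) / (2 * q 2) := by
  rw [CD, norm_sq_eq]
  simp [oo]

lemma exists_separation (hd : IsDiscrete Γ) (ht : IsTorsionFree Γ) :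
    ∃ δ : ℝ, 0 < δ ∧ δ ≤ 1 ∧ ∀ γ ∈ Γ, coshDist oo (γ oo) ≤ 1 + 16 * δ → γ = 1 := by
  classical
  let F : Finset (Equiv.Perm H3) := (hd oo 17).toFinset.erase 1
  have hF : ∀ γ ∈ F, 0 < coshDist oo (γ oo) - 1 := by
    intro γ hγ
    have h1 := Finset.ne_of_mem_erase hγ
    have h2 := Finset.mem_of_mem_erase hγ
    rw [Set.Finite.mem_toFinset] at h2
    rcases (one_le_coshDist oo (γ oo)).lt_or_eq with h | h
    · linarith
    · exact absurd (eq_one_of_fixed hd ht h2.1 (eq_of_coshDist_eq_one h.symm).symm) h1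
  obtain ⟨d, hd0, hd1⟩ : ∃ d : ℝ, 0 < d ∧ ∀ γ ∈ F, d ≤ coshDist oo (γ oo) - 1 := by
    rcases F.eq_empty_or_nonempty with h | h
    · exact ⟨1, one_pos, by simp [h]⟩
    · obtain ⟨γ, hγ, hmin⟩ := F.exists_min_image (fun γ => coshDist oo (γ oo) - 1) h
      exact ⟨_, hF γ hγ, hmin⟩
  refine ⟨min 1 (d / 17), by positivity, min_le_left _ _, fun γ hγ h => ?_⟩
  by_contra hne
  have h1 : min 1 (d / 17) ≤ 1 := min_le_left _ _
  have h2 : min 1 (d / 17) ≤ d / 17 := min_le_right _ _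
  have hmem : γ ∈ F := by
    refine Finset.mem_erase.2 ⟨hne, ?_⟩
    rw [Set.Finite.mem_toFinset]
    exact ⟨hγ, by linarith⟩
  have := hd1 γ hmem
  linarith

lemma ball_facts {a : H3} {c : ℝ} (hc : c ≤ 1 / 2) {p : E3}
    (hp : p ∈ Metric.ball (a : E3) (c * (a : E3) 2)) :
    ∃ hp0 : 0 < p 2, p 2 ≤ 2 * (a : E3) 2 ∧ coshDist ⟨p, hp0⟩ a ≤ 1 + c ^ 2 := by
  have ha := a.2
  rw [Metric.mem_ball] at hp
  have h1 : |p 2 - (a : E3) 2| ≤ dist p a := by
    have := dist_sq_eq p a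
    rw [← pow_le_pow_iff_left₀ (abs_nonneg _) dist_nonneg two_ne_zero, sq_abs, this]
    nlinarith [sq_nonneg (p 0 - (a : E3) 0), sq_nonneg (p 1 - (a : E3) 1)]
  rw [abs_le] at h1
  have h2 : c * (a : E3) 2 ≤ 1 / 2 * (a : E3) 2 := by gcongr
  have hp0 : 0 < p 2 := by linarith [h1.1]
  refine ⟨hp0, by linarith [h1.2], ?_⟩
  unfold coshDist
  simp only
  have h3 : dist p a ^ 2 / (2 * p 2 * (a : E3) 2) ≤ c ^ 2 := by
    rw [div_le_iff₀ (by positivity)]
    have h4 : dist p a ^ 2 ≤ (c * (a : E3) 2) ^ 2 := by gcongr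
    have h5 : (a : E3) 2 ≤ 2 * p 2 := by linarith [h1.1]
    nlinarith [mul_le_mul_of_nonneg_left h5 (mul_nonneg (sq_nonneg c) ha.le)]
  linarith

/-- Summability of the orbit sum at the base point. -/
lemma summable_bt_oo (hΓ : Γ ≤ HIsom) (hd : IsDiscrete Γ) (ht : IsTorsionFree Γ) :
    Summable fun γ : Γ => bt ((γ⁻¹ : Γ) • oo) oo := by
  classical
  have hcount := countable_of_discrete hd
  obtain ⟨δ, hδ0, hδ1, hsep⟩ := exists_separation hd ht
  let c : ℝ := δ / 2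
  have hc0 : 0 < c := by positivity
  have hc : c ≤ 1 / 2 := by simp only [c]; linarith
  have hcδ : c ^ 2 ≤ δ := by simp only [c]; nlinarith
  let a : Γ → H3 := fun γ => (γ⁻¹ : Γ) • oo
  let D : Γ → Set E3 := fun γ => Metric.ball (a γ : E3) (c * (a γ : E3) 2)
  have hDm : ∀ γ, MeasurableSet (D γ) := fun γ => Metric.isOpen_ball.measurableSet
  have hDd : Pairwise (Function.onFun Disjoint D) := by
    intro γ γ' hne
    rw [Function.onFun, Set.disjoint_left]
    intro p hp hp'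
    obtain ⟨hp0, -, h1⟩ := ball_facts hc hp
    obtain ⟨hp0', -, h2⟩ := ball_facts hc hp'
    have h3 := coshDist_close hδ1 (h1.trans (by linarith)) (h2.trans (by linarith))
    apply hne
    have h4 : coshDist oo ((γ' * γ⁻¹ : Γ) • oo) = coshDist (a γ) (a γ') := by
      have h5 := hΓ (γ'.2) (a γ) (a γ')
      have h6 : (γ' : Equiv.Perm H3) (a γ') = oo := smul_inv_smul γ' oo
      have h7 : (γ' : Equiv.Perm H3) (a γ) = (γ' * γ⁻¹ : Γ) • oo := by
        rw [mul_smul]; rfl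
      rw [h6, h7] at h5
      rw [← h5, coshDist_comm]
    have h5 := hsep (γ' * γ⁻¹ : Γ) (γ' * γ⁻¹ : Γ).2 (by
      change coshDist oo ((γ' * γ⁻¹ : Γ) • oo) ≤ _
      rw [h4]; exact h3)
    have h6 : γ' * γ⁻¹ = 1 := Subtype.ext h5
    exact (mul_inv_eq_one.1 h6).symm
  let f : E3 → ℝ := fun p => ((1 + ‖p‖ ^ 2) ^ 3)⁻¹
  have hfint : Integrable f := by
    have := integrable_rpow_neg_one_add_norm_sq (E := E3) (μ := volume) (r := 6) (by simp; norm_num)
    refine this.congr (Eventually.of_forall fun p => ?_)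
    have hp : (0:ℝ) ≤ 1 + ‖p‖ ^ 2 := by positivity
    simp only [f]
    rw [show (-6 / 2 : ℝ) = -((3 : ℕ) : ℝ) by norm_num, Real.rpow_neg hp, Real.rpow_natCast]
  have hf0 : ∀ p, 0 ≤ f p := fun p => by simp only [f]; positivity
  have hfin : ∫⁻ p, ENNReal.ofReal (f p) < ⊤ := by
    have := hfint.lintegral_lt_top
    exact this
  have hkey : ∀ γ : Γ, ENNReal.ofReal (bt (a γ) oo * (c ^ 3 / 4096)) *
      volume (Metric.ball (0 : E3) 1) ≤ ∫⁻ p in D γ, ENNReal.ofReal (f p) := by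
    intro γ
    have ha := (a γ).2
    have h1 : ENNReal.ofReal (bt (a γ) oo / (4096 * (a γ : E3) 2 ^ 3)) * volume (D γ) ≤
        ∫⁻ p in D γ, ENNReal.ofReal (f p) := by
      rw [← setLIntegral_const]
      apply setLIntegral_mono' (hDm γ)
      intro p hp
      apply ENNReal.ofReal_le_ofReal
      obtain ⟨hp0, h2, h3⟩ := ball_facts hc hp
      have h4 : coshDist (a γ) ⟨p, hp0⟩ ≤ 2 := by rw [coshDist_comm]; linarith
      have h5 := bt_harnack (a γ) oo ⟨p, hp0⟩
      have h6 := coshDist_le oo (a γ) ⟨p, hp0⟩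
      have h7 := one_le_coshDist oo (a γ)
      have h8 := one_le_coshDist oo ⟨p, hp0⟩
      have h9 : CD oo p = coshDist ⟨p, hp0⟩ oo := CD_coe oo ⟨p, hp0⟩
      rw [CD_oo, coshDist_comm] at h9
      have h10 : coshDist oo ⟨p, hp0⟩ ≤ 4 * coshDist oo (a γ) := by nlinarith
      rw [← h9, div_le_iff₀ (by positivity)] at h10
      rw [div_le_iff₀ (by positivity), bt_coe, inv_le_iff_one_le_mul₀ (by positivity)]
      simp only [f]
      have h11 : ‖p‖ ^ 2 + 1 ≤ 16 * coshDist oo (a γ) * (a γ : E3) 2 := by nlinarith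
      have h12 : (1 + ‖p‖ ^ 2) ^ 3 ≤ (16 * coshDist oo (a γ) * (a γ : E3) 2) ^ 3 := by
        gcongr
        linarith
      have h13 : (0:ℝ) < (1 + ‖p‖ ^ 2) ^ 3 := by positivity
      have e : ((1 + ‖p‖ ^ 2) ^ 3)⁻¹ * (4096 * (a γ : E3) 2 ^ 3) * coshDist oo (a γ) ^ 3 =
          (16 * coshDist oo (a γ) * (a γ : E3) 2) ^ 3 / (1 + ‖p‖ ^ 2) ^ 3 := by
        field_simp
        ring
      rw [e, le_div_iff₀ h13, one_mul]
      exact h12
    refine le_trans (le_of_eq ?_) h1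
    have h14 : volume (D γ) = ENNReal.ofReal ((c * (a γ : E3) 2) ^ finrank ℝ E3) *
        volume (Metric.ball (0 : E3) 1) :=
      Measure.addHaar_ball volume (a γ : E3) (by positivity)
    have h15 : finrank ℝ E3 = 3 := by simp
    rw [h14, h15, ← mul_assoc, ← ENNReal.ofReal_mul
      (div_nonneg (bt_pos _ _).le (by positivity))]
    congr 2
    field_simp
  have hsum : (∑' γ : Γ, ENNReal.ofReal (bt (a γ) oo * (c ^ 3 / 4096))) *
      volume (Metric.ball (0 : E3) 1) < ⊤ := by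
    rw [← ENNReal.tsum_mul_right]
    calc _ ≤ ∑' γ : Γ, ∫⁻ p in D γ, ENNReal.ofReal (f p) := ENNReal.tsum_le_tsum hkey
      _ = ∫⁻ p in ⋃ γ, D γ, ENNReal.ofReal (f p) := (lintegral_iUnion hDm hDd _).symm
      _ ≤ ∫⁻ p, ENNReal.ofReal (f p) := setLIntegral_le_lintegral _ _
      _ < ⊤ := hfin
  have hvol : volume (Metric.ball (0 : E3) 1) ≠ 0 := (Metric.measure_ball_pos _ _ one_pos).ne'
  have hsum2 : ∑' γ : Γ, ENNReal.ofReal (bt (a γ) oo * (c ^ 3 / 4096)) ≠ ⊤ := by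
    intro h
    rw [h, ENNReal.top_mul hvol] at hsum
    exact lt_irrefl _ hsum
  have h1 := ENNReal.summable_toReal hsum2
  have h2 : Summable fun γ : Γ => bt (a γ) oo * (c ^ 3 / 4096) := by
    refine h1.congr fun γ => ?_
    rw [ENNReal.toReal_ofReal (mul_nonneg (bt_pos _ _).le (by positivity))]
  exact (summable_mul_right_iff (by positivity)).1 h2

end Pool.Agent.Helper82
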