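import Mathlib
import Pool.Agent.Helper82.OrbitSum

/-!
# The Poincaré series of the kernel and the associated partition of unity
-/

open MeasureTheory MeasureTheory.Measure Module Set Filter Topology
open scoped ENNReal NNReal Gradient RealInnerProductSpace ContDiff

namespace Pool.Agent.Helper82

variable {Γ : Subgroup (Equiv.Perm H3)}

/-- The point `γ⁻¹ o` of the orbit of the base point. -/
noncomputable def op (γ : Γ) : H3 := (γ⁻¹ : Γ) • oo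

/-- The Poincaré series `∑ cosh (dist (q, γ⁻¹ o)) ^ (-3)`. -/
noncomputable def Ph (Γ : Subgroup (Equiv.Perm H3)) (q : E3) : ℝ := ∑' γ : Γ, bt (op γ) q

lemma summable_bt (hΓ : Γ ≤ HIsom) (hd : IsDiscrete Γ) (ht : IsTorsionFree Γ) (q : H3) :
    Summable fun γ : Γ => bt (op γ) q := by
  have h := (summable_bt_oo hΓ hd ht).mul_left ((2 * coshDist q oo) ^ 3)
  exact Summable.of_nonneg_of_le (fun γ => (bt_pos _ _).le) (fun γ => bt_harnack _ _ _) h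

lemma Ph_pos (hΓ : Γ ≤ HIsom) (hd : IsDiscrete Γ) (ht : IsTorsionFree Γ) (q : H3) :
    0 < Ph Γ q :=
  (summable_bt hΓ hd ht q).tsum_pos (fun γ => (bt_pos _ _).le) 1 (bt_pos _ _)

lemma bt_op_smul (hΓ : Γ ≤ HIsom) (γ g : Γ) (q : H3) :
    bt (op γ) (g • q : H3) = bt (op (γ * g)) q := by
  have h := bt_map (hΓ g.2) (op γ) q
  have h2 : ((g : Equiv.Perm H3)⁻¹ : Equiv.Perm H3) (op γ) = op (γ * g) := by
    simp only [op]
    rw [mul_inv_rev, mul_smul]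
    rfl
  rw [h2] at h
  exact h

lemma Ph_smul (hΓ : Γ ≤ HIsom) (g : Γ) (q : H3) : Ph Γ (g • q : H3) = Ph Γ q := by
  unfold Ph
  simp_rw [bt_op_smul hΓ]
  exact (Equiv.mulRight g).tsum_eq (fun γ : Γ => bt (op γ) q)

lemma local_bound (q0 : H3) {x : E3} (hx : x ∈ Metric.ball (q0 : E3) (1 / 2 * (q0 : E3) 2)) :
    ∃ hx0 : 0 < x 2, ∀ p : H3, bt p x ≤ 16 * bt p q0 ∧
      ‖fderiv ℝ (bt p) x‖ ≤ 96 / (q0 : E3) 2 * bt p q0 := by
  obtain ⟨hx0, h1, h2⟩ := ball_facts (c := 1 / 2) le_rfl hx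
  have hq0 := q0.2
  have h3 : (q0 : E3) 2 ≤ 2 * x 2 := by
    have h4 : |x 2 - (q0 : E3) 2| ≤ dist x q0 := by
      have := dist_sq_eq x q0
      rw [← pow_le_pow_iff_left₀ (abs_nonneg _) dist_nonneg two_ne_zero, sq_abs, this]
      nlinarith [sq_nonneg (x 0 - (q0 : E3) 0), sq_nonneg (x 1 - (q0 : E3) 1)]
    rw [Metric.mem_ball] at hx
    rw [abs_le] at h4
    linarith [h4.1]
  refine ⟨hx0, fun p => ?_⟩
  have h5 : bt p x ≤ 16 * bt p q0 := by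
    have h6 := bt_harnack p ⟨x, hx0⟩ q0
    have h7 := one_le_coshDist ⟨x, hx0⟩ q0
    have h8 := bt_pos p q0
    refine h6.trans ?_
    gcongr
    calc (2 * coshDist ⟨x, hx0⟩ q0) ^ 3 ≤ (2 * (1 + (1 / 2) ^ 2)) ^ 3 := by gcongr
      _ ≤ 16 := by norm_num
  refine ⟨h5, ?_⟩
  have h9 := norm_fderiv_bt_le p hx0
  have h10 : ‖fderiv ℝ (bt p) x‖ * x 2 ≤ 96 / (q0 : E3) 2 * bt p q0 * x 2 := by
    refine h9.trans ?_
    have h11 := bt_pos p q0
    have h12 : 1 ≤ 2 * x 2 / (q0 : E3) 2 := by rw [le_div_iff₀ hq0]; linarith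
    calc 3 * bt p x ≤ 3 * (16 * bt p q0) := by gcongr
      _ ≤ 3 * (16 * bt p q0) * (2 * x 2 / (q0 : E3) 2) := by
        apply le_mul_of_one_le_right (by positivity) h12
      _ = _ := by ring
  exact le_of_mul_le_mul_right h10 hx0

lemma hasFDerivAt_Ph (hΓ : Γ ≤ HIsom) (hd : IsDiscrete Γ) (ht : IsTorsionFree Γ) (q0 : H3) :
    (Summable fun γ : Γ => ‖fderiv ℝ (bt (op γ)) q0‖) ∧
    ∀ x ∈ Metric.ball (q0 : E3) (1 / 2 * (q0 : E3) 2),
    HasFDerivAt (Ph Γ) (∑' γ : Γ, fderiv ℝ (bt (op γ)) x) x := by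
  have hq0 := q0.2
  have hu : Summable fun γ : Γ => 96 / (q0 : E3) 2 * bt (op γ) q0 :=
    (summable_bt hΓ hd ht q0).mul_left _
  have hmem : (q0 : E3) ∈ Metric.ball (q0 : E3) (1 / 2 * (q0 : E3) 2) :=
    Metric.mem_ball_self (by positivity)
  refine ⟨Summable.of_nonneg_of_le (fun _ => norm_nonneg _)
    (fun γ => ((local_bound q0 hmem).2 _).2) hu, fun x hx => ?_⟩
  exact hasFDerivAt_tsum_of_isPreconnected hu Metric.isOpen_ball
    (convex_ball _ _).isPreconnected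
    (fun γ y hy => ((hasFDerivAt_bt (op γ) (local_bound q0 hy).1).differentiableAt).hasFDerivAt)
    (fun γ y hy => ((local_bound q0 hy).2 _).2) hmem (summable_bt hΓ hd ht q0) hx

lemma fderiv_Ph (hΓ : Γ ≤ HIsom) (hd : IsDiscrete Γ) (ht : IsTorsionFree Γ) (q : H3) :
    HasFDerivAt (Ph Γ) (∑' γ : Γ, fderiv ℝ (bt (op γ)) q) q := by
  have hq := q.2
  exact (hasFDerivAt_Ph hΓ hd ht q).2 q (Metric.mem_ball_self (by positivity))

lemma summable_norm_fderiv (hΓ : Γ ≤ HIsom) (hd : IsDiscrete Γ) (ht : IsTorsionFree Γ) (q : H3) :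
    Summable fun γ : Γ => ‖fderiv ℝ (bt (op γ)) q‖ := (hasFDerivAt_Ph hΓ hd ht q).1

lemma contDiffOn_Ph (hΓ : Γ ≤ HIsom) (hd : IsDiscrete Γ) (ht : IsTorsionFree Γ) :
    ContDiffOn ℝ 1 (Ph Γ) UH := by
  have hdiff : DifferentiableOn ℝ (Ph Γ) UH := fun q hq =>
    (fderiv_Ph hΓ hd ht ⟨q, hq⟩).differentiableAt.differentiableWithinAt
  have hcont : ContinuousOn (fderiv ℝ (Ph Γ)) UH := by
    intro q hq
    apply ContinuousAt.continuousWithinAt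
    have hq' : 0 < q 2 := hq
    let q0 : H3 := ⟨q, hq⟩
    set s := Metric.ball (q0 : E3) (1 / 2 * (q0 : E3) 2) with hs
    have hmem : s ∈ 𝓝 q := Metric.isOpen_ball.mem_nhds (Metric.mem_ball_self (by positivity))
    have h1 : ContinuousOn (fun x => ∑' γ : Γ, fderiv ℝ (bt (op γ)) x) s := by
      refine continuousOn_tsum (fun γ => ?_) ((summable_bt hΓ hd ht q0).mul_left
        (96 / (q0 : E3) 2)) (fun γ x hx => ((local_bound q0 hx).2 _).2)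
      have h2 : ContinuousOn (fderiv ℝ (bt (op γ))) UH :=
        (contDiffOn_bt (op γ)).continuousOn_fderiv_of_isOpen isOpen_UH (by simp)
      exact h2.mono fun x hx => (local_bound q0 hx).1
    refine (h1.continuousAt hmem).congr ?_
    filter_upwards [hmem] with x hx
    exact ((hasFDerivAt_Ph hΓ hd ht q0).2 x hx).fderiv.symm
  have h := (contDiffOn_succ_iff_fderiv_of_isOpen (n := 0) (f := Ph Γ) isOpen_UH).2
    ⟨hdiff, by simp, contDiffOn_zero.2 hcont⟩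
  simpa using h

lemma norm_fderiv_Ph_le (hΓ : Γ ≤ HIsom) (hd : IsDiscrete Γ) (ht : IsTorsionFree Γ) (q : H3) :
    ‖fderiv ℝ (Ph Γ) q‖ * (q : E3) 2 ≤ 3 * Ph Γ q := by
  have hq := q.2
  rw [(fderiv_Ph hΓ hd ht q).fderiv]
  have h1 := norm_tsum_le_tsum_norm (summable_norm_fderiv hΓ hd ht q)
  have h2 : (∑' γ : Γ, ‖fderiv ℝ (bt (op γ)) q‖) * (q : E3) 2 ≤ 3 * Ph Γ q := by
    rw [← tsum_mul_right, Ph, ← tsum_mul_left]
    exact ((summable_norm_fderiv hΓ hd ht q).mul_right _).tsum_le_tsum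
      (fun γ => norm_fderiv_bt_le (op γ) hq) ((summable_bt hΓ hd ht q).mul_left _)
  calc _ ≤ (∑' γ : Γ, ‖fderiv ℝ (bt (op γ)) q‖) * (q : E3) 2 := by gcongr
    _ ≤ _ := h2

/-- The smooth partition of unity: `η = β / Φ`. -/
noncomputable def et (Γ : Subgroup (Equiv.Perm H3)) (q : E3) : ℝ := bt oo q / Ph Γ q

lemma et_pos (hΓ : Γ ≤ HIsom) (hd : IsDiscrete Γ) (ht : IsTorsionFree Γ) (q : H3) :
    0 < et Γ q := div_pos (bt_pos _ _) (Ph_pos hΓ hd ht q)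

lemma contDiffOn_et (hΓ : Γ ≤ HIsom) (hd : IsDiscrete Γ) (ht : IsTorsionFree Γ) :
    ContDiffOn ℝ 1 (et Γ) UH :=
  ((contDiffOn_bt oo).of_le (by simp)).div (contDiffOn_Ph hΓ hd ht)
    fun q hq => (Ph_pos hΓ hd ht ⟨q, hq⟩).ne'

lemma op_one : op (1 : Γ) = oo := by simp [op]

lemma et_smul (hΓ : Γ ≤ HIsom) (γ : Γ) (q : H3) :
    et Γ (γ • q : H3) = bt (op γ) q / Ph Γ q := by
  have h := bt_op_smul hΓ 1 γ q
  rw [op_one, one_mul] at h
  rw [et, Ph_smul hΓ, h]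

lemma hasSum_et (hΓ : Γ ≤ HIsom) (hd : IsDiscrete Γ) (ht : IsTorsionFree Γ) (q : H3) :
    HasSum (fun γ : Γ => et Γ (γ • q : H3)) 1 := by
  have h := (summable_bt hΓ hd ht q).hasSum.div_const (Ph Γ q)
  have h2 : (∑' γ : Γ, bt (op γ) q) / Ph Γ q = 1 := div_self (Ph_pos hΓ hd ht q).ne'
  rw [h2] at h
  exact h.congr_fun fun γ => et_smul hΓ γ q

lemma hasFDerivAt_et (hΓ : Γ ≤ HIsom) (hd : IsDiscrete Γ) (ht : IsTorsionFree Γ) (q : H3) :
    HasFDerivAt (et Γ) ((Ph Γ q)⁻¹ • fderiv ℝ (bt oo) q -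
      (bt oo q / Ph Γ q ^ 2) • fderiv ℝ (Ph Γ) q) q := by
  have h0 := (Ph_pos hΓ hd ht q).ne'
  have h1 : HasFDerivAt (bt oo) (fderiv ℝ (bt oo) q) q :=
    (hasFDerivAt_bt oo q.2).differentiableAt.hasFDerivAt
  have h2 : HasFDerivAt (Ph Γ) (fderiv ℝ (Ph Γ) q) q :=
    (fderiv_Ph hΓ hd ht q).differentiableAt.hasFDerivAt
  have h3 : HasFDerivAt (fun q => (Ph Γ q)⁻¹) _ (q : E3) :=
    (hasDerivAt_inv h0).comp_hasFDerivAt (q : E3) h2
  have h4 : HasFDerivAt (fun q => bt oo q * (Ph Γ q)⁻¹) _ (q : E3) := h1.mul h3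
  refine HasFDerivAt.congr_fderiv (f := et Γ) h4 ?_
  ext v
  simp only [_root_.smul_apply, smul_eq_mul, _root_.sub_apply, _root_.add_apply]
  field_simp
  ring

lemma norm_fderiv_et_le (hΓ : Γ ≤ HIsom) (hd : IsDiscrete Γ) (ht : IsTorsionFree Γ) (q : H3) :
    ‖fderiv ℝ (et Γ) q‖ * (q : E3) 2 ≤ 6 * et Γ q := by
  have hq := q.2
  have hP := Ph_pos hΓ hd ht q
  have hb := bt_pos oo q
  rw [(hasFDerivAt_et hΓ hd ht q).fderiv]
  calc ‖(Ph Γ q)⁻¹ • fderiv ℝ (bt oo) q - (bt oo q / Ph Γ q ^ 2) • fderiv ℝ (Ph Γ) q‖ *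
        (q : E3) 2 ≤ (‖(Ph Γ q)⁻¹ • fderiv ℝ (bt oo) q‖ +
          ‖(bt oo q / Ph Γ q ^ 2) • fderiv ℝ (Ph Γ) q‖) * (q : E3) 2 := by
        gcongr
        exact norm_sub_le _ _
    _ = (Ph Γ q)⁻¹ * (‖fderiv ℝ (bt oo) q‖ * (q : E3) 2) +
        (bt oo q / Ph Γ q ^ 2) * (‖fderiv ℝ (Ph Γ) q‖ * (q : E3) 2) := by
        rw [norm_smul, norm_smul, Real.norm_of_nonneg (by positivity),
          Real.norm_of_nonneg (by positivity)]
        ring
    _ ≤ (Ph Γ q)⁻¹ * (3 * bt oo q) + (bt oo q / Ph Γ q ^ 2) * (3 * Ph Γ q) :=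
        add_le_add (mul_le_mul_of_nonneg_left (norm_fderiv_bt_le oo hq) (by positivity))
          (mul_le_mul_of_nonneg_left (norm_fderiv_Ph_le hΓ hd ht q) (by positivity))
    _ = 6 * et Γ q := by
        rw [et]
        field_simp
        ring

end Pool.Agent.Helper82
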