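import Mathlib
import Pool.Agent.Helper82.Poincare

/-!
# Cutoff functions and the limiting inequality
-/

open MeasureTheory MeasureTheory.Measure Module Set Filter Topology
open scoped ENNReal NNReal Gradient RealInnerProductSpace ContDiff

namespace Pool.Agent.Helper82

/-- Smooth step: zero on `(-∞, 1]`, one on `[2, ∞)`. -/
noncomputable def st (x : ℝ) : ℝ := Real.smoothTransition (x - 1)

lemma contDiff_st : ContDiff ℝ 1 st := Real.smoothTransition.contDiff.comp (by fun_prop)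

lemma st_nonneg (x : ℝ) : 0 ≤ st x := Real.smoothTransition.nonneg _

lemma st_le_one (x : ℝ) : st x ≤ 1 := Real.smoothTransition.le_one _

lemma st_zero {x : ℝ} (h : x ≤ 1) : st x = 0 :=
  Real.smoothTransition.zero_of_nonpos (by linarith)

lemma st_one {x : ℝ} (h : 2 ≤ x) : st x = 1 :=
  Real.smoothTransition.one_of_one_le (by linarith)

lemma exists_st_bound : ∃ M : ℝ, 0 ≤ M ∧ ∀ x, |x * deriv st x| ≤ M := by
  have hc : Continuous (fun x => x * deriv st x) :=
    continuous_id.mul (contDiff_st.continuous_deriv (by norm_num))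
  have hs : HasCompactSupport (fun x => x * deriv st x) := by
    refine HasCompactSupport.intro (isCompact_Icc (a := (1:ℝ)) (b := 2)) fun x hx => ?_
    have h0 : deriv st x = 0 := by
      rcases lt_or_ge x 1 with h | h
      · have : st =ᶠ[𝓝 x] fun _ => 0 := by
          filter_upwards [Iio_mem_nhds h] with y hy
          exact st_zero (le_of_lt hy)
        rw [this.deriv_eq]; simp
      · have h2 : 2 < x := by
          by_contra h2
          exact hx ⟨h, not_lt.1 h2⟩
        have : st =ᶠ[𝓝 x] fun _ => 1 := by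
          filter_upwards [Ioi_mem_nhds h2] with y hy
          exact st_one (le_of_lt hy)
        rw [this.deriv_eq]; simp
    rw [h0, mul_zero]
  obtain ⟨M, hM⟩ := hc.bounded_above_of_compact_support hs
  exact ⟨M, (norm_nonneg _).trans (hM 0), fun x => hM x⟩

lemma contDiff_of_support {F : Type*} [NormedAddCommGroup F] [NormedSpace ℝ F] {g : E3 → F}
    (hg : ContDiffOn ℝ 1 g UH) {K : Set E3} (hK : IsClosed K) (hKU : K ⊆ UH)
    (hs : ∀ q, q ∉ K → g q = 0) : ContDiff ℝ 1 g := by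
  rw [contDiff_iff_contDiffAt]
  intro q
  by_cases hq : q ∈ UH
  · exact hg.contDiffAt (isOpen_UH.mem_nhds hq)
  · have : g =ᶠ[𝓝 q] fun _ => 0 := by
      filter_upwards [hK.isOpen_compl.mem_nhds fun h => hq (hKU h)] with y hy
      exact hs y hy
    exact contDiffAt_const.congr_of_eventuallyEq this

/-- A compact exhaustion of the half-space. -/
def KK (c : ℝ) : Set E3 := {q | ‖q‖ ^ 2 + 1 ≤ 2 * c * q 2}

lemma isClosed_KK (c : ℝ) : IsClosed (KK c) :=
  isClosed_le (by fun_prop) (by fun_prop)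

lemma KK_subset {c : ℝ} (hc : 0 ≤ c) : KK c ⊆ UH := by
  intro q hq
  have hq' : ‖q‖ ^ 2 + 1 ≤ 2 * c * q 2 := hq
  by_contra h
  have h' : q 2 ≤ 0 := not_lt.1 h
  nlinarith [sq_nonneg ‖q‖, mul_nonneg hc (neg_nonneg.2 h')]

lemma isCompact_KK {c : ℝ} (hc : 0 ≤ c) : IsCompact (KK c) := by
  refine (isCompact_closedBall (0 : E3) (2 * c)).of_isClosed_subset (isClosed_KK c) ?_
  intro q hq
  have hq' : ‖q‖ ^ 2 + 1 ≤ 2 * c * q 2 := hq
  rw [mem_closedBall_zero_iff]
  have h1 : q 2 ≤ ‖q‖ := by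
    have := norm_sq_eq q
    have h2 : q 2 ^ 2 ≤ ‖q‖ ^ 2 := by nlinarith [sq_nonneg (q 0), sq_nonneg (q 1)]
    exact le_of_sq_le_sq h2 (norm_nonneg _)
  by_contra h
  have h' : 2 * c < ‖q‖ := not_le.1 h
  have h3 : 2 * c * q 2 ≤ 2 * c * ‖q‖ := by gcongr
  nlinarith [norm_nonneg q]

/-- The truncated partition function. -/
noncomputable def zk (Γ : Subgroup (Equiv.Perm H3)) (k : ℕ) (q : E3) : ℝ :=
  open Classical in if 0 < q 2 then st (k * bt oo q) * et Γ q else 0

variable {Γ : Subgroup (Equiv.Perm H3)}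

lemma zk_eq (k : ℕ) {q : E3} (hq : 0 < q 2) : zk Γ k q = st (k * bt oo q) * et Γ q := by
  simp only [zk, if_pos hq]

lemma zk_zero {k : ℕ} {q : E3} (hq : q ∉ KK k) : zk Γ k q = 0 := by
  by_cases h : 0 < q 2
  · rw [zk_eq k h]
    have h1 : CD oo q = (‖q‖ ^ 2 + 1) / (2 * q 2) := CD_oo q
    have h2 : (k : ℝ) < CD oo q := by
      rw [h1, lt_div_iff₀ (by positivity)]
      have : ¬ (‖q‖ ^ 2 + 1 ≤ 2 * k * q 2) := hq
      linarith
    have h3 : 1 ≤ CD oo q := one_le_CD oo ⟨q, h⟩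
    have h4 : (k : ℝ) * bt oo q ≤ 1 := by
      rw [bt, ← div_eq_mul_inv, div_le_one (by positivity)]
      calc (k : ℝ) ≤ CD oo q := h2.le
        _ ≤ CD oo q ^ 3 := le_self_pow₀ h3 (by norm_num)
    rw [st_zero h4, zero_mul]
  · simp only [zk, if_neg h]

lemma contDiffOn_zk (hΓ : Γ ≤ HIsom) (hd : IsDiscrete Γ) (ht : IsTorsionFree Γ) (k : ℕ) :
    ContDiffOn ℝ 1 (zk Γ k) UH := by
  have h1 : ContDiffOn ℝ 1 (fun q => st (k * bt oo q) * et Γ q) UH := by
    refine ContDiffOn.mul ?_ (contDiffOn_et hΓ hd ht)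
    exact contDiff_st.comp_contDiffOn (contDiffOn_const.mul ((contDiffOn_bt oo).of_le (by simp)))
  exact h1.congr fun q hq => zk_eq k hq

lemma contDiff_zk (hΓ : Γ ≤ HIsom) (hd : IsDiscrete Γ) (ht : IsTorsionFree Γ) (k : ℕ) :
    ContDiff ℝ 1 (zk Γ k) :=
  contDiff_of_support (contDiffOn_zk hΓ hd ht k) (isClosed_KK k) (KK_subset (Nat.cast_nonneg k))
    fun _ hq => zk_zero hq

lemma zk_nonneg (hΓ : Γ ≤ HIsom) (hd : IsDiscrete Γ) (ht : IsTorsionFree Γ) (k : ℕ) (q : E3) :
    0 ≤ zk Γ k q := by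
  by_cases h : 0 < q 2
  · rw [zk_eq k h]
    exact mul_nonneg (st_nonneg _) (et_pos hΓ hd ht ⟨q, h⟩).le
  · simp only [zk, if_neg h]; exact le_rfl

lemma zk_le (hΓ : Γ ≤ HIsom) (hd : IsDiscrete Γ) (ht : IsTorsionFree Γ) (k : ℕ) (q : H3) :
    zk Γ k q ≤ et Γ q := by
  rw [zk_eq k q.2]
  exact mul_le_of_le_one_left (et_pos hΓ hd ht q).le (st_le_one _)

lemma contDiff_zkYY (hΓ : Γ ≤ HIsom) (hd : IsDiscrete Γ) (ht : IsTorsionFree Γ) (k : ℕ) :
    ContDiff ℝ 1 (fun y => zk Γ k y • YY y) :=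
  contDiff_of_support ((contDiffOn_zk hΓ hd ht k).smul contDiffOn_YY) (isClosed_KK k)
    (KK_subset (Nat.cast_nonneg k)) fun _ hq => by rw [zk_zero hq, zero_smul]

lemma tsupport_zkYY (k : ℕ) : tsupport (fun y => zk Γ k y • YY y) ⊆ KK k := by
  refine closure_minimal ?_ (isClosed_KK k)
  intro q hq
  by_contra h
  exact hq (by simp only [zk_zero h, zero_smul])

lemma hasCompactSupport_zkYY (k : ℕ) : HasCompactSupport (fun y => zk Γ k y • YY y) :=
  (isCompact_KK (Nat.cast_nonneg k)).of_isClosed_subset (isClosed_tsupport _) (tsupport_zkYY k)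

/-- Eventually the truncation is trivial near a point. -/
lemma zk_eventuallyEq (q : H3) : ∀ᶠ k : ℕ in atTop, zk Γ k =ᶠ[𝓝 (q : E3)] et Γ := by
  have hb := bt_pos oo q
  obtain ⟨k0, hk0⟩ := exists_nat_gt (2 / bt oo q)
  filter_upwards [eventually_ge_atTop k0] with k hk
  have h1 : 2 < k * bt oo q := by
    rw [← div_lt_iff₀ hb]
    exact hk0.trans_le (by exact_mod_cast hk)
  have hcont : ContinuousAt (fun y => (k : ℝ) * bt oo y) q :=
    continuousAt_const.mul (hasFDerivAt_bt oo q.2).continuousAt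
  filter_upwards [hcont.eventually (Ioi_mem_nhds h1), isOpen_UH.mem_nhds q.2] with y hy hyU
  have hy' : 2 < (k : ℝ) * bt oo y := hy
  rw [zk_eq k hyU, st_one hy'.le, one_mul]

lemma abs_fderiv_zk_le (hΓ : Γ ≤ HIsom) (hd : IsDiscrete Γ) (ht : IsTorsionFree Γ) {M : ℝ}
    (hM : ∀ x, |x * deriv st x| ≤ M) (k : ℕ) (q : H3) {v : E3} (hv : ‖v‖ ≤ (q : E3) 2) :
    |fderiv ℝ (zk Γ k) q v| ≤ (6 + 3 * M) * et Γ q := by
  have hq := q.2
  have hb := bt_pos oo q
  have he := et_pos hΓ hd ht q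
  have h1 : HasFDerivAt (bt oo) (fderiv ℝ (bt oo) q) q :=
    (hasFDerivAt_bt oo hq).differentiableAt.hasFDerivAt
  have h2 : HasFDerivAt (et Γ) (fderiv ℝ (et Γ) q) q :=
    (hasFDerivAt_et hΓ hd ht q).differentiableAt.hasFDerivAt
  have h3 : HasDerivAt st (deriv st (k * bt oo q)) (k * bt oo q) :=
    (contDiff_st.differentiable (by norm_num) _).hasDerivAt
  have h4 := HasDerivAt.comp_hasFDerivAt (q : E3) (f := fun y => (k : ℝ) * bt oo y) h3
    (h1.const_mul (k : ℝ))
  have h5 : HasFDerivAt (fun y => st (k * bt oo y) * et Γ y) _ (q : E3) := h4.mul h2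
  have h6 : zk Γ k =ᶠ[𝓝 (q : E3)] fun y => st (k * bt oo y) * et Γ y := by
    filter_upwards [isOpen_UH.mem_nhds hq] with y hy
    exact zk_eq k hy
  rw [h6.fderiv_eq, h5.fderiv]
  simp only [_root_.smul_apply, smul_eq_mul, _root_.add_apply]
  have h7 : |fderiv ℝ (et Γ) q v| ≤ 6 * et Γ q := by
    calc |fderiv ℝ (et Γ) q v| ≤ ‖fderiv ℝ (et Γ) q‖ * ‖v‖ := (fderiv ℝ (et Γ) q).le_opNorm v
      _ ≤ ‖fderiv ℝ (et Γ) q‖ * (q : E3) 2 := by gcongr
      _ ≤ _ := norm_fderiv_et_le hΓ hd ht q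
  have h8 : |fderiv ℝ (bt oo) q v| ≤ 3 * bt oo q := by
    calc |fderiv ℝ (bt oo) q v| ≤ ‖fderiv ℝ (bt oo) q‖ * ‖v‖ := (fderiv ℝ (bt oo) q).le_opNorm v
      _ ≤ ‖fderiv ℝ (bt oo) q‖ * (q : E3) 2 := by gcongr
      _ ≤ _ := norm_fderiv_bt_le oo hq
  have h9 : |st (k * bt oo q) * fderiv ℝ (et Γ) q v| ≤ 6 * et Γ q := by
    rw [abs_mul, abs_of_nonneg (st_nonneg _)]
    calc st (k * bt oo q) * |fderiv ℝ (et Γ) q v| ≤ 1 * |fderiv ℝ (et Γ) q v| := by
          gcongr; exact st_le_one _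
      _ ≤ _ := by rw [one_mul]; exact h7
  have h10 : |et Γ q * (deriv st (k * bt oo q) * (k * fderiv ℝ (bt oo) q v))| ≤
      3 * M * et Γ q := by
    rw [abs_mul, abs_of_pos he, abs_mul, abs_mul, Nat.abs_cast]
    have h11 : |deriv st (k * bt oo q)| * (k * |fderiv ℝ (bt oo) q v|) ≤ 3 * M := by
      calc |deriv st (k * bt oo q)| * (k * |fderiv ℝ (bt oo) q v|) ≤
            |deriv st (k * bt oo q)| * (k * (3 * bt oo q)) := by gcongr
        _ = 3 * |k * bt oo q * deriv st (k * bt oo q)| := by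
            rw [abs_mul (k * bt oo q), abs_of_nonneg (by positivity : 0 ≤ (k:ℝ) * bt oo q)]; ring
        _ ≤ 3 * M := by gcongr; exact hM _
    calc et Γ q * (|deriv st (k * bt oo q)| * (k * |fderiv ℝ (bt oo) q v|)) ≤
          et Γ q * (3 * M) := by gcongr
      _ = _ := by ring
  calc _ ≤ _ := abs_add_le _ _
    _ ≤ 6 * et Γ q + 3 * M * et Γ q := add_le_add h9 h10
    _ = _ := by ring

/-- Conversion of weighted Euclidean integrals to hyperbolic integrals. -/
lemma setIntegral_harea {A : Set H3} (hA : MeasurableSet A) (g : E3 → ℝ) :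
    ∫ q in A, g q ∂harea = ∫ q in Subtype.val '' A, wt q * g q ∂(μHE[2] : Measure E3) := by
  have hmeas : Measurable fun q : H3 => ENNReal.ofReal (((q : E3) 2 ^ 2)⁻¹) := by fun_prop
  have h1 : ∫ q in A, g q ∂harea =
      ∫ q in A, wt q * g q ∂(Measure.comap Subtype.val (μHE[2] : Measure E3)) := by
    rw [harea, restrict_withDensity hA, integral_withDensity_eq_integral_toReal_smul hmeas
      (Eventually.of_forall fun _ => ENNReal.ofReal_lt_top)]
    refine integral_congr_ae (Eventually.of_forall fun q => ?_)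
    simp only [smul_eq_mul, wt]
    rw [ENNReal.toReal_ofReal (by positivity)]
  rw [h1]
  have h2 := measurableEmbedding_val.setIntegral_map (μ := Measure.comap Subtype.val
    (μHE[2] : Measure E3)) (fun q => wt q * g q) (Subtype.val '' A)
  rw [measurableEmbedding_val.map_comap, preimage_image_eq _ Subtype.val_injective,
    Measure.restrict_restrict (measurableEmbedding_val.measurableSet_image.2 hA),
    inter_eq_left.2 (image_subset_range _ _)] at h2
  exact h2.symm

lemma integrableOn_harea {A : Set H3} (hA : MeasurableSet A) (g : E3 → ℝ) :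
    IntegrableOn (fun q : H3 => g q) A harea ↔
      IntegrableOn (fun q => wt q * g q) (Subtype.val '' A) (μHE[2] : Measure E3) := by
  have hmeas : Measurable fun q : H3 => ENNReal.ofReal (((q : E3) 2 ^ 2)⁻¹) := by fun_prop
  have h1 : IntegrableOn (fun q : H3 => g q) A harea ↔
      IntegrableOn (fun q : H3 => wt q * g q) A
        (Measure.comap Subtype.val (μHE[2] : Measure E3)) := by
    rw [IntegrableOn, harea, restrict_withDensity hA, integrable_withDensity_iff_integrable_smul'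
      hmeas (Eventually.of_forall fun _ => ENNReal.ofReal_lt_top)]
    refine integrable_congr (Eventually.of_forall fun q => ?_)
    simp only [smul_eq_mul, wt]
    rw [ENNReal.toReal_ofReal (by positivity)]
  rw [h1]
  have h2 := measurableEmbedding_val.integrableOn_map_iff (μ := Measure.comap Subtype.val
    (μHE[2] : Measure E3)) (f := fun q => wt q * g q) (s := Subtype.val '' A)
  rw [measurableEmbedding_val.map_comap, preimage_image_eq _ Subtype.val_injective,
    IntegrableOn, Measure.restrict_restrict (measurableEmbedding_val.measurableSet_image.2 hA),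
    inter_eq_left.2 (image_subset_range _ _)] at h2
  exact h2.symm

end Pool.Agent.Helper82
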