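import Mathlib
import Pool.Agent.Helper82.Cutoff

/-!
# Equivariance of the tangential vector field
-/

open MeasureTheory MeasureTheory.Measure Module Set Filter Topology
open scoped ENNReal NNReal Gradient RealInnerProductSpace ContDiff

namespace Pool.Agent.Helper82

/-- The vertical totally geodesic plane `y = 0`. -/
def plane : Set H3 := {q | (q : E3) 1 = 0}

/-- `sinh ^ 2` of the distance from the plane `y = 0`. -/
noncomputable def uu (q : E3) : ℝ := q 1 ^ 2 / q 2 ^ 2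

lemma coshDist_plane_ge (q p : H3) (hp : p ∈ plane) :
    √((q : E3) 1 ^ 2 + (q : E3) 2 ^ 2) / (q : E3) 2 ≤ coshDist q p := by
  have hq := q.2
  have hp2 := p.2
  have hp' : (p : E3) 1 = 0 := hp
  rw [coshDist_eq, hp', div_le_div_iff₀ hq (by positivity)]
  set s := √((q : E3) 1 ^ 2 + (q : E3) 2 ^ 2) with hs
  have hs2 : s ^ 2 = (q : E3) 1 ^ 2 + (q : E3) 2 ^ 2 := Real.sq_sqrt (by positivity)
  have h1 : s * (2 * (p : E3) 2) ≤ ((q : E3) 0 - (p : E3) 0) ^ 2 + ((q : E3) 1 - 0) ^ 2 +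
      (q : E3) 2 ^ 2 + (p : E3) 2 ^ 2 := by
    nlinarith [sq_nonneg (s - (p : E3) 2), sq_nonneg ((q : E3) 0 - (p : E3) 0)]
  calc s * (2 * (q : E3) 2 * (p : E3) 2) = s * (2 * (p : E3) 2) * (q : E3) 2 := by ring
    _ ≤ _ := by gcongr

lemma exists_foot (q : H3) : ∃ p ∈ plane,
    coshDist q p = √((q : E3) 1 ^ 2 + (q : E3) 2 ^ 2) / (q : E3) 2 := by
  have hq := q.2
  set s := √((q : E3) 1 ^ 2 + (q : E3) 2 ^ 2) with hs
  have hs2 : s ^ 2 = (q : E3) 1 ^ 2 + (q : E3) 2 ^ 2 := Real.sq_sqrt (by positivity)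
  have hs0 : 0 < s := Real.sqrt_pos.2 (by positivity)
  refine ⟨⟨!₂[(q : E3) 0, 0, s], by simpa using hs0⟩, by simp [plane], ?_⟩
  rw [coshDist_eq]
  simp only [Matrix.cons_val_zero, Matrix.cons_val_one, Matrix.cons_val]
  rw [div_eq_div_iff (by positivity) hq.ne']
  have : ((q : E3) 0 - (q : E3) 0) ^ 2 + ((q : E3) 1 - 0) ^ 2 + (q : E3) 2 ^ 2 + s ^ 2 =
      2 * s ^ 2 := by rw [hs2]; ring
  rw [this]
  ring

lemma uu_map {γ : Equiv.Perm H3} (hγ : γ ∈ HIsom) (h1 : ∀ q ∈ plane, γ q ∈ plane)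
    (h2 : ∀ q ∈ plane, γ⁻¹ q ∈ plane) (q : H3) : uu (γ q) = uu q := by
  have key : ∀ (g : Equiv.Perm H3), g ∈ HIsom → (∀ q ∈ plane, g q ∈ plane) → ∀ q : H3,
      √((g q : E3) 1 ^ 2 + (g q : E3) 2 ^ 2) / (g q : E3) 2 ≤
        √((q : E3) 1 ^ 2 + (q : E3) 2 ^ 2) / (q : E3) 2 := by
    intro g hg hgP q
    obtain ⟨p, hp, hpq⟩ := exists_foot q
    rw [← hpq, ← hg q p]
    exact coshDist_plane_ge _ _ (hgP p hp)
  have ha := key γ hγ h1 q
  have hb := key γ⁻¹ (inv_mem hγ) h2 (γ q)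
  have e : γ⁻¹ (γ q) = q := γ.symm_apply_apply q
  rw [e] at hb
  have hc := le_antisymm ha hb
  have hq := q.2
  have hgq := (γ q).2
  have hd := congrArg (fun x => x ^ 2) hc
  simp only [div_pow] at hd
  rw [Real.sq_sqrt (by positivity), Real.sq_sqrt (by positivity), add_div, add_div,
    div_self (by positivity), div_self (by positivity)] at hd
  have := add_right_cancel hd
  exact this

lemma hasFDerivAt_uu {q : E3} (hq : 0 < q 2) : HasFDerivAt uu
    ((2 * q 1 / q 2 ^ 3) • (q 2 • pr 1 - q 1 • pr 2)) q := by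
  have h0 : q 2 ^ 2 ≠ 0 := by positivity
  have h1 : HasFDerivAt (fun q : E3 => q 1 ^ 2) _ q := (hasFDerivAt_coord 1 q).pow 2
  have h2 : HasFDerivAt (fun q : E3 => q 2 ^ 2) _ q := (hasFDerivAt_coord 2 q).pow 2
  have h3 : HasFDerivAt (fun q : E3 => (q 2 ^ 2)⁻¹) _ q :=
    (hasDerivAt_inv h0).comp_hasFDerivAt q h2
  have h4 : HasFDerivAt (fun q : E3 => q 1 ^ 2 * (q 2 ^ 2)⁻¹) _ q := h1.mul h3
  refine HasFDerivAt.congr_fderiv (f := uu) h4 ?_
  ext v
  simp only [_root_.smul_apply, smul_eq_mul, pr_apply, _root_.sub_apply, _root_.add_apply]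
  simp
  field_simp
  ring

lemma inner_YY {q : E3} (hq : 0 < q 2) (v : E3) :
    ⟪YY q, v⟫ = q 2 ^ 2 / (2 * (1 + uu q)) * fderiv ℝ uu q v := by
  rw [(hasFDerivAt_uu hq).fderiv, YY, inner_smul_left, inner_ZL, ca, uu]
  simp only [_root_.smul_apply, _root_.sub_apply, pr_apply, smul_eq_mul, conj_trivial]
  have h0 : 0 < q 1 ^ 2 + q 2 ^ 2 := by positivity
  have h1 : 1 + q 1 ^ 2 / q 2 ^ 2 = (q 1 ^ 2 + q 2 ^ 2) / q 2 ^ 2 := by
    field_simp
    ring
  rw [h1]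
  field_simp

lemma ext_of_inner_map {γ : Equiv.Perm H3} (hγ : γ ∈ HIsom) (q : H3) {a b : E3}
    (h : ∀ w, ⟪a, fderiv ℝ (ext γ) q w⟫ = ⟪b, fderiv ℝ (ext γ) q w⟫) : a = b := by
  have hinj : Function.Injective (fderiv ℝ (ext γ) (q : E3)) := by
    rw [injective_iff_map_eq_zero]
    intro v hv
    have := norm_fderiv_ext hγ q v
    rw [hv, norm_zero] at this
    rcases mul_eq_zero.1 this.symm with h | h
    · exact absurd h (cf_pos γ q).ne'
    · exact norm_eq_zero.1 h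
  have hsurj : Function.Surjective (fderiv ℝ (ext γ) (q : E3)) :=
    (LinearMap.injective_iff_surjective (f := (fderiv ℝ (ext γ) (q : E3) : E3 →ₗ[ℝ] E3))).1 hinj
  apply ext_inner_right ℝ
  intro v
  obtain ⟨w, rfl⟩ := hsurj v
  exact h w

lemma fderiv_comp_ext {γ : Equiv.Perm H3} (hγ : γ ∈ HIsom) (q : H3) {f g : E3 → ℝ}
    (hf : DifferentiableAt ℝ f (γ q : E3)) (hfg : ∀ p : H3, g p = f (γ p)) (v : E3) :
    fderiv ℝ g q v = fderiv ℝ f (γ q) (fderiv ℝ (ext γ) q v) := by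
  have h1 : g =ᶠ[𝓝 (q : E3)] fun p => f (ext γ p) := by
    filter_upwards [isOpen_UH.mem_nhds q.2] with p hp
    rw [hfg ⟨p, hp⟩, ← ext_coe]
  have h2 : HasFDerivAt (fun p => f (ext γ p))
      ((fderiv ℝ f (γ q : E3)) ∘L (fderiv ℝ (ext γ) q)) (q : E3) := by
    have h3 : HasFDerivAt f (fderiv ℝ f (γ q : E3)) (ext γ q) := by
      rw [ext_coe]; exact hf.hasFDerivAt
    exact h3.comp (q : E3) (differentiableAt_ext hγ q).hasFDerivAt
  rw [h1.fderiv_eq, h2.fderiv]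
  rfl

lemma fderiv_ext_YY {γ : Equiv.Perm H3} (hγ : γ ∈ HIsom) (hu : ∀ q : H3, uu (γ q) = uu q)
    (q : H3) : fderiv ℝ (ext γ) q (YY q) = YY (γ q) := by
  apply ext_of_inner_map hγ q
  intro w
  rw [inner_fderiv_ext hγ, inner_YY q.2, inner_YY (γ q).2,
    fderiv_comp_ext hγ q (f := uu) (g := uu) (hasFDerivAt_uu (γ q).2).differentiableAt
      (fun p => (hu p).symm), hu, ← cf_mul γ q]
  ring

section Surface

variable {S : Set H3} (hS : IsMinimalIn wt UH (Subtype.val '' S))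

lemma mem_val_image {S : Set H3} {q : H3} : (q : E3) ∈ Subtype.val '' S ↔ q ∈ S :=
  Subtype.val_injective.mem_set_image

lemma exists_normal_map {γ : Equiv.Perm H3} (hγ : γ ∈ HIsom) (hinv : ∀ q, γ q ∈ S ↔ q ∈ S)
    {q : H3} (hq : q ∈ S) :
    ∃ l : ℝ, hS.normal (γ q) = l • fderiv ℝ (ext γ) q (hS.normal q) ∧ l ^ 2 * cf γ q ^ 2 = 1 := by
  have hγq : γ q ∈ S := (hinv q).2 hq
  obtain ⟨F, b, W, V, ψ, hqW, hF⟩ := hS.exists_goodChart (mem_val_image.2 hq)
  obtain ⟨F', b', W', V', ψ', hqW', hF'⟩ := hS.exists_goodChart (mem_val_image.2 hγq)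
  obtain ⟨hN, c, hc⟩ := hS.normal_spec hF hqW (mem_val_image.2 hq)
  obtain ⟨hN', c', hc'⟩ := hS.normal_spec hF' hqW' (mem_val_image.2 hγq)
  have hF'd : DifferentiableAt ℝ F' (γ q : E3) :=
    (hF'.chart.contDiffAt_F hqW').differentiableAt (by norm_num)
  have hcomp : HasFDerivAt (fun p => F' (ext γ p))
      ((fderiv ℝ F' (γ q : E3)) ∘L (fderiv ℝ (ext γ) q)) (q : E3) := by
    have h3 : HasFDerivAt F' (fderiv ℝ F' (γ q : E3)) (ext γ q) := by
      rw [ext_coe]; exact hF'd.hasFDerivAt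
    exact h3.comp (q : E3) (differentiableAt_ext hγ q).hasFDerivAt
  obtain ⟨c'', hc''⟩ := hF.chart.gradient_parallel hF.mem_iff hqW (mem_val_image.2 hq)
    hcomp.differentiableAt (by
      have hcont : ContinuousAt (ext γ) (q : E3) := (differentiableAt_ext hγ q).continuousAt
      have h1 : ∀ᶠ y in 𝓝 (q : E3), ext γ y ∈ W' := by
        apply hcont.preimage_mem_nhds
        rw [ext_coe]
        exact hF'.chart.isOpenW.mem_nhds hqW'
      filter_upwards [h1, isOpen_UH.mem_nhds q.2] with y hy hyU hyS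
      have hyS' : (⟨y, hyU⟩ : H3) ∈ S := by
        obtain ⟨z, hz, hzy⟩ := hyS
        have : z = ⟨y, hyU⟩ := Subtype.ext hzy
        rwa [this] at hz
      apply (hF'.mem_iff _ hy).1
      have e : ext γ y = (γ ⟨y, hyU⟩ : E3) := ext_coe γ ⟨y, hyU⟩
      rw [e]
      exact mem_val_image.2 ((hinv _).2 hyS'))
  have hc'0 : c' ≠ 0 := by
    rintro rfl
    rw [zero_smul] at hc'
    exact hF'.chart.gradient_ne_zero hqW' hc'
  have hcf := cf_pos γ q
  have hpar : c' • hS.normal (γ q) =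
      (c'' * c / cf γ q ^ 2) • fderiv ℝ (ext γ) q (hS.normal q) := by
    apply ext_of_inner_map hγ q
    intro w
    rw [← hc', inner_gradient_left, inner_smul_left, inner_fderiv_ext hγ]
    have h1 : fderiv ℝ F' (γ q : E3) (fderiv ℝ (ext γ) q w) =
        ⟪∇ (fun p => F' (ext γ p)) (q : E3), w⟫ := by
      rw [inner_gradient_left, hcomp.fderiv]
      rfl
    rw [h1, hc'', hc, inner_smul_left, inner_smul_left]
    simp only [conj_trivial]
    field_simp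
  refine ⟨c'' * c / cf γ q ^ 2 / c', ?_, ?_⟩
  · rw [div_eq_inv_mul, mul_smul, ← hpar, smul_smul, inv_mul_cancel₀ hc'0, one_smul]
  · have h1 : hS.normal (γ q) =
        (c'' * c / cf γ q ^ 2 / c') • fderiv ℝ (ext γ) q (hS.normal q) := by
      rw [div_eq_inv_mul, mul_smul, ← hpar, smul_smul, inv_mul_cancel₀ hc'0, one_smul]
    have h2 := congrArg norm h1
    rw [hN', norm_smul, norm_fderiv_ext hγ, hN, mul_one, Real.norm_eq_abs] at h2
    have h3 := congrArg (fun x => x ^ 2) h2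
    simp only [one_pow, mul_pow, sq_abs] at h3
    exact h3.symm

/-- Equivariance of the tangential field. -/
lemma fderiv_ext_YT {γ : Equiv.Perm H3} (hγ : γ ∈ HIsom) (hu : ∀ q : H3, uu (γ q) = uu q)
    (hinv : ∀ q, γ q ∈ S ↔ q ∈ S) {q : H3} (hq : q ∈ S) :
    fderiv ℝ (ext γ) q (YT hS.normal q) = YT hS.normal (γ q) := by
  obtain ⟨l, h1, h2⟩ := exists_normal_map hS hγ hinv hq
  rw [YT, YT, map_sub, map_smul, fderiv_ext_YY hγ hu]
  congr 1
  rw [h1, ← fderiv_ext_YY hγ hu q, inner_smul_right, inner_fderiv_ext hγ, smul_smul]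
  congr 1
  linear_combination (-⟪YY (q : E3), hS.normal q⟫) * h2

lemma fderiv_bt_YT {Γ : Subgroup (Equiv.Perm H3)} (hΓ : Γ ≤ HIsom)
    (hu : ∀ γ ∈ Γ, ∀ q : H3, uu (γ q) = uu q)
    (hinv : ∀ γ ∈ Γ, ∀ q, γ q ∈ S ↔ q ∈ S) (γ g : Γ) {q : H3} (hq : q ∈ S) :
    fderiv ℝ (bt (op γ)) (g • q : H3) (YT hS.normal (g • q : H3)) =
      fderiv ℝ (bt (op (γ * g))) q (YT hS.normal q) := by
  have h1 := fderiv_ext_YT hS (hΓ g.2) (hu g g.2) (hinv g g.2) hq
  have h2 := fderiv_comp_ext (hΓ g.2) q (f := bt (op γ)) (g := bt (op (γ * g)))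
    (hasFDerivAt_bt (op γ) ((g : Equiv.Perm H3) q).2).differentiableAt
    (fun p => (bt_op_smul hΓ γ g p).symm) (YT hS.normal q)
  rw [h1] at h2
  exact h2.symm

end Surface

end Pool.Agent.Helper82
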