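import Mathlib
import Pool.Agent.Helper82.Equivariance

/-!
# Positivity of the area measure on surfaces
-/

open MeasureTheory MeasureTheory.Measure Module Set Filter Topology
open scoped ENNReal NNReal Gradient RealInnerProductSpace ContDiff

namespace Pool.Agent.Helper82

lemma Chart.measure_pos {F : E3 → ℝ} {b : OrthonormalBasis (Fin 3) ℝ E3} {W : Set E3}
    {V : Set E2} {ψ : E2 → E3} (h : Chart F b W V ψ) {O : Set E3} (hO : IsOpen O) {q : E3}
    (hqW : q ∈ W) (hqO : q ∈ O) (hq0 : F q = 0) :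
    0 < (μHE[2] : Measure E3) ({q | q ∈ W ∧ F q = 0} ∩ O) := by
  set A : Set E2 := V ∩ ψ ⁻¹' O with hA
  have hAo : IsOpen A := h.contψ.continuousOn.isOpen_inter_preimage h.isOpenV hO
  have hAV : A ⊆ V := inter_subset_left
  have hAn : A.Nonempty := by
    obtain ⟨h1, h2⟩ := h.surj q hqW hq0
    exact ⟨_, h1, by rw [mem_preimage, h2]; exact hqO⟩
  have hsub : ψ '' A ⊆ {q | q ∈ W ∧ F q = 0} ∩ O := by
    rintro _ ⟨x, ⟨hxV, hxO⟩, rfl⟩
    exact ⟨⟨h.maps x hxV, h.zero x hxV⟩, hxO⟩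
  refine lt_of_lt_of_le ?_ (measure_mono hsub)
  have h1 := area_formula (U := E2) (V := E3) (f := ψ) (f' := fderiv ℝ ψ) (s := V)
    (fun x hx => h.hasStrictFDerivAt_ψ hx) h.continuousOn_normDet h.injOn
    (fun x hx => h.injective_fderiv hx) hAV hAo.measurableSet
  have h2 : finrank ℝ E2 = 2 := by simp
  rw [h2] at h1
  rw [h1]
  have hvol : 0 < (volume : Measure E2) A := hAo.measure_pos _ hAn
  have hmeas : AEMeasurable (fun x => ENNReal.ofReal (fderiv ℝ ψ x : E2 →ₗ[ℝ] E3).normDet)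
      (volume.restrict A) :=
    ((h.continuousOn_normDet.mono hAV).aemeasurable hAo.measurableSet).ennreal_ofReal
  rw [pos_iff_ne_zero]
  intro h0
  rw [setLIntegral_eq_zero_iff' hAo.measurableSet hmeas] at h0
  apply hvol.ne'
  have h3 : ∀ᵐ x ∂(volume : Measure E2), x ∉ A := by
    filter_upwards [h0] with x hx hxA
    have h4 := hx hxA
    rw [ENNReal.ofReal_eq_zero, h.normDet_eq (hAV hxA)] at h4
    have h5 : 0 < ‖∇ F (ψ x)‖ / fderiv ℝ F (ψ x) (b 2) :=
      div_pos (norm_pos_iff.2 (h.gradient_ne_zero (h.maps x (hAV hxA))))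
        (h.pos _ (h.maps x (hAV hxA)))
    exact absurd h4 (not_le.2 h5)
  exact measure_eq_zero_iff_ae_notMem.2 h3

lemma harea_eq_zero {A : Set H3} (hA : MeasurableSet A) (h : harea A = 0) :
    (μHE[2] : Measure E3) (Subtype.val '' A) = 0 := by
  have hmeas : Measurable fun q : H3 => ENNReal.ofReal (((q : E3) 2 ^ 2)⁻¹) := by fun_prop
  rw [harea_apply hA, setLIntegral_eq_zero_iff hA hmeas] at h
  rw [← comap_apply_val]
  apply measure_eq_zero_iff_ae_notMem.2
  filter_upwards [h] with q hq hqA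
  have h1 := hq hqA
  rw [ENNReal.ofReal_eq_zero] at h1
  have h2 := q.2
  have : 0 < ((q : E3) 2 ^ 2)⁻¹ := by positivity
  exact absurd h1 (not_le.2 this)

lemma measurableSet_of_minimal {S : Set H3} (hS : IsMinimalIn wt UH (Subtype.val '' S)) :
    MeasurableSet S := by
  have h := measurableEmbedding_val.measurable hS.measurableSet
  rwa [preimage_image_eq _ Subtype.val_injective] at h

lemma harea_inter_pos {S : Set H3} (hS : IsMinimalIn wt UH (Subtype.val '' S)) {q : H3}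
    (hq : q ∈ S) {O : Set H3} (hO : IsOpen O) (hqO : q ∈ O) : 0 < harea (S ∩ O) := by
  rw [pos_iff_ne_zero]
  intro h0
  have h1 := harea_eq_zero ((measurableSet_of_minimal hS).inter hO.measurableSet) h0
  obtain ⟨O', hO', rfl⟩ := isOpen_induced_iff.1 hO
  obtain ⟨F, b, W, V, ψ, hqW, h⟩ := hS.exists_goodChart (mem_val_image.2 hq)
  have h2 := h.chart.measure_pos hO' hqW hqO ((h.mem_iff _ hqW).1 (mem_val_image.2 hq))
  apply h2.ne'
  refine measure_mono_null ?_ h1
  rintro p ⟨⟨hpW, hp0⟩, hpO⟩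
  obtain ⟨p', hp', rfl⟩ := (h.mem_iff p hpW).2 hp0
  exact ⟨p', ⟨hp', hpO⟩, rfl⟩

end Pool.Agent.Helper82
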