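import Mathlib
import Pool.Agent.Helper82.Positive

/-!
# Finite area minimal surfaces in Fuchsian manifolds lie in the plane
-/

open MeasureTheory MeasureTheory.Measure Module Set Filter Topology
open scoped ENNReal NNReal Gradient RealInnerProductSpace ContDiff

namespace Pool.Agent.Helper82

variable {Γ : Subgroup (Equiv.Perm H3)} {S : Set H3}

lemma continuous_restrict {F : Type*} [TopologicalSpace F] {f : E3 → F} (hf : ContinuousOn f UH) :
    Continuous (fun q : H3 => f q) :=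
  continuousOn_iff_continuous_domRestrict.1 hf

lemma continuous_et (hΓ : Γ ≤ HIsom) (hd : IsDiscrete Γ) (ht : IsTorsionFree Γ) :
    Continuous (fun q : H3 => et Γ q) :=
  continuous_restrict (contDiffOn_et hΓ hd ht).continuousOn

lemma smul_mem_iff (hinv : ∀ γ ∈ Γ, ∀ q, γ q ∈ S ↔ q ∈ S) (γ : Γ) (q : H3) :
    (γ • q : H3) ∈ S ↔ q ∈ S := hinv γ γ.2 q

/-- The integral of the partition function is at most the area in any covering domain. -/
lemma lintegral_et_le (hΓ : Γ ≤ HIsom) (hd : IsDiscrete Γ) (ht : IsTorsionFree Γ)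
    (hSm : MeasurableSet S) (hinv : ∀ γ ∈ Γ, ∀ q, γ q ∈ S ↔ q ∈ S) {D : Set H3}
    (hD : MeasurableSet D) (hcov : ∀ q : H3, ∃ γ ∈ Γ, γ q ∈ D) :
    ∫⁻ q in S, ENNReal.ofReal (et Γ q) ∂harea ≤ harea (D ∩ S) := by
  have hcount := countable_of_discrete hd
  have hDS : MeasurableSet (D ∩ S) := hD.inter hSm
  have hcov' : S ⊆ ⋃ γ : Γ, (fun q : H3 => (γ • q : H3)) ⁻¹' (D ∩ S) := by
    intro q hq
    obtain ⟨γ, hγ, hγq⟩ := hcov q
    exact mem_iUnion.2 ⟨⟨γ, hγ⟩, hγq, (hinv γ hγ q).2 hq⟩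
  have hmeas : ∀ γ : Γ, Measurable fun q : H3 => ENNReal.ofReal (et Γ (γ⁻¹ • q : H3)) := by
    intro γ
    have h1 : Continuous (fun q : H3 => (γ⁻¹ • q : H3)) := continuous_of_mem_HIsom (hΓ (γ⁻¹).2)
    exact ((continuous_et hΓ hd ht).comp h1).measurable.ennreal_ofReal
  calc ∫⁻ q in S, ENNReal.ofReal (et Γ q) ∂harea
      ≤ ∫⁻ q in ⋃ γ : Γ, (fun q : H3 => (γ • q : H3)) ⁻¹' (D ∩ S), ENNReal.ofReal (et Γ q) ∂harea :=
        lintegral_mono_set hcov'
    _ ≤ ∑' γ : Γ, ∫⁻ q in (fun q : H3 => (γ • q : H3)) ⁻¹' (D ∩ S),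
          ENNReal.ofReal (et Γ q) ∂harea := lintegral_iUnion_le _ _
    _ = ∑' γ : Γ, ∫⁻ q in D ∩ S, ENNReal.ofReal (et Γ (γ⁻¹ • q : H3)) ∂harea := by
        congr 1
        funext γ
        have hmp : MeasurePreserving (fun q : H3 => (γ • q : H3)) harea harea :=
          measurePreserving_harea (hΓ γ.2)
        have h1 := hmp.setLIntegral_comp_preimage hDS (hmeas γ)
        rw [← h1]
        simp only [inv_smul_smul]
    _ = ∫⁻ q in D ∩ S, ∑' γ : Γ, ENNReal.ofReal (et Γ (γ⁻¹ • q : H3)) ∂harea :=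
        (lintegral_tsum fun γ => (hmeas γ).aemeasurable).symm
    _ = ∫⁻ q in D ∩ S, 1 ∂harea := by
        congr 1
        funext q
        have h1 := hasSum_et hΓ hd ht q
        have h2 : ∑' γ : Γ, ENNReal.ofReal (et Γ (γ⁻¹ • q : H3)) =
            ∑' γ : Γ, ENNReal.ofReal (et Γ (γ • q : H3)) :=
          (Equiv.inv Γ).tsum_eq (fun γ : Γ => ENNReal.ofReal (et Γ (γ • q : H3)))
        rw [h2, ← ENNReal.ofReal_tsum_of_nonneg (fun γ => (et_pos hΓ hd ht _).le) h1.summable,
          h1.tsum_eq, ENNReal.ofReal_one]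
    _ = harea (D ∩ S) := by rw [setLIntegral_one]

lemma continuousOn_fderiv_YT (hS : IsMinimalIn wt UH (Subtype.val '' S)) {f : E3 → ℝ}
    (hf : ContDiffOn ℝ 1 f UH) :
    ContinuousOn (fun q => fderiv ℝ f q (YT hS.normal q)) (Subtype.val '' S) := by
  have hdf : ContinuousOn (fderiv ℝ f) UH := hf.continuousOn_fderiv_of_isOpen isOpen_UH (by norm_num)
  have hY : ContinuousOn YY UH := contDiffOn_YY.continuousOn
  have h1 : ContinuousOn (fun q => fderiv ℝ f q (YY q)) (Subtype.val '' S) :=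
    (hdf.clm_apply hY).mono hS.subset
  have hT : ContinuousOn (fun q => (fderiv ℝ f q).smulRight (YY q)) UH := by
    have := (ContinuousLinearMap.smulRightL ℝ E3 E3).continuous₂
    exact this.comp_continuousOn (hdf.prodMk hY)
  have h2 := hS.continuousOn_quad hT
  refine (h1.sub h2).congr fun q hq => ?_
  simp only [YT, map_sub, map_smul, ContinuousLinearMap.smulRight_apply, inner_smul_left,
    smul_eq_mul, conj_trivial, Pi.sub_apply]
  ring

lemma aestronglyMeasurable_fderiv_YT (hS : IsMinimalIn wt UH (Subtype.val '' S)) {f : E3 → ℝ}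
    (hf : ContDiffOn ℝ 1 f UH) :
    AEStronglyMeasurable (fun q : H3 => fderiv ℝ f q (YT hS.normal q)) (harea.restrict S) := by
  have h1 : ContinuousOn (fun q : H3 => fderiv ℝ f q (YT hS.normal q)) S :=
    (continuousOn_fderiv_YT hS hf).comp continuous_subtype_val.continuousOn
      fun q hq => mem_image_of_mem _ hq
  exact h1.aestronglyMeasurable (measurableSet_of_minimal hS)

lemma norm_YT_le' (hS : IsMinimalIn wt UH (Subtype.val '' S)) {q : H3} (hq : q ∈ S) :
    ‖YT hS.normal q‖ ≤ (q : E3) 2 := norm_YT_le q.2 (hS.norm_normal (mem_val_image.2 hq))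

/-- The function `tanh ^ 2` of the distance to the plane. -/
noncomputable def tt (q : E3) : ℝ := q 1 ^ 2 / (q 1 ^ 2 + q 2 ^ 2)

lemma tt_nonneg (q : E3) : 0 ≤ tt q := by unfold tt; positivity

lemma tt_le_one (q : E3) : tt q ≤ 1 := by
  unfold tt
  apply div_le_one_of_le₀ _ (by positivity)
  nlinarith [sq_nonneg (q 2)]

lemma continuous_tt : Continuous (fun q : H3 => tt q) := by
  apply continuous_restrict
  intro q hq
  have hq' : 0 < q 2 := hq
  have h : q 1 ^ 2 + q 2 ^ 2 ≠ 0 := by positivity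
  apply ContinuousAt.continuousWithinAt
  exact ContinuousAt.div (by fun_prop) (by fun_prop) h

/-- The integral of the truncated first variation integrand is nonpositive. -/
lemma truncated_le (hΓ : Γ ≤ HIsom) (hd : IsDiscrete Γ) (ht : IsTorsionFree Γ)
    (hS : IsMinimalIn wt UH (Subtype.val '' S)) (k : ℕ) :
    IntegrableOn (fun q : H3 => zk Γ k q * tt q + fderiv ℝ (zk Γ k) q (YT hS.normal q)) S harea ∧
    ∫ q in S, (zk Γ k q * tt q + fderiv ℝ (zk Γ k) q (YT hS.normal q)) ∂harea ≤ 0 := by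
  have hSm := measurableSet_of_minimal hS
  have hK : IsCompact (KK k) := isCompact_KK (Nat.cast_nonneg k)
  have hKU : KK k ⊆ UH := KK_subset (Nat.cast_nonneg k)
  have hsub : ∀ q ∈ Subtype.val '' S, 0 < q 2 := fun q hq => hS.subset hq
  set G : E3 → ℝ := fun q => zk Γ k q * tt q + fderiv ℝ (zk Γ k) q (YT hS.normal q) with hG
  have hzc := contDiff_zk hΓ hd ht k
  have hcont : ContinuousOn (fun q => wt q * G q) (Subtype.val '' S) := by
    refine (contDiffOn_wt.continuousOn.mono hS.subset).mul (ContinuousOn.add ?_ ?_)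
    · refine (hzc.continuous.continuousOn).mul ?_
      intro q hq
      have hq' : 0 < q 2 := hsub q hq
      have h : q 1 ^ 2 + q 2 ^ 2 ≠ 0 := by positivity
      apply ContinuousAt.continuousWithinAt
      exact ContinuousAt.div (by fun_prop) (by fun_prop) h
    · exact continuousOn_fderiv_YT hS hzc.contDiffOn
  have hzero : ∀ q ∈ Subtype.val '' S, q ∉ KK k → wt q * G q = 0 := by
    intro q hq hqK
    have h1 : zk Γ k =ᶠ[𝓝 q] fun _ => 0 := by
      filter_upwards [(isClosed_KK k).isOpen_compl.mem_nhds hqK] with y hy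
      exact zk_zero hy
    have h2 : fderiv ℝ (zk Γ k) q = 0 := by rw [h1.fderiv_eq]; simp
    simp [hG, h2, zk_zero hqK]
  have hint : IntegrableOn (fun q => wt q * G q) (Subtype.val '' S) (μHE[2] : Measure E3) :=
    hS.integrableOn hcont hK hKU hzero
  refine ⟨(integrableOn_harea hSm G).2 hint, ?_⟩
  rw [setIntegral_harea hSm G]
  have hX := contDiff_zkYY hΓ hd ht k
  have hXc := hasCompactSupport_zkYY (Γ := Γ) k
  have hXs : tsupport (fun y => zk Γ k y • YY y) ⊆ UH := (tsupport_zkYY k).trans hKU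
  have hst := hS.first_variation hX hXc hXs
  refine le_trans ?_ hst.le
  refine setIntegral_mono_on hint (hS.integrableOn_FV hX hXc hXs) hS.measurableSet fun q hq => ?_
  exact FV_ge (hsub q hq) (hzc.differentiable (by norm_num) q) (zk_nonneg hΓ hd ht k q)
    (hS.norm_normal hq)

lemma integrableOn_et (hΓ : Γ ≤ HIsom) (hd : IsDiscrete Γ) (ht : IsTorsionFree Γ)
    (hfin : ∫⁻ q in S, ENNReal.ofReal (et Γ q) ∂harea < ⊤) :
    IntegrableOn (fun q : H3 => et Γ q) S harea := by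
  refine ⟨(continuous_et hΓ hd ht).aestronglyMeasurable, ?_⟩
  rw [hasFiniteIntegral_iff_ofReal (Eventually.of_forall fun q => (et_pos hΓ hd ht q).le)]
  exact hfin

/-- Passing to the limit in the cutoff. -/
lemma limit_le (hΓ : Γ ≤ HIsom) (hd : IsDiscrete Γ) (ht : IsTorsionFree Γ)
    (hS : IsMinimalIn wt UH (Subtype.val '' S))
    (hfin : ∫⁻ q in S, ENNReal.ofReal (et Γ q) ∂harea < ⊤) :
    ∫ q in S, (et Γ q * tt q + fderiv ℝ (et Γ) q (YT hS.normal q)) ∂harea ≤ 0 := by
  have hSm := measurableSet_of_minimal hS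
  obtain ⟨M, hM0, hM⟩ := exists_st_bound
  have heti := integrableOn_et hΓ hd ht hfin
  have hlim : Tendsto (fun k : ℕ => ∫ q in S,
      (zk Γ k q * tt q + fderiv ℝ (zk Γ k) q (YT hS.normal q)) ∂harea) atTop
      (𝓝 (∫ q in S, (et Γ q * tt q + fderiv ℝ (et Γ) q (YT hS.normal q)) ∂harea)) := by
    refine tendsto_integral_of_dominated_convergence (fun q : H3 => (7 + 3 * M) * et Γ q)
      (fun k => (truncated_le hΓ hd ht hS k).1.aestronglyMeasurable)
      (heti.const_mul (7 + 3 * M)) (fun k => ?_) ?_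
    · rw [ae_restrict_iff' hSm]
      refine Eventually.of_forall fun q hq => ?_
      have h1 := abs_fderiv_zk_le hΓ hd ht hM k q (norm_YT_le' hS hq)
      have h2 : |zk Γ k q * tt q| ≤ et Γ q := by
        rw [abs_of_nonneg (mul_nonneg (zk_nonneg hΓ hd ht k q) (tt_nonneg _))]
        calc zk Γ k q * tt q ≤ et Γ q * 1 :=
              mul_le_mul (zk_le hΓ hd ht k q) (tt_le_one _) (tt_nonneg _) (et_pos hΓ hd ht q).le
          _ = _ := mul_one _
      calc ‖zk Γ k q * tt q + fderiv ℝ (zk Γ k) q (YT hS.normal q)‖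
          ≤ |zk Γ k q * tt q| + |fderiv ℝ (zk Γ k) q (YT hS.normal q)| := abs_add_le _ _
        _ ≤ et Γ q + (6 + 3 * M) * et Γ q := add_le_add h2 h1
        _ = _ := by ring
    · rw [ae_restrict_iff' hSm]
      refine Eventually.of_forall fun q hq => ?_
      refine tendsto_const_nhds.congr' ?_
      filter_upwards [zk_eventuallyEq (Γ := Γ) q] with k hk
      rw [hk.fderiv_eq, hk.self_of_nhds]
  exact le_of_tendsto hlim (Eventually.of_forall fun k => (truncated_le hΓ hd ht hS k).2)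

/-- The unfolding argument: the gradient term of the partition function integrates to zero. -/
lemma integral_fderiv_et (hΓ : Γ ≤ HIsom) (hd : IsDiscrete Γ) (ht : IsTorsionFree Γ)
    (hS : IsMinimalIn wt UH (Subtype.val '' S))
    (hu : ∀ γ ∈ Γ, ∀ q : H3, uu (γ q) = uu q)
    (hinv : ∀ γ ∈ Γ, ∀ q, γ q ∈ S ↔ q ∈ S)
    (hfin : ∫⁻ q in S, ENNReal.ofReal (et Γ q) ∂harea < ⊤) :
    IntegrableOn (fun q : H3 => fderiv ℝ (et Γ) q (YT hS.normal q)) S harea ∧
    ∫ q in S, fderiv ℝ (et Γ) q (YT hS.normal q) ∂harea = 0 := by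
  have hcount := countable_of_discrete hd
  have hSm := measurableSet_of_minimal hS
  have heti := integrableOn_et hΓ hd ht hfin
  let B : Γ → H3 → ℝ := fun γ q => fderiv ℝ (bt (op γ)) q (YT hS.normal q)
  let w : Γ → H3 → ℝ := fun γ q => bt oo q * bt (op γ) q / Ph Γ q ^ 2
  let f : Γ → H3 → ℝ := fun γ q => bt (op γ) q * B 1 q / Ph Γ q ^ 2
  let g : Γ → H3 → ℝ := fun γ q => bt oo q * B γ q / Ph Γ q ^ 2
  have hPc : Continuous (fun q : H3 => Ph Γ q) :=
    continuous_restrict (contDiffOn_Ph hΓ hd ht).continuousOn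
  have hbc : ∀ p : H3, Continuous (fun q : H3 => bt p q) := fun p =>
    continuous_restrict (contDiffOn_bt p).continuousOn
  have hP0 : ∀ q : H3, Ph Γ q ≠ 0 := fun q => (Ph_pos hΓ hd ht q).ne'
  have hBm : ∀ γ, AEStronglyMeasurable (B γ) (harea.restrict S) := fun γ =>
    aestronglyMeasurable_fderiv_YT hS ((contDiffOn_bt (op γ)).of_le (by simp))
  have hBb : ∀ γ, ∀ q ∈ S, |B γ q| ≤ 3 * bt (op γ) q := by
    intro γ q hq
    have h1 := norm_YT_le' hS hq
    calc |B γ q| ≤ ‖fderiv ℝ (bt (op γ)) q‖ * ‖YT hS.normal q‖ :=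
          (fderiv ℝ (bt (op γ)) (q : E3)).le_opNorm _
      _ ≤ ‖fderiv ℝ (bt (op γ)) q‖ * (q : E3) 2 := by gcongr
      _ ≤ _ := norm_fderiv_bt_le (op γ) q.2
  have hw0 : ∀ γ q, 0 ≤ w γ q := fun γ q =>
    div_nonneg (mul_nonneg (bt_pos _ _).le (bt_pos _ _).le) (sq_nonneg _)
  have hwsum : ∀ q : H3, HasSum (fun γ => w γ q) (et Γ q) := by
    intro q
    have h1 := ((summable_bt hΓ hd ht q).hasSum.mul_left (bt oo q)).div_const (Ph Γ q ^ 2)
    have h2 : bt oo q * (∑' γ : Γ, bt (op γ) q) / Ph Γ q ^ 2 = et Γ q := by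
      have h3 : (∑' γ : Γ, bt (op γ) q) = Ph Γ q := rfl
      rw [h3, et]
      have := hP0 q
      field_simp
    rw [h2] at h1
    exact h1
  have hwle : ∀ q : H3, ∀ s : Finset Γ, ∑ γ ∈ s, w γ q ≤ et Γ q := fun q s =>
    sum_le_hasSum s (fun γ _ => hw0 γ q) (hwsum q)
  have hfb : ∀ γ, ∀ q ∈ S, |f γ q| ≤ 3 * w γ q := by
    intro γ q hq
    have h1 := hBb 1 q hq
    rw [op_one] at h1
    have h2 := bt_pos (op γ) q
    simp only [f, w]
    rw [abs_div, abs_mul, abs_of_pos h2, abs_of_nonneg (sq_nonneg (Ph Γ q)), ← mul_div_assoc]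
    refine div_le_div_of_nonneg_right ?_ (sq_nonneg _)
    calc bt (op γ) q * |B 1 q| ≤ bt (op γ) q * (3 * bt oo q) := by gcongr
      _ = _ := by ring
  have hgb : ∀ γ, ∀ q ∈ S, |g γ q| ≤ 3 * w γ q := by
    intro γ q hq
    have h1 := hBb γ q hq
    have h2 := bt_pos oo q
    simp only [g, w]
    rw [abs_div, abs_mul, abs_of_pos h2, abs_of_nonneg (sq_nonneg (Ph Γ q)), ← mul_div_assoc]
    refine div_le_div_of_nonneg_right ?_ (sq_nonneg _)
    calc bt oo q * |B γ q| ≤ bt oo q * (3 * bt (op γ) q) := by gcongr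
      _ = _ := by ring
  have hP2c : Continuous (fun q : H3 => (Ph Γ q ^ 2)⁻¹) :=
    (hPc.pow 2).inv₀ fun q => pow_ne_zero 2 (hP0 q)
  have hfm : ∀ γ, AEStronglyMeasurable (f γ) (harea.restrict S) := fun γ => by
    have h1 := ((hbc (op γ)).aestronglyMeasurable.mul (hBm 1)).mul hP2c.aestronglyMeasurable
    exact h1
  have hgm : ∀ γ, AEStronglyMeasurable (g γ) (harea.restrict S) := fun γ => by
    have h1 := ((hbc oo).aestronglyMeasurable.mul (hBm γ)).mul hP2c.aestronglyMeasurable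
    exact h1
  have hgen : ∀ F : Γ → H3 → ℝ, (∀ γ, AEStronglyMeasurable (F γ) (harea.restrict S)) →
      (∀ γ, ∀ q ∈ S, |F γ q| ≤ 3 * w γ q) →
      (∀ γ, Integrable (F γ) (harea.restrict S)) ∧
      (Summable fun γ => ∫ q in S, ‖F γ q‖ ∂harea) ∧
      Integrable (fun q => ∑' γ, F γ q) (harea.restrict S) := by
    intro F hFm hFb
    have hFi : ∀ γ, Integrable (F γ) (harea.restrict S) := by
      intro γ
      refine Integrable.mono' (heti.const_mul 3) (hFm γ) ?_
      rw [ae_restrict_iff' hSm]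
      refine Eventually.of_forall fun q hq => ?_
      refine (hFb γ q hq).trans ?_
      have := hwle q {γ}
      rw [Finset.sum_singleton] at this
      linarith
    have hFs : Summable fun γ => ∫ q in S, ‖F γ q‖ ∂harea := by
      refine summable_of_sum_le (c := ∫ q in S, 3 * et Γ q ∂harea)
        (fun γ => integral_nonneg fun _ => norm_nonneg _) fun s => ?_
      rw [← integral_finsetSum _ fun γ _ => (hFi γ).norm]
      refine setIntegral_mono_on (integrable_finsetSum _ fun γ _ => (hFi γ).norm)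
        (heti.const_mul 3) hSm fun q hq => ?_
      calc ∑ γ ∈ s, ‖F γ q‖ ≤ ∑ γ ∈ s, 3 * w γ q := Finset.sum_le_sum fun γ _ => hFb γ q hq
        _ = 3 * ∑ γ ∈ s, w γ q := by rw [Finset.mul_sum]
        _ ≤ 3 * et Γ q := by have := hwle q s; linarith
    refine ⟨hFi, hFs, ?_⟩
    refine Integrable.mono' (heti.const_mul 3) ?_ ?_
    · have h1 : ∀ q ∈ S, Summable fun γ => F γ q := fun q hq =>
        Summable.of_norm_bounded ((hwsum q).summable.mul_left 3) fun γ => hFb γ q hq
      exact aestronglyMeasurable_of_tendsto_ae atTop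
        (f := fun (s : Finset Γ) q => ∑ γ ∈ s, F γ q)
        (fun s => Finset.aestronglyMeasurable_fun_sum _ fun γ _ => hFm γ)
        (by
          rw [ae_restrict_iff' hSm]
          exact Eventually.of_forall fun q hq => (h1 q hq).hasSum)
    · rw [ae_restrict_iff' hSm]
      refine Eventually.of_forall fun q hq => ?_
      exact tsum_of_norm_bounded ((hwsum q).mul_left 3) fun γ => hFb γ q hq
  obtain ⟨hfi, hfs, hfI⟩ := hgen f hfm hfb
  obtain ⟨hgi, hgs, hgI⟩ := hgen g hgm hgb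
  have hident : ∀ q ∈ S, fderiv ℝ (et Γ) q (YT hS.normal q) = (∑' γ, f γ q) - ∑' γ, g γ q := by
    intro q hq
    have h1 : ∑' γ, f γ q = (Ph Γ q)⁻¹ * B 1 q := by
      have h2 := ((summable_bt hΓ hd ht q).hasSum.mul_right (B 1 q)).div_const (Ph Γ q ^ 2)
      rw [HasSum.tsum_eq h2]
      have h3 : (∑' γ : Γ, bt (op γ) q) = Ph Γ q := rfl
      rw [h3]
      have := hP0 q
      field_simp
    have h4 : ∑' γ, g γ q = bt oo q / Ph Γ q ^ 2 * fderiv ℝ (Ph Γ) q (YT hS.normal q) := by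
      have hsumm : Summable fun γ : Γ => fderiv ℝ (bt (op γ)) (q : E3) :=
        (summable_norm_fderiv hΓ hd ht q).of_norm
      have h5 : HasSum (fun γ => B γ q) (fderiv ℝ (Ph Γ) q (YT hS.normal q)) := by
        rw [(fderiv_Ph hΓ hd ht q).fderiv]
        exact (ContinuousLinearMap.apply ℝ ℝ (YT hS.normal (q : E3))).hasSum hsumm.hasSum
      have h6 := (h5.mul_left (bt oo q)).div_const (Ph Γ q ^ 2)
      rw [HasSum.tsum_eq h6]
      ring
    rw [h1, h4, (hasFDerivAt_et hΓ hd ht q).fderiv]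
    simp only [_root_.sub_apply, _root_.smul_apply, smul_eq_mul, B, op_one]
  have hae : (fun q : H3 => fderiv ℝ (et Γ) q (YT hS.normal q)) =ᵐ[harea.restrict S]
      fun q => (∑' γ, f γ q) - ∑' γ, g γ q := by
    rw [EventuallyEq, ae_restrict_iff' hSm]
    exact Eventually.of_forall hident
  refine ⟨(hfI.sub hgI).congr hae.symm, ?_⟩
  rw [integral_congr_ae hae, integral_sub hfI hgI]
  have h1 := (hasSum_integral_of_summable_integral_norm hfi hfs).tsum_eq
  have h2 := (hasSum_integral_of_summable_integral_norm hgi hgs).tsum_eq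
  rw [← h1, ← h2]
  have h3 : ∀ γ : Γ, ∫ q in S, f γ q ∂harea = ∫ q in S, g γ⁻¹ q ∂harea := by
    intro γ
    have hmp : MeasurePreserving (fun q : H3 => (γ⁻¹ • q : H3)) (harea.restrict S)
        (harea.restrict S) :=
      measurePreserving_restrict (hΓ (γ⁻¹).2) hSm (hinv _ (γ⁻¹).2)
    have hemb : MeasurableEmbedding (fun q : H3 => (γ⁻¹ • q : H3)) :=
      (toHomeo (hΓ (γ⁻¹).2)).measurableEmbedding
    rw [← hmp.integral_comp hemb (f γ)]
    refine setIntegral_congr_fun hSm fun q hq => ?_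
    simp only [f, g, B]
    rw [Ph_smul hΓ, fderiv_bt_YT hS hΓ hu hinv 1 γ⁻¹ hq, bt_op_smul hΓ, mul_inv_cancel, op_one,
      one_mul]
  have h4 : ∑' γ : Γ, ∫ q in S, g γ⁻¹ q ∂harea = ∑' γ : Γ, ∫ q in S, g γ q ∂harea :=
    (Equiv.inv Γ).tsum_eq (fun γ : Γ => ∫ q in S, g γ q ∂harea)
  simp_rw [h3]
  rw [h4, sub_self]

/-- **Main theorem, first half.** A finite area minimal surface lies in the plane. -/
theorem subset_plane (hΓ : Γ ≤ HIsom) (hd : IsDiscrete Γ) (ht : IsTorsionFree Γ)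
    (hS : IsMinimalIn wt UH (Subtype.val '' S))
    (hP : ∀ γ ∈ Γ, ∀ q ∈ plane, γ q ∈ plane)
    (hinv : ∀ γ ∈ Γ, ∀ q, γ q ∈ S ↔ q ∈ S) {D : Set H3}
    (hD : MeasurableSet D) (hcov : ∀ q : H3, ∃ γ ∈ Γ, γ q ∈ D) (hfinD : harea (D ∩ S) < ⊤) :
    S ⊆ plane := by
  have hSm := measurableSet_of_minimal hS
  have hu : ∀ γ ∈ Γ, ∀ q : H3, uu (γ q) = uu q := fun γ hγ =>
    uu_map (hΓ hγ) (hP γ hγ) (hP γ⁻¹ (inv_mem hγ))
  have hfin := (lintegral_et_le hΓ hd ht hSm hinv hD hcov).trans_lt hfinD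
  have h1 := limit_le hΓ hd ht hS hfin
  obtain ⟨h2, h3⟩ := integral_fderiv_et hΓ hd ht hS hu hinv hfin
  have h4 : IntegrableOn (fun q : H3 => et Γ q * tt q) S harea := by
    refine Integrable.mono' (integrableOn_et hΓ hd ht hfin)
      (((continuous_et hΓ hd ht).mul continuous_tt).aestronglyMeasurable) ?_
    refine Eventually.of_forall fun q => ?_
    rw [Real.norm_of_nonneg (mul_nonneg (et_pos hΓ hd ht q).le (tt_nonneg _))]
    exact mul_le_of_le_one_right (et_pos hΓ hd ht q).le (tt_le_one _)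
  rw [integral_add h4 h2, h3, add_zero] at h1
  have h5 : 0 ≤ᵐ[harea.restrict S] fun q : H3 => et Γ q * tt q :=
    Eventually.of_forall fun q => mul_nonneg (et_pos hΓ hd ht q).le (tt_nonneg _)
  have h6 : ∫ q in S, et Γ q * tt q ∂harea = 0 := le_antisymm h1 (integral_nonneg_of_ae h5)
  rw [integral_eq_zero_iff_of_nonneg_ae h5 h4] at h6
  intro q hq
  by_contra hqP
  have hO : IsOpen (planeᶜ : Set H3) := by
    have : IsClosed plane := isClosed_eq (by fun_prop) continuous_const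
    exact this.isOpen_compl
  have h7 := harea_inter_pos hS hq hO hqP
  apply h7.ne'
  rw [EventuallyEq, ae_restrict_iff' hSm] at h6
  have h8 : ∀ᵐ q ∂harea, q ∉ S ∩ planeᶜ := by
    filter_upwards [h6] with q hq ⟨hqS, hqP⟩
    have h9 := hq hqS
    simp only [Pi.zero_apply] at h9
    rcases mul_eq_zero.1 h9 with h | h
    · exact absurd h (et_pos hΓ hd ht q).ne'
    · unfold tt at h
      have hq2 := q.2
      rcases div_eq_zero_iff.1 h with h | h
      · exact hqP (pow_eq_zero_iff two_ne_zero |>.1 h)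
      · have : 0 < (q : E3) 1 ^ 2 + (q : E3) 2 ^ 2 := by positivity
        exact absurd h this.ne'
  exact measure_eq_zero_iff_ae_notMem.2 h8

end Pool.Agent.Helper82
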