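import Mathlib
import Pool.Agent.Helper82.FiniteArea

/-!
# A minimal surface inside the plane is the whole plane
-/

open MeasureTheory MeasureTheory.Measure Module Set Filter Topology
open scoped ENNReal NNReal Gradient RealInnerProductSpace ContDiff

namespace Pool.Agent.Helper82

lemma isPreconnected_plane : IsPreconnected plane := by
  have h1 : IsPreconnected (Subtype.val '' plane : Set E3) := by
    have h2 : (Subtype.val '' plane : Set E3) = {q | q 1 = 0} ∩ {q | 0 < q 2} := by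
      ext q
      constructor
      · rintro ⟨p, hp, rfl⟩; exact ⟨hp, p.2⟩
      · rintro ⟨h1, h2⟩; exact ⟨⟨q, h2⟩, h1, rfl⟩
    rw [h2]
    apply Convex.isPreconnected
    apply Convex.inter
    · have : {q : E3 | q 1 = 0} = (pr 1 : E3 →L[ℝ] ℝ) ⁻¹' {0} := by ext q; rfl
      rw [this]
      exact (convex_singleton (0:ℝ)).is_linear_preimage (pr 1 : E3 →ₗ[ℝ] ℝ).isLinear
    · exact (convex_Ioi (0:ℝ)).is_linear_preimage (pr 2 : E3 →ₗ[ℝ] ℝ).isLinear
  exact (Topology.IsInducing.subtypeVal.isPreconnected_image).1 h1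

lemma exists_open_subset {S : Set H3} (hS : IsMinimalIn wt UH (Subtype.val '' S))
    (hsub : S ⊆ plane) {p : H3} (hp : p ∈ S) :
    ∃ O : Set H3, IsOpen O ∧ p ∈ O ∧ O ∩ plane ⊆ S := by
  obtain ⟨F, b, W, V, ψ, hpW, h⟩ := hS.exists_goodChart (mem_val_image.2 hp)
  have hgrad : ∇ (fun q : E3 => q 1) (p : E3) = ev 1 := by
    apply ext_inner_right ℝ
    intro v
    rw [inner_gradient_left, (hasFDerivAt_coord 1 (p : E3)).fderiv, pr_apply, ev,
      EuclideanSpace.inner_single_left]
    simp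
  obtain ⟨c, hc⟩ := h.chart.gradient_parallel h.mem_iff hpW (mem_val_image.2 hp)
    (F' := fun q : E3 => q 1) (hasFDerivAt_coord 1 (p : E3)).differentiableAt
    (Eventually.of_forall fun y hy => by
      obtain ⟨z, hz, rfl⟩ := hy
      exact hsub hz)
  rw [hgrad] at hc
  have hev : ‖ev 1‖ = 1 := by simp [ev]
  have hc0 : c ≠ 0 := by
    rintro rfl
    rw [zero_smul] at hc
    rw [hc, norm_zero] at hev
    exact zero_ne_one hev
  have hFv : fderiv ℝ F (p : E3) (ev 1) = c⁻¹ := by
    have h1 : ∇ F (p : E3) = c⁻¹ • ev 1 := by rw [hc, smul_smul, inv_mul_cancel₀ hc0, one_smul]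
    rw [← inner_gradient_left, h1, inner_smul_left, real_inner_self_eq_norm_sq, hev]
    simp
  set σ : ℝ := ((SignType.sign c⁻¹ : SignType) : ℝ) with hσ
  have hci : c⁻¹ ≠ 0 := inv_ne_zero hc0
  have hσabs : |σ| = 1 := by
    rcases lt_or_gt_of_ne hci with h | h
    · rw [hσ, sign_neg h]; simp
    · rw [hσ, sign_pos h]; simp
  obtain ⟨b', hb'⟩ := exists_basis (u := σ • ev 1) (by
    rw [norm_smul, hev, mul_one, Real.norm_eq_abs, hσabs])
  have hpos : 0 < fderiv ℝ F (p : E3) (b' 2) := by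
    rw [hb', map_smul, hFv, smul_eq_mul, hσ, sign_mul_self]
    exact abs_pos.2 hci
  obtain ⟨W', V', ψ', hpW', hW'W, hch⟩ := exists_chart h.chart.isOpenW h.chart.contF hpW hpos
  have hproj : projL b' (p : E3) ∈ V' :=
    (hch.surj _ hpW' ((h.mem_iff _ hpW).1 (mem_val_image.2 hp))).1
  refine ⟨Subtype.val ⁻¹' (W' ∩ projL b' ⁻¹' V'), ?_, ⟨hpW', hproj⟩, ?_⟩
  · exact (hch.isOpenW.inter (hch.isOpenV.preimage (projL b').continuous)).preimage
      continuous_subtype_val
  · rintro q ⟨⟨hqW, hqV⟩, hqP⟩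
    set z := ψ' (projL b' (q : E3)) with hz
    have hzW : z ∈ W' := hch.maps _ hqV
    have hzS : z ∈ Subtype.val '' S := (h.mem_iff _ (hW'W hzW)).2 (hch.zero _ hqV)
    obtain ⟨z', hz', hzz'⟩ := hzS
    have hz1 : z 1 = 0 := by rw [← hzz']; exact hsub hz'
    have hq1 : (q : E3) 1 = 0 := hqP
    have h1 : projL b' (z - q) = 0 := by
      rw [map_sub, hz, hch.proj _ hqV, sub_self]
    have h2 := eq_smul_of_projL_eq_zero h1
    have h3 : ⟪b' 2, z - q⟫ = 0 := by
      rw [hb', inner_smul_left, ev, EuclideanSpace.inner_single_left]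
      simp [hz1, hq1]
    rw [h3, zero_smul, sub_eq_zero] at h2
    have : z' = q := Subtype.ext (hzz'.trans h2)
    rwa [this] at hz'

/-- **Main theorem, second half.** -/
theorem eq_plane {S : Set H3} (hS : IsMinimalIn wt UH (Subtype.val '' S)) (hne : S.Nonempty)
    (hsub : S ⊆ plane) : S = plane := by
  refine Subset.antisymm hsub ?_
  have hcl : IsOpen (Sᶜ : Set H3) := by
    have h1 : Sᶜ = Subtype.val ⁻¹' (UH \ (Subtype.val '' S)) := by
      ext q
      constructor
      · intro hq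
        exact ⟨q.2, fun h => hq (mem_val_image.1 h)⟩
      · rintro ⟨-, hq⟩ hqS
        exact hq (mem_val_image.2 hqS)
    rw [h1]
    exact hS.isOpen_diff.preimage continuous_subtype_val
  choose! O hO hpO hOS using fun (p : H3) (hp : p ∈ S) => exists_open_subset hS hsub hp
  have h := isPreconnected_iff_subset_of_disjoint.1 isPreconnected_plane
    (⋃ p ∈ S, O p) Sᶜ (isOpen_biUnion fun p hp => hO p hp) hcl
    (fun q _ => by
      by_cases hqS : q ∈ S
      · exact Or.inl (mem_biUnion hqS (hpO q hqS))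
      · exact Or.inr hqS)
    (by
      rw [eq_empty_iff_forall_notMem]
      rintro q ⟨hqP, hq1, hq2⟩
      simp only [mem_iUnion] at hq1
      obtain ⟨p, hp, hqp⟩ := hq1
      exact hq2 (hOS p hp ⟨hqp, hqP⟩))
  rcases h with h | h
  · intro q hq
    have h1 := h hq
    simp only [mem_iUnion] at h1
    obtain ⟨p, hp, hqp⟩ := h1
    exact hOS p hp ⟨hqp, hq⟩
  · obtain ⟨p, hp⟩ := hne
    exact absurd hp (h (hsub hp))

end Pool.Agent.Helper82
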