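import Mathlib
import Pool.Agent.Helper82.Rigid

/-!
# Explicit isometries: horizontal translations and the inversion
-/

open MeasureTheory MeasureTheory.Measure Module Set Filter Topology
open scoped ENNReal NNReal Gradient RealInnerProductSpace ContDiff

namespace Pool.Agent.Helper82

/-- Points from coordinates. -/
noncomputable def mk3 (x y t : ℝ) (h : 0 < t) : H3 := ⟨!₂[x, y, t], by simpa using h⟩

@[simp] lemma mk3_0 (x y t : ℝ) (h : 0 < t) : (mk3 x y t h : E3) 0 = x := by simp [mk3]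
@[simp] lemma mk3_1 (x y t : ℝ) (h : 0 < t) : (mk3 x y t h : E3) 1 = y := by simp [mk3]
@[simp] lemma mk3_2 (x y t : ℝ) (h : 0 < t) : (mk3 x y t h : E3) 2 = t := by simp [mk3]

lemma H3_ext {p q : H3} (h0 : (p : E3) 0 = (q : E3) 0) (h1 : (p : E3) 1 = (q : E3) 1)
    (h2 : (p : E3) 2 = (q : E3) 2) : p = q := by
  apply Subtype.ext
  ext i
  fin_cases i
  · exact h0
  · exact h1
  · exact h2

/-- Horizontal translation by `s` along the boundary line of the plane `y = 0`. -/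
noncomputable def TT (s : ℝ) : Equiv.Perm H3 where
  toFun p := mk3 ((p : E3) 0 + s) ((p : E3) 1) ((p : E3) 2) p.2
  invFun p := mk3 ((p : E3) 0 - s) ((p : E3) 1) ((p : E3) 2) p.2
  left_inv p := by apply H3_ext <;> simp
  right_inv p := by apply H3_ext <;> simp

@[simp] lemma TT_0 (s : ℝ) (p : H3) : (TT s p : E3) 0 = (p : E3) 0 + s := mk3_0 _ _ _ p.2
@[simp] lemma TT_1 (s : ℝ) (p : H3) : (TT s p : E3) 1 = (p : E3) 1 := mk3_1 _ _ _ p.2
@[simp] lemma TT_2 (s : ℝ) (p : H3) : (TT s p : E3) 2 = (p : E3) 2 := mk3_2 _ _ _ p.2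

/-- Squared Euclidean norm. -/
noncomputable def nn (p : E3) : ℝ := p 0 ^ 2 + p 1 ^ 2 + p 2 ^ 2

lemma nn_pos (p : H3) : 0 < nn p := by
  have := p.2
  unfold nn
  positivity

/-- The inversion `z ↦ -1 / z`. -/
noncomputable def jfun (p : H3) : H3 :=
  mk3 (-(p : E3) 0 / nn p) ((p : E3) 1 / nn p) ((p : E3) 2 / nn p) (div_pos p.2 (nn_pos p))

lemma nn_jfun (p : H3) : nn (jfun p) = (nn p)⁻¹ := by
  have h := (nn_pos p).ne'
  rw [nn, jfun, mk3_0, mk3_1, mk3_2]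
  rw [div_pow, div_pow, div_pow, ← add_div, ← add_div, neg_sq]
  change nn p / nn p ^ 2 = _
  field_simp

lemma jfun_jfun (p : H3) : jfun (jfun p) = p := by
  have h := (nn_pos p).ne'
  have h2 := nn_jfun p
  apply H3_ext
  · rw [jfun, mk3_0, h2, jfun, mk3_0]; field_simp
  · rw [jfun, mk3_1, h2, jfun, mk3_1]; field_simp
  · rw [jfun, mk3_2, h2, jfun, mk3_2]; field_simp

/-- The inversion as a permutation. -/
noncomputable def JJ : Equiv.Perm H3 where
  toFun := jfun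
  invFun := jfun
  left_inv := jfun_jfun
  right_inv := jfun_jfun

lemma JJ_0 (p : H3) : (JJ p : E3) 0 = -(p : E3) 0 / nn p := mk3_0 _ _ _ (div_pos p.2 (nn_pos p))
lemma JJ_1 (p : H3) : (JJ p : E3) 1 = (p : E3) 1 / nn p := mk3_1 _ _ _ (div_pos p.2 (nn_pos p))
lemma JJ_2 (p : H3) : (JJ p : E3) 2 = (p : E3) 2 / nn p := mk3_2 _ _ _ (div_pos p.2 (nn_pos p))

lemma JJ_inv : (JJ⁻¹ : Equiv.Perm H3) = JJ := by
  ext p
  rfl

lemma TT_inv (s : ℝ) : (TT s)⁻¹ = TT (-s) := by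
  apply inv_eq_of_mul_eq_one_left
  ext1 p
  apply H3_ext <;> simp [Equiv.Perm.mul_apply]

lemma TT_mul (s s' : ℝ) : TT s * TT s' = TT (s + s') := by
  ext1 p
  apply H3_ext
  · simp only [Equiv.Perm.mul_apply, TT_0]; ring
  · simp only [Equiv.Perm.mul_apply, TT_1]
  · simp only [Equiv.Perm.mul_apply, TT_2]

lemma TT_zero : TT 0 = 1 := by
  ext1 p
  apply H3_ext <;> simp

lemma TT_mem (s : ℝ) : TT s ∈ HIsom := by
  intro p q
  rw [coshDist_eq, coshDist_eq]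
  simp

lemma JJ_mem : JJ ∈ HIsom := by
  intro p q
  have hp := nn_pos p
  have hq := nn_pos q
  have hp2 := p.2
  have hq2 := q.2
  rw [coshDist_eq, coshDist_eq, JJ_0, JJ_0, JJ_1, JJ_1, JJ_2, JJ_2,
    div_eq_div_iff (by positivity) (by positivity)]
  have e : (-(p : E3) 0 / nn p - -(q : E3) 0 / nn q) ^ 2 + ((p : E3) 1 / nn p -
      (q : E3) 1 / nn q) ^ 2 + ((p : E3) 2 / nn p) ^ 2 + ((q : E3) 2 / nn q) ^ 2 =
      (((p : E3) 0 - (q : E3) 0) ^ 2 + ((p : E3) 1 - (q : E3) 1) ^ 2 + (p : E3) 2 ^ 2 +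
        (q : E3) 2 ^ 2) / (nn p * nn q) := by
    have h1 : (-(p : E3) 0 / nn p - -(q : E3) 0 / nn q) ^ 2 + ((p : E3) 1 / nn p -
      (q : E3) 1 / nn q) ^ 2 + ((p : E3) 2 / nn p) ^ 2 + ((q : E3) 2 / nn q) ^ 2 =
      nn p / nn p ^ 2 + nn q / nn q ^ 2 -
        2 * ((p : E3) 0 * (q : E3) 0 + (p : E3) 1 * (q : E3) 1) / (nn p * nn q) := by
      have e1 : nn p / nn p ^ 2 =
        ((p : E3) 0 ^ 2 + (p : E3) 1 ^ 2 + (p : E3) 2 ^ 2) / nn p ^ 2 := rfl
      have e2 : nn q / nn q ^ 2 =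
        ((q : E3) 0 ^ 2 + (q : E3) 1 ^ 2 + (q : E3) 2 ^ 2) / nn q ^ 2 := rfl
      rw [e1, e2]
      field_simp
      ring
    have h2 : ((p : E3) 0 - (q : E3) 0) ^ 2 + ((p : E3) 1 - (q : E3) 1) ^ 2 + (p : E3) 2 ^ 2 +
        (q : E3) 2 ^ 2 = nn p + nn q - 2 * ((p : E3) 0 * (q : E3) 0 + (p : E3) 1 * (q : E3) 1) := by
      unfold nn; ring
    rw [h1, h2]
    field_simp
    ring
  rw [e]
  field_simp

/-- `g` acts as the real Möbius transformation with matrix `(a, b; c, d)`. -/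
def IsMob (a b c d : ℝ) (g : Equiv.Perm H3) : Prop :=
  a * d - b * c = 1 ∧ ∀ p : H3,
    0 < c ^ 2 * nn p + 2 * c * d * (p : E3) 0 + d ^ 2 ∧
    (g p : E3) 0 * (c ^ 2 * nn p + 2 * c * d * (p : E3) 0 + d ^ 2) =
      a * c * nn p + (a * d + b * c) * (p : E3) 0 + b * d ∧
    (g p : E3) 1 * (c ^ 2 * nn p + 2 * c * d * (p : E3) 0 + d ^ 2) = (p : E3) 1 ∧
    (g p : E3) 2 * (c ^ 2 * nn p + 2 * c * d * (p : E3) 0 + d ^ 2) = (p : E3) 2 ∧
    nn (g p) * (c ^ 2 * nn p + 2 * c * d * (p : E3) 0 + d ^ 2) =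
      a ^ 2 * nn p + 2 * a * b * (p : E3) 0 + b ^ 2

lemma isMob_TT (s : ℝ) : IsMob 1 s 0 1 (TT s) := by
  refine ⟨by ring, fun p => ⟨by norm_num, ?_, ?_, ?_, ?_⟩⟩
  · simp
  · simp
  · simp
  · simp only [nn, TT_0, TT_1, TT_2]; ring

lemma isMob_JJ : IsMob 0 (-1) 1 0 JJ := by
  refine ⟨by ring, fun p => ?_⟩
  have h := nn_pos p
  refine ⟨by simpa using h, ?_, ?_, ?_, ?_⟩
  · rw [JJ_0]; field_simp; ring
  · rw [JJ_1]; field_simp; ring
  · rw [JJ_2]; field_simp; ring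
  · have := nn_jfun p
    change nn (jfun p) * _ = _
    rw [this]
    field_simp
    ring

lemma IsMob.mul {a b c d a' b' c' d' : ℝ} {g g' : Equiv.Perm H3} (h' : IsMob a' b' c' d' g')
    (h : IsMob a b c d g) :
    IsMob (a' * a + b' * c) (a' * b + b' * d) (c' * a + d' * c) (c' * b + d' * d) (g' * g) := by
  refine ⟨?_, fun p => ?_⟩
  · have h1 := h'.1
    have h2 := h.1
    linear_combination (a * d - b * c) * h1 + h2
  · obtain ⟨hN, h0, h1, h2, h3⟩ := h.2 p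
    obtain ⟨hN', h0', h1', h2', h3'⟩ := h'.2 (g p)
    set N := c ^ 2 * nn p + 2 * c * d * (p : E3) 0 + d ^ 2 with hNdef
    set N' := c' ^ 2 * nn (g p) + 2 * c' * d' * (g p : E3) 0 + d' ^ 2 with hN'def
    have hNN : (c' * a + d' * c) ^ 2 * nn p + 2 * (c' * a + d' * c) * (c' * b + d' * d) *
        (p : E3) 0 + (c' * b + d' * d) ^ 2 = N' * N := by
      rw [hN'def, add_mul, add_mul]
      have e1 : c' ^ 2 * nn (g p) * N = c' ^ 2 * (nn (g p) * N) := by ring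
      have e2 : 2 * c' * d' * (g p : E3) 0 * N = 2 * c' * d' * ((g p : E3) 0 * N) := by ring
      rw [e1, e2, h3, h0, hNdef]
      ring
    rw [hNN, Equiv.Perm.mul_apply]
    refine ⟨mul_pos hN' hN, ?_, ?_, ?_, ?_⟩
    · rw [← mul_assoc, h0', add_mul, add_mul]
      have e1 : a' * c' * nn (g p) * N = a' * c' * (nn (g p) * N) := by ring
      have e2 : (a' * d' + b' * c') * (g p : E3) 0 * N =
        (a' * d' + b' * c') * ((g p : E3) 0 * N) := by ring
      rw [e1, e2, h3, h0, hNdef]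
      ring
    · rw [← mul_assoc, h1', h1]
    · rw [← mul_assoc, h2', h2]
    · rw [← mul_assoc, h3', add_mul, add_mul]
      have e1 : a' ^ 2 * nn (g p) * N = a' ^ 2 * (nn (g p) * N) := by ring
      have e2 : 2 * a' * b' * (g p : E3) 0 * N = 2 * a' * b' * ((g p : E3) 0 * N) := by ring
      rw [e1, e2, h3, h0, hNdef]
      ring

lemma IsMob.inv {a b c d : ℝ} {g : Equiv.Perm H3} (h : IsMob a b c d g) :
    IsMob d (-b) (-c) a g⁻¹ := by
  have hdet := h.1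
  refine ⟨by linarith, fun q => ?_⟩
  set p : H3 := g⁻¹ q with hp
  have hgp : g p = q := g.apply_symm_apply q
  obtain ⟨hN, h0, h1, h2, h3⟩ := h.2 p
  rw [hgp] at h0 h1 h2 h3
  set N := c ^ 2 * nn p + 2 * c * d * (p : E3) 0 + d ^ 2 with hNdef
  set N' := (-c) ^ 2 * nn q + 2 * (-c) * a * (q : E3) 0 + a ^ 2 with hN'def
  have hNN : N' * N = 1 := by
    have : N' * N = c ^ 2 * (nn q * N) - 2 * c * a * ((q : E3) 0 * N) + a ^ 2 * N := by
      rw [hN'def]; ring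
    rw [this, h3, h0, hNdef]
    linear_combination (a * d - b * c + 1) * hdet
  have hN' : 0 < N' := by
    by_contra h
    nlinarith [not_lt.1 h]
  have key : ∀ X Y : ℝ, X = Y * N → X * N' = Y := by
    intro X Y hXY
    rw [hXY, mul_assoc, mul_comm N N', hNN, mul_one]
  refine ⟨hN', key _ _ ?_, key _ _ h1.symm, key _ _ h2.symm, key _ _ ?_⟩
  · have : (d * -c * nn q + (d * a + -b * -c) * (q : E3) 0 + -b * a) * N =
      -(d * c) * (nn q * N) + (d * a + b * c) * ((q : E3) 0 * N) - b * a * N := by ring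
    rw [this, h3, h0, hNdef]
    linear_combination (-(p : E3) 0 * (a * d - b * c + 1)) * hdet
  · have : (d ^ 2 * nn q + 2 * d * -b * (q : E3) 0 + (-b) ^ 2) * N =
      d ^ 2 * (nn q * N) - 2 * d * b * ((q : E3) 0 * N) + b ^ 2 * N := by ring
    rw [this, h3, h0, hNdef]
    linear_combination (-nn p * (a * d - b * c + 1)) * hdet

/-- The subgroup generated by translations and the inversion consists of Möbius maps. -/
lemma exists_isMob_of_mem {g : Equiv.Perm H3}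
    (hg : g ∈ Subgroup.closure (insert JJ (range TT))) : ∃ a b c d, IsMob a b c d g := by
  induction hg using Subgroup.closure_induction with
  | mem x hx =>
    rcases hx with rfl | ⟨s, rfl⟩
    · exact ⟨_, _, _, _, isMob_JJ⟩
    · exact ⟨_, _, _, _, isMob_TT s⟩
  | one => exact ⟨_, _, _, _, TT_zero ▸ isMob_TT 0⟩
  | mul x hx y hy ihx ihy =>
    obtain ⟨a, b, c, d, h⟩ := ihx
    obtain ⟨a', b', c', d', h'⟩ := ihy
    exact ⟨_, _, _, _, h.mul h'⟩
  | inv x hx ihx =>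
    obtain ⟨a, b, c, d, h⟩ := ihx
    exact ⟨_, _, _, _, h.inv⟩

end Pool.Agent.Helper82
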