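import Mathlib
import Pool.Agent.Helper82.Mobius

/-!
# Free groups of isometries generated by parabolic elements
-/

open MeasureTheory MeasureTheory.Measure Module Set Filter Topology
open scoped ENNReal NNReal Gradient RealInnerProductSpace ContDiff

namespace Pool.Agent.Helper82

/-- The map sending infinity to `4 n`. -/
noncomputable def AA (n : ℤ) : Equiv.Perm H3 := TT (4 * n) * JJ

/-- The parabolic isometry `z ↦ z / (4 z + 1)`, conjugated so as to fix `4 n`. -/
noncomputable def BB (n : ℤ) : Equiv.Perm H3 := AA n * TT (-4) * (AA n)⁻¹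

lemma AA_mem (n : ℤ) : AA n ∈ HIsom := mul_mem (TT_mem _) JJ_mem

lemma BB_mem (n : ℤ) : BB n ∈ HIsom := mul_mem (mul_mem (AA_mem n) (TT_mem _)) (inv_mem (AA_mem n))

/-- Horizontal coordinate in the frame of the cusp `4 n`. -/
noncomputable def uc (n : ℤ) (p : H3) : ℝ := ((AA n)⁻¹ p : E3) 0

lemma AA_inv (n : ℤ) : (AA n)⁻¹ = JJ * TT (-(4 * n)) := by
  rw [AA, mul_inv_rev, JJ_inv, TT_inv]

lemma uc_eq (n : ℤ) (p : H3) : uc n p = -((p : E3) 0 - 4 * n) /
    (((p : E3) 0 - 4 * n) ^ 2 + (p : E3) 1 ^ 2 + (p : E3) 2 ^ 2) := by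
  rw [uc, AA_inv, Equiv.Perm.mul_apply, JJ_0, nn, TT_0, TT_1, TT_2, ← sub_eq_add_neg]

lemma inv_apply_self' (g : Equiv.Perm H3) (p : H3) : g⁻¹ (g p) = p := g.symm_apply_apply p

lemma apply_inv_self' (g : Equiv.Perm H3) (p : H3) : g (g⁻¹ p) = p := g.apply_symm_apply p

lemma uc_BB (n : ℤ) (p : H3) : uc n (BB n p) = uc n p - 4 := by
  have : (AA n)⁻¹ (BB n p) = TT (-4) ((AA n)⁻¹ p) := by
    rw [BB, Equiv.Perm.mul_apply, Equiv.Perm.mul_apply, inv_apply_self']
  rw [uc, this, TT_0, uc]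
  ring

lemma uc_BB_inv (n : ℤ) (p : H3) : uc n ((BB n)⁻¹ p) = uc n p + 4 := by
  have h := uc_BB n ((BB n)⁻¹ p)
  rw [apply_inv_self'] at h
  linarith

lemma abs_le_of_uc {n : ℤ} {p : H3} (h : 2 ≤ |uc n p|) : |(p : E3) 0 - 4 * n| ≤ 1 / 2 := by
  have hp := p.2
  rw [uc_eq, abs_div, abs_neg, abs_of_pos (a := ((p : E3) 0 - 4 * n) ^ 2 + (p : E3) 1 ^ 2 +
    (p : E3) 2 ^ 2) (by positivity), le_div_iff₀ (by positivity)] at h
  set v := (p : E3) 0 - 4 * n
  have h1 : 2 * v ^ 2 ≤ |v| := by nlinarith [sq_nonneg ((p : E3) 1), sq_nonneg ((p : E3) 2)]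
  rw [← sq_abs v] at h1
  by_contra h2
  have h3 : 1 / 2 < |v| := not_le.1 h2
  nlinarith

/-- The ping-pong regions. -/
def ZZ (n : ℤ) (b : Bool) : Set H3 := {p | cond b (uc n p ≤ -2) (2 ≤ uc n p)}

lemma mem_ZZ_true {n : ℤ} {p : H3} : p ∈ ZZ n true ↔ uc n p ≤ -2 := Iff.rfl

lemma mem_ZZ_false {n : ℤ} {p : H3} : p ∈ ZZ n false ↔ 2 ≤ uc n p := Iff.rfl

lemma two_le_of_mem_ZZ {n : ℤ} {b : Bool} {p : H3} (h : p ∈ ZZ n b) : 2 ≤ |uc n p| := by
  cases b
  · rw [mem_ZZ_false] at h; exact h.trans (le_abs_self _)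
  · rw [mem_ZZ_true] at h
    have := neg_abs_le (uc n p)
    linarith

lemma ZZ_disjoint {n m : ℤ} {b c : Bool} {p : H3} (h : p ∈ ZZ n b) (h' : p ∈ ZZ m c) :
    n = m ∧ b = c := by
  have h1 := abs_le_of_uc (two_le_of_mem_ZZ h)
  have h2 := abs_le_of_uc (two_le_of_mem_ZZ h')
  rw [abs_le] at h1 h2
  have h3 : (n : ℝ) < m + 1 := by linarith [h1.1, h1.2, h2.1, h2.2]
  have h4 : (m : ℝ) < n + 1 := by linarith [h1.1, h1.2, h2.1, h2.2]
  have h3' : n < m + 1 := by exact_mod_cast h3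
  have h4' : m < n + 1 := by exact_mod_cast h4
  have hnm : n = m := by omega
  subst hnm
  refine ⟨rfl, ?_⟩
  cases b <;> cases c
  · rfl
  · rw [mem_ZZ_false] at h; rw [mem_ZZ_true] at h'; linarith
  · rw [mem_ZZ_true] at h; rw [mem_ZZ_false] at h'; linarith
  · rfl

lemma letter_mem {n : ℤ} {b : Bool} {p : H3} (h : p ∉ ZZ n (!b)) :
    (cond b (BB n) (BB n)⁻¹ : Equiv.Perm H3) p ∈ ZZ n b := by
  cases b
  · change (BB n)⁻¹ p ∈ ZZ n false
    rw [mem_ZZ_false, uc_BB_inv]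
    have h' : ¬ (uc n p ≤ -2) := h
    linarith [not_le.1 h']
  · change BB n p ∈ ZZ n true
    rw [mem_ZZ_true, uc_BB]
    have h' : ¬ (2 ≤ uc n p) := h
    linarith [not_le.1 h']

/-- The common complement of all regions. -/
def EE : Set H3 := {p | ∀ m : ℤ, |uc m p| < 2}

lemma notMem_ZZ_of_EE {p : H3} (hp : p ∈ EE) (n : ℤ) (b : Bool) : p ∉ ZZ n b := fun h =>
  absurd (two_le_of_mem_ZZ h) (not_le.2 (hp n))

lemma strip_subset {p : H3} (h1 : 1 < (p : E3) 0) (h2 : (p : E3) 0 < 3) : p ∈ EE := by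
  intro m
  by_contra h
  have h3 := abs_le_of_uc (not_lt.1 h)
  rw [abs_le] at h3
  have h4 : (0 : ℝ) < m := by linarith [h3.2]
  have h5 : (m : ℝ) < 1 := by linarith [h3.1]
  have h4' : 0 < m := by exact_mod_cast h4
  have h5' : m < 1 := by exact_mod_cast h5
  omega

variable {ι : Type} (n : ι → ℤ)

/-- The action of a letter. -/
noncomputable def letter (x : ι × Bool) : Equiv.Perm H3 := cond x.2 (BB (n x.1)) (BB (n x.1))⁻¹

lemma word_mem (hn : Function.Injective n) {p : H3} (hp : p ∈ EE) :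
    ∀ (L : List (ι × Bool)) (x : ι × Bool), FreeGroup.IsReduced (x :: L) →
      ((x :: L).map (letter n)).prod p ∈ ZZ (n x.1) x.2 := by
  intro L
  induction L with
  | nil =>
    intro x _
    simp only [List.map_cons, List.map_nil, List.prod_cons, List.prod_nil, mul_one]
    exact letter_mem (notMem_ZZ_of_EE hp _ _)
  | cons y L ih =>
    intro x hx
    rw [FreeGroup.isReduced_cons_cons] at hx
    have h1 := ih y hx.2
    rw [List.map_cons, List.prod_cons, Equiv.Perm.mul_apply]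
    refine letter_mem fun h2 => ?_
    obtain ⟨h3, h4⟩ := ZZ_disjoint h1 h2
    have h5 := hx.1 (hn h3).symm
    rw [h4] at h5
    cases hb : x.2 <;> simp [hb] at h5

/-- The representation of the free group. -/
noncomputable def rep : FreeGroup ι →* Equiv.Perm H3 := FreeGroup.lift fun i => BB (n i)

lemma rep_notMem (hn : Function.Injective n) {w : FreeGroup ι} (hw : w ≠ 1) {p : H3}
    (hp : p ∈ EE) : rep n w p ∉ EE := by
  classical
  have h1 : rep n w = (w.toWord.map (letter n)).prod := by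
    conv_lhs => rw [← FreeGroup.mk_toWord (x := w)]
    rw [rep, FreeGroup.lift_mk]
    rfl
  have h2 : w.toWord ≠ [] := fun h => hw (FreeGroup.toWord_eq_nil_iff.1 h)
  obtain ⟨x, L, hL⟩ := List.exists_cons_of_ne_nil h2
  have h3 : FreeGroup.IsReduced (x :: L) := hL ▸ FreeGroup.isReduced_toWord
  have h4 := word_mem n hn hp L x h3
  rw [← hL, ← h1] at h4
  intro h
  exact notMem_ZZ_of_EE h _ _ h4

lemma EE_nonempty : mk3 2 0 1 one_pos ∈ EE := strip_subset (by simp) (by simp; norm_num)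

lemma rep_injective (hn : Function.Injective n) : Function.Injective (rep n) := by
  rw [injective_iff_map_eq_one]
  intro w hw
  by_contra h
  have := rep_notMem n hn h EE_nonempty
  rw [hw] at this
  exact this EE_nonempty

/-- The group. -/
noncomputable def GG : Subgroup (Equiv.Perm H3) := (rep n).range

lemma GG_wandering (hn : Function.Injective n) {γ : Equiv.Perm H3} (hγ : γ ∈ GG n) {p : H3}
    (hp : p ∈ EE) (hγp : γ p ∈ EE) : γ = 1 := by
  obtain ⟨w, rfl⟩ := hγ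
  by_contra h
  exact rep_notMem n hn (fun hw => h (by rw [hw, map_one])) hp hγp

lemma GG_le {K : Subgroup (Equiv.Perm H3)} (h : ∀ i, BB (n i) ∈ K) : GG n ≤ K := by
  rw [GG, rep]
  apply FreeGroup.range_lift_le
  rintro _ ⟨i, rfl⟩
  exact h i

lemma GG_le_HIsom : GG n ≤ HIsom := GG_le n fun i => BB_mem (n i)

lemma GG_le_closure : GG n ≤ Subgroup.closure (insert JJ (range TT)) := by
  have hJ : JJ ∈ Subgroup.closure (insert JJ (range TT)) :=
    Subgroup.subset_closure (mem_insert _ _)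
  have hT : ∀ s, TT s ∈ Subgroup.closure (insert JJ (range TT)) := fun s =>
    Subgroup.subset_closure (mem_insert_of_mem _ ⟨s, rfl⟩)
  have hA : ∀ m, AA m ∈ Subgroup.closure (insert JJ (range TT)) := fun m => mul_mem (hT _) hJ
  exact GG_le n fun i => mul_mem (mul_mem (hA _) (hT _)) (inv_mem (hA _))

lemma GG_torsionFree (hn : Function.Injective n) : IsTorsionFree (GG n) := by
  rintro _ ⟨w, rfl⟩ k hk h
  rw [← map_pow] at h
  have h1 : w ^ k = 1 := (injective_iff_map_eq_one _).1 (rep_injective n hn) _ h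
  have h2 : w = 1 := by
    have := pow_left_injective hk.ne' (M := FreeGroup ι)
    apply this
    simpa using h1
  rw [h2, map_one]

lemma nonempty_equiv (hn : Function.Injective n) : Nonempty (GG n ≃* FreeGroup ι) :=
  ⟨(MonoidHom.ofInjective (rep_injective n hn)).symm⟩

end Pool.Agent.Helper82
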