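import Mathlib
import Pool.Agent.Helper82.PingPong

/-!
# Groups with an open wandering set are discrete
-/

open MeasureTheory MeasureTheory.Measure Module Set Filter Topology
open scoped ENNReal NNReal Gradient RealInnerProductSpace ContDiff

namespace Pool.Agent.Helper82

lemma continuous_coshDist (p : H3) : Continuous (fun q : H3 => coshDist p q) := by
  have h : (fun q : H3 => coshDist p q) = fun q : H3 => CD p q := by
    funext q; rw [CD_coe, coshDist_comm]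
  rw [h]
  exact continuous_restrict (contDiffOn_CD p).continuousOn

lemma exists_coshDist_ball {O : Set H3} (hO : IsOpen O) {e : H3} (he : e ∈ O) :
    ∃ δ : ℝ, 0 < δ ∧ δ ≤ 1 ∧ ∀ q, coshDist e q < 1 + δ → q ∈ O := by
  obtain ⟨O', hO', rfl⟩ := isOpen_induced_iff.1 hO
  obtain ⟨ε, hε, hball⟩ := Metric.isOpen_iff.1 hO' e he
  have he2 := e.2
  refine ⟨min 1 (ε ^ 2 / (8 * (e : E3) 2 ^ 2)), by positivity, min_le_left _ _, fun q hq => ?_⟩
  apply hball
  rw [Metric.mem_ball]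
  set δ := min 1 (ε ^ 2 / (8 * (e : E3) 2 ^ 2)) with hδ
  have h1 : δ ≤ 1 := min_le_left _ _
  have h2 : δ ≤ ε ^ 2 / (8 * (e : E3) 2 ^ 2) := min_le_right _ _
  rw [le_div_iff₀ (by positivity)] at h2
  have hq2 := q.2
  have h3 := height_le q e
  rw [coshDist_comm] at h3
  have h4 : (q : E3) 2 ≤ 4 * (e : E3) 2 := by nlinarith
  have h5 : dist (e : E3) q ^ 2 / (2 * (e : E3) 2 * (q : E3) 2) < δ := by
    unfold coshDist at hq; linarith
  rw [div_lt_iff₀ (by positivity)] at h5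
  have hδ0 : 0 < δ := by rw [hδ]; positivity
  have h6 : δ * (2 * (e : E3) 2 * (q : E3) 2) ≤ ε ^ 2 := by
    calc δ * (2 * (e : E3) 2 * (q : E3) 2) ≤ δ * (2 * (e : E3) 2 * (4 * (e : E3) 2)) := by gcongr
      _ = δ * (8 * (e : E3) 2 ^ 2) := by ring
      _ ≤ ε ^ 2 := h2
  rw [dist_comm]
  exact lt_of_pow_lt_pow_left₀ 2 hε.le (h5.trans_le h6)

lemma isCompact_ball (c : ℝ) : IsCompact {q : H3 | coshDist oo q ≤ c} := by
  have h1 : {q : H3 | coshDist oo q ≤ c} ⊆ Subtype.val ⁻¹' (KK (max c 0)) := by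
    intro q hq
    have hq' : coshDist oo q ≤ c := hq
    have hq2 := q.2
    have h2 : CD oo (q : E3) = coshDist q oo := CD_coe oo q
    rw [CD_oo, coshDist_comm] at h2
    have h3 : (‖(q : E3)‖ ^ 2 + 1) / (2 * (q : E3) 2) ≤ max c 0 := by
      rw [h2]; exact hq'.trans (le_max_left _ _)
    rw [div_le_iff₀ (by positivity)] at h3
    change ‖(q : E3)‖ ^ 2 + 1 ≤ 2 * max c 0 * (q : E3) 2
    linarith
  have h2 : IsCompact ((Subtype.val : H3 → E3) ⁻¹' (KK (max c 0))) := by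
    refine (Topology.IsInducing.isCompact_preimage_iff (f := (Subtype.val : H3 → E3)) ⟨rfl⟩
      ?_).2 (isCompact_KK (le_max_right _ _))
    intro q hq
    exact ⟨⟨q, KK_subset (le_max_right _ _) hq⟩, rfl⟩
  exact h2.of_isClosed_subset (isClosed_le (continuous_coshDist oo) continuous_const) h1

lemma isDiscrete_of_wandering {Γ : Subgroup (Equiv.Perm H3)} (hΓ : Γ ≤ HIsom) {O : Set H3}
    (hO : IsOpen O) (hne : O.Nonempty) (hw : ∀ γ ∈ Γ, ∀ p ∈ O, γ p ∈ O → γ = 1) :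
    IsDiscrete Γ := by
  intro p r
  obtain ⟨e, he⟩ := hne
  obtain ⟨δ, hδ0, hδ1, hδ⟩ := exists_coshDist_ball hO he
  by_contra hinf
  have hinf' : {γ : Equiv.Perm H3 | γ ∈ Γ ∧ coshDist p (γ p) ≤ r}.Infinite := hinf
  set A := {γ : Equiv.Perm H3 | γ ∈ Γ ∧ coshDist p (γ p) ≤ r} with hA
  have hinj : InjOn (fun γ : Equiv.Perm H3 => γ e) A := by
    rintro γ ⟨hγ, -⟩ γ' ⟨hγ', -⟩ h
    have h1 : (γ⁻¹ * γ') e = e := by
      rw [Equiv.Perm.mul_apply]
      have h2 : γ e = γ' e := h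
      rw [← h2, inv_apply_self']
    have h2 := hw _ (mul_mem (inv_mem hγ) hγ') e he (by rw [h1]; exact he)
    exact inv_mul_eq_one.1 h2
  have hC : ((fun γ : Equiv.Perm H3 => γ e) '' A).Infinite := hinf'.image hinj
  have hK : ((fun γ : Equiv.Perm H3 => γ e) '' A) ⊆
      {q : H3 | coshDist oo q ≤ 2 * coshDist oo p * (2 * r * coshDist p e)} := by
    rintro _ ⟨γ, ⟨hγ, hγr⟩, rfl⟩
    have h1 := coshDist_le oo p (γ e)
    have h2 := coshDist_le p (γ p) (γ e)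
    rw [hΓ hγ p e] at h2
    have h3 := one_le_coshDist oo p
    have h4 := one_le_coshDist p e
    change coshDist oo (γ e) ≤ _
    calc coshDist oo (γ e) ≤ 2 * coshDist oo p * coshDist p (γ e) := h1
      _ ≤ 2 * coshDist oo p * (2 * coshDist p (γ p) * coshDist p e) := by gcongr
      _ ≤ _ := by gcongr
  obtain ⟨x, -, hx⟩ := hC.exists_accPt_of_subset_isCompact (isCompact_ball _) hK
  rw [accPt_iff_nhds] at hx
  have hN : {q : H3 | coshDist x q < 1 + δ / 32} ∈ 𝓝 x :=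
    (isOpen_lt (continuous_coshDist x) continuous_const).mem_nhds
      (by change coshDist x x < 1 + δ / 32; rw [coshDist_self]; linarith)
  obtain ⟨y1, ⟨hy1N, hy1⟩, hy1x⟩ := hx _ hN
  obtain ⟨y2, ⟨⟨hy2N, hy21⟩, hy2⟩, -⟩ := hx _ (inter_mem hN (isOpen_compl_singleton.mem_nhds
    (show x ∈ ({y1} : Set H3)ᶜ from fun h => hy1x h.symm)))
  obtain ⟨γ, ⟨hγ, -⟩, rfl⟩ := hy1
  obtain ⟨γ', ⟨hγ', -⟩, rfl⟩ := hy2
  simp only at hy1N hy2N hy21
  have h1 : coshDist (γ e) (γ' e) ≤ 1 + 16 * (δ / 32) :=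
    coshDist_close (p := x) (by linarith) (le_of_lt hy1N) (le_of_lt hy2N)
  have h2 : coshDist e ((γ⁻¹ * γ') e) < 1 + δ := by
    rw [← hΓ hγ, Equiv.Perm.mul_apply, apply_inv_self']
    linarith
  have h3 := hw _ (mul_mem (inv_mem hγ) hγ') e he (hδ _ h2)
  have h4 : γ = γ' := inv_mul_eq_one.1 h3
  apply hy21
  rw [h4]
  rfl

variable {ι : Type} (n : ι → ℤ)

lemma GG_discrete (hn : Function.Injective n) : IsDiscrete (GG n) := by
  have hO1 : IsOpen {p : H3 | 1 < (p : E3) 0} := isOpen_lt continuous_const (by fun_prop)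
  have hO2 : IsOpen {p : H3 | (p : E3) 0 < 3} := isOpen_lt (by fun_prop) continuous_const
  have hO : IsOpen {p : H3 | 1 < (p : E3) 0 ∧ (p : E3) 0 < 3} := hO1.inter hO2
  refine isDiscrete_of_wandering (GG_le_HIsom n) hO ⟨mk3 2 0 1 one_pos, by simp; norm_num⟩ ?_
  rintro γ hγ p ⟨h1, h2⟩ ⟨h3, h4⟩
  exact GG_wandering n hn hγ (strip_subset h1 h2) (strip_subset h3 h4)

lemma GG_plane {γ : Equiv.Perm H3} (hγ : γ ∈ GG n) {q : H3} (hq : q ∈ plane) : γ q ∈ plane := by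
  obtain ⟨a, b, c, d, h⟩ := exists_isMob_of_mem (GG_le_closure n hγ)
  obtain ⟨hN, -, h1, -⟩ := h.2 q
  have hq' : (q : E3) 1 = 0 := hq
  rw [hq'] at h1
  rcases mul_eq_zero.1 h1 with h | h
  · exact h
  · exact absurd h hN.ne'

end Pool.Agent.Helper82
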