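import Mathlib
import Pool.Agent.Helper82.Wandering

/-!
# Parabolic elements and the rank-one cusp
-/

open MeasureTheory MeasureTheory.Measure Module Set Filter Topology
open scoped ENNReal NNReal Gradient RealInnerProductSpace ContDiff

namespace Pool.Agent.Helper82

lemma isParabolic_TT {s : ℝ} (hs : s ≠ 0) : IsParabolic (TT s) := by
  refine ⟨fun p h => hs ?_, fun ε hε => ?_⟩
  · have := congrArg (fun q : H3 => (q : E3) 0) h
    simp only [TT_0] at this
    linarith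
  · set t := √(s ^ 2 / ε) with ht
    have ht2 : t ^ 2 = s ^ 2 / ε := Real.sq_sqrt (by positivity)
    have ht0 : 0 < t := Real.sqrt_pos.2 (by positivity)
    refine ⟨mk3 0 0 t ht0, ?_⟩
    rw [coshDist_eq]
    simp only [TT_0, TT_1, TT_2, mk3_0, mk3_1, mk3_2]
    rw [div_lt_iff₀ (by positivity)]
    have h1 : s ^ 2 = ε * t ^ 2 := by rw [ht2]; field_simp
    have h2 : 0 < ε * t ^ 2 := by positivity
    nlinarith

lemma IsParabolic.conj {g A : Equiv.Perm H3} (hA : A ∈ HIsom) (hg : IsParabolic g) :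
    IsParabolic (A * g * A⁻¹) := by
  refine ⟨fun p h => hg.1 (A⁻¹ p) ?_, fun ε hε => ?_⟩
  · rw [Equiv.Perm.mul_apply, Equiv.Perm.mul_apply] at h
    have := congrArg (fun q => A⁻¹ q) h
    simp only [inv_apply_self'] at this
    exact this
  · obtain ⟨p, hp⟩ := hg.2 ε hε
    refine ⟨A p, ?_⟩
    rw [Equiv.Perm.mul_apply, Equiv.Perm.mul_apply, inv_apply_self', hA]
    exact hp

lemma TT_zpow (s : ℝ) (k : ℤ) : TT s ^ k = TT (s * k) := by
  induction k with
  | zero => simp [TT_zero]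
  | succ k ih => rw [zpow_add_one, ih, TT_mul]; congr 1; push_cast; ring
  | pred k ih => rw [zpow_sub_one, ih, TT_inv, TT_mul]; congr 1; push_cast; ring

lemma BB_zpow (m k : ℤ) : BB m ^ k = AA m * TT (-4 * k) * (AA m)⁻¹ := by
  rw [BB, conj_zpow, TT_zpow]

lemma normSq_eq (c d : ℝ) (p : H3) :
    c ^ 2 * nn p + 2 * c * d * (p : E3) 0 + d ^ 2 =
      (c * (p : E3) 0 + d) ^ 2 + c ^ 2 * (p : E3) 1 ^ 2 + c ^ 2 * (p : E3) 2 ^ 2 := by
  unfold nn; ring

lemma ratio_bound {x y : ℝ} {N C : ℝ} (hx : 0 < x) (hy : 0 < y) (hN : y * N = x)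
    (hC : (x ^ 2 + y ^ 2) / (2 * x * y) ≤ C) : N ^ 2 + 1 ≤ 2 * C * N := by
  rw [div_le_iff₀ (by positivity), ← hN] at hC
  have hy2 : 0 < y ^ 2 := by positivity
  have : y ^ 2 * (N ^ 2 + 1) ≤ y ^ 2 * (2 * C * N) := by nlinarith
  exact le_of_mul_le_mul_left this hy2

lemma le_coshDist_heights (p q : H3) :
    ((p : E3) 2 ^ 2 + (q : E3) 2 ^ 2) / (2 * (p : E3) 2 * (q : E3) 2) ≤ coshDist p q := by
  rw [coshDist_eq]
  have hp := p.2
  have hq := q.2
  refine div_le_div_of_nonneg_right ?_ (by positivity)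
  nlinarith [sq_nonneg ((p : E3) 0 - (q : E3) 0), sq_nonneg ((p : E3) 1 - (q : E3) 1)]

lemma sq_sub_le_coshDist (p q : H3) :
    ((p : E3) 0 - (q : E3) 0) ^ 2 ≤ (coshDist p q - 1) * (2 * (p : E3) 2 * (q : E3) 2) := by
  have h := coshDist_mul p q
  nlinarith [sq_nonneg ((p : E3) 2 - (q : E3) 2), sq_nonneg ((p : E3) 1 - (q : E3) 1)]

/-- A Möbius map not fixing infinity, followed by a large translation, has displacement bounded
below. -/
lemma displacement_large {a b c d : ℝ} {g : Equiv.Perm H3} (h : IsMob a b c d g) (hc : c ≠ 0) :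
    ∃ S : ℝ, ∀ s, S < |s| → ∀ p, 5 / 4 ≤ coshDist p ((TT s * g) p) := by
  refine ⟨8 / |c| + |d / c| + |a / c|, fun s hs p => ?_⟩
  by_contra hlt
  have hlt' : coshDist p ((TT s * g) p) < 5 / 4 := not_le.1 hlt
  rw [Equiv.Perm.mul_apply] at hlt'
  obtain ⟨hN, h0, -, h2, -⟩ := h.2 p
  have hdet := h.1
  set N := c ^ 2 * nn p + 2 * c * d * (p : E3) 0 + d ^ 2 with hNdef
  have hNsq : N = (c * (p : E3) 0 + d) ^ 2 + c ^ 2 * (p : E3) 1 ^ 2 + c ^ 2 * (p : E3) 2 ^ 2 :=
    normSq_eq c d p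
  have hp2 := p.2
  have hg2 := (g p).2
  have hcc : 0 < |c| := abs_pos.2 hc
  have hratio : N ^ 2 + 1 ≤ 2 * (5 / 4) * N := by
    refine ratio_bound (x := (p : E3) 2) (y := (g p : E3) 2) hp2 hg2 h2 ?_
    have := le_coshDist_heights p (TT s (g p))
    rw [TT_2] at this
    linarith
  have hN1 : 1 / 2 ≤ N := by nlinarith
  have hN2 : N ≤ 2 := by nlinarith
  have hn0 : 0 ≤ (c * (p : E3) 0 + d) ^ 2 := sq_nonneg _
  have hn1 : 0 ≤ c ^ 2 * (p : E3) 1 ^ 2 := by positivity
  have hn2 : 0 ≤ c ^ 2 * (p : E3) 2 ^ 2 := by positivity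
  have e1 : |c * (p : E3) 0 + d| ≤ 2 :=
    abs_le_of_sq_le_sq (by linarith) (by norm_num)
  have e2 : |(p : E3) 0 + d / c| ≤ 2 / |c| := by
    rw [le_div_iff₀ hcc, ← abs_mul]
    have : ((p : E3) 0 + d / c) * c = c * (p : E3) 0 + d := by field_simp
    rw [this]; exact e1
  have e3 : ((g p : E3) 0 - a / c) * N = -((p : E3) 0 + d / c) := by
    rw [sub_mul, h0, hNdef]
    field_simp
    linear_combination (-(p : E3) 0 * c - d) * hdet
  have e4 : |(g p : E3) 0 - a / c| ≤ 4 / |c| := by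
    have h5 := congrArg abs e3
    rw [abs_mul, abs_neg, abs_of_pos hN] at h5
    have h6 : |(g p : E3) 0 - a / c| * (1 / 2) ≤ 2 / |c| := by
      calc |(g p : E3) 0 - a / c| * (1 / 2) ≤ |(g p : E3) 0 - a / c| * N := by gcongr
        _ = |(p : E3) 0 + d / c| := h5
        _ ≤ _ := e2
    calc |(g p : E3) 0 - a / c| = |(g p : E3) 0 - a / c| * (1 / 2) * 2 := by ring
      _ ≤ 2 / |c| * 2 := by gcongr
      _ = _ := by ring
  have e5 : (p : E3) 2 ≤ 2 / |c| := by
    rw [le_div_iff₀ hcc]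
    have h7 : ((p : E3) 2 * |c|) ^ 2 ≤ 2 ^ 2 := by
      rw [mul_pow, sq_abs, mul_comm]
      linarith
    exact (pow_le_pow_iff_left₀ (by positivity) (by norm_num) two_ne_zero).1 h7
  have e6 : (g p : E3) 2 ≤ 4 / |c| := by
    have h8 : (g p : E3) 2 * (1 / 2) ≤ (p : E3) 2 := by
      calc (g p : E3) 2 * (1 / 2) ≤ (g p : E3) 2 * N := by gcongr
        _ = _ := h2
    calc (g p : E3) 2 = (g p : E3) 2 * (1 / 2) * 2 := by ring
      _ ≤ (p : E3) 2 * 2 := by gcongr
      _ ≤ 2 / |c| * 2 := by gcongr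
      _ = _ := by ring
  have e7 : |(p : E3) 0 - ((g p : E3) 0 + s)| ≤ 2 / |c| := by
    have h9 := sq_sub_le_coshDist p (TT s (g p))
    rw [TT_0, TT_2] at h9
    have h10 : ((p : E3) 0 - ((g p : E3) 0 + s)) ^ 2 ≤ (2 / |c|) ^ 2 := by
      calc _ ≤ (coshDist p (TT s (g p)) - 1) * (2 * (p : E3) 2 * (g p : E3) 2) := h9
        _ ≤ (1 / 4) * (2 * (2 / |c|) * (4 / |c|)) := by
          have := one_le_coshDist p (TT s (g p))
          have h11 : coshDist p (TT s (g p)) - 1 ≤ 1 / 4 := by linarith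
          gcongr
        _ = _ := by ring
    exact abs_le_of_sq_le_sq h10 (by positivity)
  have e8 : |s| ≤ 8 / |c| + |d / c| + |a / c| := by
    have h12 : s = -((p : E3) 0 - ((g p : E3) 0 + s)) + ((p : E3) 0 + d / c) - d / c -
        ((g p : E3) 0 - a / c) - a / c := by ring
    have h13 : |s| ≤ |(p : E3) 0 - ((g p : E3) 0 + s)| + |(p : E3) 0 + d / c| + |d / c| +
        |(g p : E3) 0 - a / c| + |a / c| := by
      conv_lhs => rw [h12]
      calc _ ≤ |-((p : E3) 0 - ((g p : E3) 0 + s)) + ((p : E3) 0 + d / c) - d / c -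
            ((g p : E3) 0 - a / c)| + |a / c| := abs_sub _ _
        _ ≤ |-((p : E3) 0 - ((g p : E3) 0 + s)) + ((p : E3) 0 + d / c) - d / c| +
            |(g p : E3) 0 - a / c| + |a / c| := by gcongr; exact abs_sub _ _
        _ ≤ |-((p : E3) 0 - ((g p : E3) 0 + s)) + ((p : E3) 0 + d / c)| + |d / c| +
            |(g p : E3) 0 - a / c| + |a / c| := by gcongr; exact abs_sub _ _
        _ ≤ |-((p : E3) 0 - ((g p : E3) 0 + s))| + |(p : E3) 0 + d / c| + |d / c| +
            |(g p : E3) 0 - a / c| + |a / c| := by gcongr; exact abs_add_le _ _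
        _ = _ := by rw [abs_neg]
    calc |s| ≤ 2 / |c| + 2 / |c| + |d / c| + 4 / |c| + |a / c| := by
          refine h13.trans ?_
          gcongr
      _ = _ := by ring
  exact absurd hs (not_lt.2 e8)

lemma displacement_affine {a b d : ℝ} {g : Equiv.Perm H3} (h : IsMob a b 0 d g)
    (ha : a ^ 2 ≠ 1) : ∃ ε > 0, ∀ p, 1 + ε ≤ coshDist p (g p) := by
  have hdet := h.1
  have had : a * d = 1 := by linarith
  have ha0 : a ≠ 0 := left_ne_zero_of_mul_eq_one had
  refine ⟨(a - d) ^ 2 / 2, ?_, fun p => ?_⟩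
  · have : a - d ≠ 0 := by
      intro h0
      apply ha
      have : a = d := by linarith
      rw [sq]; nth_rewrite 2 [this]; exact had
    positivity
  · obtain ⟨-, -, -, h2, -⟩ := h.2 p
    have h3 : (g p : E3) 2 * d ^ 2 = (p : E3) 2 := by
      rw [← h2]; ring
    have h4 : (g p : E3) 2 = a ^ 2 * (p : E3) 2 := by
      rw [← h3]
      linear_combination (-(g p : E3) 2 * (a * d + 1)) * had
    refine le_trans (le_of_eq ?_) (le_coshDist_heights p (g p))
    have hp := p.2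
    rw [h4]
    have hd : d = a⁻¹ := eq_inv_of_mul_eq_one_right had
    rw [hd]
    field_simp
    ring

lemma eq_TT_of_affine {a b d : ℝ} {g : Equiv.Perm H3} (h : IsMob a b 0 d g)
    (ha : a ^ 2 = 1) : ∃ s, g = TT s := by
  have hdet := h.1
  have had : a * d = 1 := by linarith
  have hd2 : d ^ 2 = 1 := by
    have : (a * d) ^ 2 = 1 := by rw [had]; norm_num
    rwa [mul_pow, ha, one_mul] at this
  refine ⟨b * d, ?_⟩
  ext1 p
  obtain ⟨-, h0, h1, h2, -⟩ := h.2 p
  have e : (0:ℝ) ^ 2 * nn p + 2 * 0 * d * (p : E3) 0 + d ^ 2 = 1 := by rw [hd2]; ring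
  rw [e, mul_one] at h0 h1 h2
  apply H3_ext
  · rw [h0, TT_0]
    linear_combination (p : E3) 0 * had
  · rw [h1, TT_1]
  · rw [h2, TT_2]

variable {ι : Type} (n : ι → ℤ)

lemma AA_high_mem (m : ℤ) {x : ℝ} (hx : |x| ≤ 1) : AA m (mk3 x 0 10 (by norm_num)) ∈ EE := by
  intro l
  rcases eq_or_ne l m with rfl | hlm
  · rw [uc, inv_apply_self', mk3_0]
    linarith
  · by_contra h
    have h1 := abs_le_of_uc (not_lt.1 h)
    rw [AA, Equiv.Perm.mul_apply, TT_0, JJ_0, mk3_0] at h1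
    have h2 : nn (mk3 x 0 10 (by norm_num) : H3) = x ^ 2 + 100 := by
      rw [nn, mk3_0, mk3_1, mk3_2]; norm_num
    rw [h2] at h1
    have h3 : |-x / (x ^ 2 + 100)| ≤ 1 / 100 := by
      rw [abs_div, abs_neg, abs_of_pos (a := x ^ 2 + 100) (by positivity),
        div_le_iff₀ (by positivity)]
      nlinarith [sq_nonneg x]
    rw [abs_le] at h1 h3
    rcases lt_or_gt_of_ne hlm with h4 | h4
    · have h5 : (l : ℝ) + 1 ≤ m := by exact_mod_cast h4
      linarith [h1.2, h3.1]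
    · have h5 : (m : ℝ) + 1 ≤ l := by exact_mod_cast h4
      linarith [h1.1, h3.2]

lemma stabilizer_eq (hn : Function.Injective n) (i : ι) {s : ℝ}
    (hs : AA (n i) * TT s * (AA (n i))⁻¹ ∈ GG n) : ∃ k : ℤ, s = -4 * k := by
  have hB : ∀ k : ℤ, AA (n i) * TT (-4 * k) * (AA (n i))⁻¹ ∈ GG n := by
    intro k
    rw [← BB_zpow]
    apply zpow_mem
    exact ⟨FreeGroup.of i, by simp [rep]⟩
  set k := round (s / 4) with hk
  have hround : |s / 4 - k| ≤ 1 / 2 := abs_sub_round (s / 4)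
  set s' := s - 4 * k with hs'
  have hs'2 : |s' / 2| ≤ 1 := by
    have : s' / 2 = (s / 4 - k) * 2 := by rw [hs']; ring
    rw [this, abs_mul, abs_two]
    linarith
  have hmem : AA (n i) * TT s' * (AA (n i))⁻¹ ∈ GG n := by
    have h1 := mul_mem hs (hB k)
    have h2 : AA (n i) * TT s * (AA (n i))⁻¹ * (AA (n i) * TT (-4 * k) * (AA (n i))⁻¹) =
        AA (n i) * TT s' * (AA (n i))⁻¹ := by
      have h3 : TT s' = TT s * TT (-4 * k) := by rw [TT_mul]; congr 1; rw [hs']; ring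
      rw [h3]
      group
    rwa [h2] at h1
  have hp1 : AA (n i) (mk3 (-(s' / 2)) 0 10 (by norm_num)) ∈ EE :=
    AA_high_mem _ (by rw [abs_neg]; exact hs'2)
  have hp2 : (AA (n i) * TT s' * (AA (n i))⁻¹)
      (AA (n i) (mk3 (-(s' / 2)) 0 10 (by norm_num))) ∈ EE := by
    have h1 : (AA (n i) * TT s' * (AA (n i))⁻¹)
        (AA (n i) (mk3 (-(s' / 2)) 0 10 (by norm_num))) = AA (n i) (mk3 (s' / 2) 0 10 (by norm_num))
        := by
      rw [Equiv.Perm.mul_apply, Equiv.Perm.mul_apply, inv_apply_self']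
      congr 1
      apply H3_ext
      · rw [TT_0, mk3_0, mk3_0]; ring
      · rw [TT_1, mk3_1, mk3_1]
      · rw [TT_2, mk3_2, mk3_2]
    rw [h1]
    exact AA_high_mem _ hs'2
  have h1 := GG_wandering n hn hmem hp1 hp2
  have h2 : TT s' = 1 := by
    have h3 : TT s' = (AA (n i))⁻¹ * (AA (n i) * TT s' * (AA (n i))⁻¹) * AA (n i) := by group
    rw [h3, h1]; group
  have h4 : s' = 0 := by
    have h5 := congrArg (fun g : Equiv.Perm H3 => (g oo : E3) 0) h2
    simp only [TT_0, Equiv.Perm.one_apply] at h5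
    linarith
  refine ⟨-k, ?_⟩
  push_cast
  linarith

lemma isParabolic_BB_zpow (m : ℤ) {k : ℤ} (hk : k ≠ 0) : IsParabolic (BB m ^ k) := by
  rw [BB_zpow]
  refine (isParabolic_TT ?_).conj (AA_mem m)
  have : (k : ℝ) ≠ 0 := by exact_mod_cast hk
  positivity

lemma IsParabolic.ne_one {g : Equiv.Perm H3} (hg : IsParabolic g) : g ≠ 1 := fun h =>
  hg.1 oo (by rw [h]; rfl)

lemma GG_cusp (hn : Function.Injective n) (i : ι) : HasRankOneCusp (GG n) := by
  have hBG : BB (n i) ∈ GG n := ⟨FreeGroup.of i, by simp [rep]⟩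
  have hBne : ∀ k : ℤ, BB (n i) ^ k = 1 → k = 0 := by
    intro k hk
    by_contra h
    exact (isParabolic_BB_zpow (n i) h).ne_one hk
  set P : Subgroup (Equiv.Perm H3) := (zpowersHom _ (BB (n i))).range with hP
  have hPmem : ∀ g, g ∈ P ↔ ∃ k : ℤ, BB (n i) ^ k = g := by
    intro g
    constructor
    · rintro ⟨k, rfl⟩; exact ⟨k.toAdd, rfl⟩
    · rintro ⟨k, rfl⟩; exact ⟨Multiplicative.ofAdd k, rfl⟩
  have hPG : P ≤ GG n := by
    intro g hg
    obtain ⟨k, rfl⟩ := (hPmem g).1 hg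
    exact zpow_mem hBG k
  have hinj : Function.Injective (zpowersHom _ (BB (n i))) := by
    rw [injective_iff_map_eq_one]
    intro k hk
    have := hBne k.toAdd hk
    exact Multiplicative.toAdd.injective (by simpa using this)
  refine ⟨P, hPG, ⟨?_, ?_⟩, ?_, ⟨(MonoidHom.ofInjective hinj).symm⟩⟩
  · intro h
    have h1 : BB (n i) ∈ P := (hPmem _).2 ⟨1, zpow_one _⟩
    rw [h, Subgroup.mem_bot] at h1
    have := hBne 1 (by rw [zpow_one]; exact h1)
    exact one_ne_zero this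
  · intro g hg hg1
    obtain ⟨k, rfl⟩ := (hPmem g).1 hg
    apply isParabolic_BB_zpow
    rintro rfl
    exact hg1 (zpow_zero _)
  · intro Q hQG hQ hPQ
    refine le_antisymm ?_ hPQ
    intro g hgQ
    have hJ : JJ ∈ Subgroup.closure (insert JJ (range TT)) :=
      Subgroup.subset_closure (mem_insert _ _)
    have hT : ∀ s, TT s ∈ Subgroup.closure (insert JJ (range TT)) := fun s =>
      Subgroup.subset_closure (mem_insert_of_mem _ ⟨s, rfl⟩)
    have hA : AA (n i) ∈ Subgroup.closure (insert JJ (range TT)) := mul_mem (hT _) hJ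
    obtain ⟨a, b, c, d, hmob⟩ := exists_isMob_of_mem (g := (AA (n i))⁻¹ * g * AA (n i))
      (mul_mem (mul_mem (inv_mem hA) (GG_le_closure n (hQG hgQ))) hA)
    -- an element of `Q` cannot have displacement bounded below
    have hno : ∀ f ∈ Q, ∀ ε : ℝ, 0 < ε →
        ¬ ∀ p, 1 + ε ≤ coshDist p (((AA (n i))⁻¹ * f * AA (n i)) p) := by
      intro f hf ε hε hall
      have hf1 : f ≠ 1 := by
        rintro rfl
        have h1 := hall oo
        have h2 : ((AA (n i))⁻¹ * 1 * AA (n i)) oo = oo := by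
          rw [mul_one, inv_mul_cancel]; rfl
        rw [h2, coshDist_self] at h1
        linarith
      obtain ⟨p, hp⟩ := (hQ.2 f hf hf1).2 ε hε
      have h1 := hall ((AA (n i))⁻¹ p)
      rw [Equiv.Perm.mul_apply, Equiv.Perm.mul_apply, apply_inv_self',
        (inv_mem (AA_mem (n i)) : (AA (n i))⁻¹ ∈ HIsom) p (f p)] at h1
      linarith
    have hc : c = 0 := by
      by_contra hc
      obtain ⟨S, hS⟩ := displacement_large hmob hc
      obtain ⟨k, hk⟩ := exists_nat_gt S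
      have hmem : BB (n i) ^ (-(k : ℤ)) * g ∈ Q :=
        mul_mem (zpow_mem (hPQ ((hPmem _).2 ⟨1, zpow_one _⟩)) _) hgQ
      apply hno _ hmem (1 / 4) (by norm_num)
      intro p
      have h1 : (AA (n i))⁻¹ * (BB (n i) ^ (-(k : ℤ)) * g) * AA (n i) =
          TT (4 * k) * ((AA (n i))⁻¹ * g * AA (n i)) := by
        rw [BB_zpow]
        have : (-4 : ℝ) * ((-(k : ℤ) : ℤ) : ℝ) = 4 * k := by push_cast; ring
        rw [this]
        group
      rw [h1]
      have h2 := hS (4 * k) (by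
        rw [abs_of_nonneg (by positivity)]
        have : (0 : ℝ) ≤ k := Nat.cast_nonneg k
        linarith) p
      linarith
    subst hc
    have ha : a ^ 2 = 1 := by
      by_contra ha
      obtain ⟨ε, hε, hall⟩ := displacement_affine hmob ha
      exact hno g hgQ ε hε hall
    obtain ⟨s, hs⟩ := eq_TT_of_affine hmob ha
    have hg : g = AA (n i) * TT s * (AA (n i))⁻¹ := by rw [← hs]; group
    have hgG : AA (n i) * TT s * (AA (n i))⁻¹ ∈ GG n := hg ▸ hQG hgQ
    obtain ⟨k, hk⟩ := stabilizer_eq n hn i hgG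
    refine (hPmem g).2 ⟨k, ?_⟩
    rw [BB_zpow, hg, hk]

end Pool.Agent.Helper82
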