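import Mathlib
import Pool.Agent.Helper82.Cusp

/-!
# Infinite area of the plane modulo the group
-/

open MeasureTheory MeasureTheory.Measure Module Set Filter Topology
open scoped ENNReal NNReal Gradient RealInnerProductSpace ContDiff

namespace Pool.Agent.Helper82

/-- A strip in the plane. -/
def strip : Set H3 := {q | (q : E3) 1 = 0 ∧ 1 < (q : E3) 0 ∧ (q : E3) 0 < 3}

lemma measurableSet_strip : MeasurableSet strip := by
  have h0 : Measurable (fun q : H3 => (q : E3) 0) :=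
    (by fun_prop : Continuous (fun q : H3 => (q : E3) 0)).measurable
  have h1 : Measurable (fun q : H3 => (q : E3) 1) :=
    (by fun_prop : Continuous (fun q : H3 => (q : E3) 1)).measurable
  exact (h1 (measurableSet_singleton 0)).inter
    ((h0 measurableSet_Ioi).inter (h0 measurableSet_Iio))

lemma volume_rect (δ : ℝ) (hδ : 0 < δ) :
    ENNReal.ofReal (2 * δ) ≤ (volume : Measure E2) {v | v 0 ∈ Ioo (1:ℝ) 3 ∧ v 1 ∈ Ioo 0 δ} := by
  have h1 := (PiLp.volume_preserving_ofLp (Fin 2)).measure_preimage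
    (s := Set.pi univ fun i : Fin 2 => (![Ioo (1:ℝ) 3, Ioo 0 δ] : Fin 2 → Set ℝ) i)
    (MeasurableSet.univ_pi fun i => by fin_cases i <;> exact measurableSet_Ioo).nullMeasurableSet
  have h2 : (volume : Measure (Fin 2 → ℝ)) (Set.pi univ fun i : Fin 2 =>
      (![Ioo (1:ℝ) 3, Ioo 0 δ] : Fin 2 → Set ℝ) i) = ENNReal.ofReal (2 * δ) := by
    rw [volume_pi_pi, Fin.prod_univ_two]
    simp only [Matrix.cons_val_zero, Matrix.cons_val_one]
    rw [Real.volume_Ioo, Real.volume_Ioo, ← ENNReal.ofReal_mul (by norm_num)]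
    congr 1
    ring
  rw [h2] at h1
  rw [← h1]
  apply measure_mono
  intro v hv
  simp only [mem_preimage, mem_univ_pi] at hv
  exact ⟨hv 0, hv 1⟩

lemma harea_strip : harea strip = ⊤ := by
  rw [eq_top_iff]
  have key : ∀ δ : ℝ, 0 < δ → ENNReal.ofReal (2 / δ) ≤ harea strip := by
    intro δ hδ
    set A : Set H3 := strip ∩ {q | (q : E3) 2 < δ} with hA
    have h2 : Measurable (fun q : H3 => (q : E3) 2) :=
      (by fun_prop : Continuous (fun q : H3 => (q : E3) 2)).measurable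
    have hAm : MeasurableSet A := measurableSet_strip.inter (h2 measurableSet_Iio)
    have h3 : ENNReal.ofReal ((δ ^ 2)⁻¹) * (μHE[2] : Measure E3) (Subtype.val '' A) ≤ harea A :=
      le_harea hAm fun q hq => le_of_lt hq.2
    let f : H3 → E2 := fun q => !₂[(q : E3) 0, (q : E3) 2]
    have h4 : {v : E2 | v 0 ∈ Ioo (1:ℝ) 3 ∧ v 1 ∈ Ioo 0 δ} ⊆ f '' A := by
      rintro v ⟨h0, h1⟩
      refine ⟨mk3 (v 0) 0 (v 1) h1.1, ⟨⟨by simp, by simpa using h0.1, by simpa using h0.2⟩, ?_⟩, ?_⟩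
      · change ((mk3 (v 0) 0 (v 1) h1.1 : H3) : E3) 2 < δ
        rw [mk3_2]; exact h1.2
      · simp only [f, mk3_0, mk3_2]
        ext i
        fin_cases i <;> simp
    have h5 : μHE[2] (f '' A) ≤ ((1 : ℝ≥0) : ℝ≥0∞) ^ 2 *
        (μHE[2] : Measure E3) ((fun q : H3 => (q : E3)) '' A) := by
      refine image_le_of_edist_le f (fun q : H3 => (q : E3)) A 1 ?_ 2
      intro p _ q _
      rw [ENNReal.coe_one, one_mul, edist_dist, edist_dist]
      apply ENNReal.ofReal_le_ofReal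
      rw [← pow_le_pow_iff_left₀ dist_nonneg dist_nonneg two_ne_zero, dist_sq_eq,
        EuclideanSpace.dist_eq, Real.sq_sqrt (by positivity), Fin.sum_univ_two, Real.dist_eq,
        Real.dist_eq, sq_abs, sq_abs]
      simp only [f]
      simp
      nlinarith [sq_nonneg ((p : E3) 1 - (q : E3) 1)]
    rw [ENNReal.coe_one, one_pow, one_mul, EuclideanSpace.euclideanHausdorffMeasure_eq_volume]
      at h5
    calc ENNReal.ofReal (2 / δ) = ENNReal.ofReal ((δ ^ 2)⁻¹) * ENNReal.ofReal (2 * δ) := by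
          rw [← ENNReal.ofReal_mul (by positivity)]
          congr 1
          field_simp
      _ ≤ ENNReal.ofReal ((δ ^ 2)⁻¹) * (μHE[2] : Measure E3) (Subtype.val '' A) := by
          gcongr
          exact (volume_rect δ hδ).trans ((measure_mono h4).trans h5)
      _ ≤ harea A := h3
      _ ≤ harea strip := measure_mono inter_subset_left
  have h1 : Tendsto (fun k : ℕ => (2 : ℝ) / (1 / ((k : ℝ) + 1))) atTop atTop := by
    have h2 : (fun k : ℕ => (2 : ℝ) / (1 / ((k : ℝ) + 1))) = fun k : ℕ => 2 * ((k : ℝ) + 1) := by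
      funext k; field_simp
    rw [h2]
    exact (tendsto_atTop_add_const_right _ _ tendsto_natCast_atTop_atTop).const_mul_atTop two_pos
  have h2 : Tendsto (fun k : ℕ => ENNReal.ofReal ((2 : ℝ) / (1 / ((k : ℝ) + 1)))) atTop (𝓝 ⊤) :=
    ENNReal.tendsto_ofReal_atTop.comp h1
  exact le_of_tendsto h2 (Eventually.of_forall fun k : ℕ => key _ (by positivity))

/-- The area of the plane in any covering domain of a group with wandering strip is infinite. -/
lemma coarea_infinite {Γ : Subgroup (Equiv.Perm H3)} (hΓ : Γ ≤ HIsom) (hd : IsDiscrete Γ)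
    (hP : ∀ γ ∈ Γ, ∀ q ∈ plane, γ q ∈ plane)
    (hw : ∀ γ ∈ Γ, ∀ p ∈ strip, γ p ∈ strip → γ = 1) {D : Set H3} (hD : MeasurableSet D)
    (hcov : ∀ q : H3, ∃ γ ∈ Γ, γ q ∈ D) : harea (D ∩ plane) = ⊤ := by
  have hcount := countable_of_discrete hd
  rw [eq_top_iff, ← harea_strip]
  have hcov' : strip ⊆ ⋃ γ : Γ, (strip ∩ (fun q : H3 => (γ • q : H3)) ⁻¹' D) := by
    intro q hq
    obtain ⟨γ, hγ, hγq⟩ := hcov q
    exact mem_iUnion.2 ⟨⟨γ, hγ⟩, hq, hγq⟩
  have hmD : ∀ γ : Γ, MeasurableSet ((fun q : H3 => (γ • q : H3)) ⁻¹' D) := fun γ =>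
    (continuous_of_mem_HIsom (hΓ γ.2)).measurable hD
  have hm : ∀ γ : Γ, MeasurableSet ((fun q : H3 => (γ • q : H3)) ''
      (strip ∩ (fun q : H3 => (γ • q : H3)) ⁻¹' D)) := fun γ =>
    measurableSet_image (hΓ γ.2) (measurableSet_strip.inter (hmD γ))
  have hdisj : Pairwise (Function.onFun Disjoint fun γ : Γ => (fun q : H3 => (γ • q : H3)) ''
      (strip ∩ (fun q : H3 => (γ • q : H3)) ⁻¹' D)) := by
    intro γ γ' hne
    rw [Function.onFun, Set.disjoint_left]
    rintro _ ⟨p, ⟨hp, -⟩, rfl⟩ ⟨p', ⟨hp', -⟩, h⟩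
    apply hne
    have h1 : ((γ'⁻¹ * γ : Γ) • p : H3) = p' := by
      rw [mul_smul]
      change γ'⁻¹ • ((fun q : H3 => (γ • q : H3)) p) = p'
      rw [← h]
      exact inv_smul_smul γ' p'
    have h2 := hw (γ'⁻¹ * γ : Γ) (γ'⁻¹ * γ : Γ).2 p hp (by
      change ((γ'⁻¹ * γ : Γ) • p : H3) ∈ strip
      rw [h1]; exact hp')
    have h3 : γ'⁻¹ * γ = 1 := Subtype.ext h2
    exact (inv_mul_eq_one.1 h3).symm
  calc harea strip ≤ harea (⋃ γ : Γ, (strip ∩ (fun q : H3 => (γ • q : H3)) ⁻¹' D)) :=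
        measure_mono hcov'
    _ ≤ ∑' γ : Γ, harea (strip ∩ (fun q : H3 => (γ • q : H3)) ⁻¹' D) := measure_iUnion_le _
    _ = ∑' γ : Γ, harea ((fun q : H3 => (γ • q : H3)) ''
          (strip ∩ (fun q : H3 => (γ • q : H3)) ⁻¹' D)) := by
        congr 1
        funext γ
        exact (harea_image (hΓ γ.2) (measurableSet_strip.inter (hmD γ))).symm
    _ = harea (⋃ γ : Γ, (fun q : H3 => (γ • q : H3)) ''
          (strip ∩ (fun q : H3 => (γ • q : H3)) ⁻¹' D)) := (measure_iUnion hdisj hm).symm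
    _ ≤ harea (D ∩ plane) := by
        apply measure_mono
        intro q hq
        simp only [mem_iUnion] at hq
        obtain ⟨γ, p, ⟨hp, hpD⟩, rfl⟩ := hq
        exact ⟨hpD, hP γ γ.2 p hp.1⟩

end Pool.Agent.Helper82
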