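import Mathlib
import Pool.Agent.Helper82.Coarea

/-!
# Minimal surfaces of finite area in Fuchsian manifolds
-/

open MeasureTheory MeasureTheory.Measure Module Set Filter Topology
open scoped ENNReal NNReal Gradient RealInnerProductSpace ContDiff

namespace Pool.Agent.Helper82

variable {Γ : Subgroup (Equiv.Perm H3)} {S : Set (Mfd Γ)}

lemma mem_lift_smul {γ : Equiv.Perm H3} (hγ : γ ∈ Γ) (q : H3) :
    γ q ∈ lift Γ S ↔ q ∈ lift Γ S := by
  have h : (Quotient.mk (MulAction.orbitRel Γ H3) (γ q)) =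
      Quotient.mk (MulAction.orbitRel Γ H3) q := by
    apply Quotient.sound
    exact ⟨⟨γ, hγ⟩, rfl⟩
  unfold lift
  simp only [Set.mem_ofPred_eq]
  rw [h]

lemma dv_of_meanCurvature {F : E3 → ℝ} {q : E3} (hq : 0 < q 2) (h : meanCurvature F q = 0) :
    dv (fun y => (wt y * ‖∇ F y‖⁻¹) • ∇ F y) q = 0 := by
  unfold meanCurvature hdiv at h
  have h3 : q 2 ^ 3 ≠ 0 := by positivity
  have h4 := (mul_eq_zero.1 h).resolve_left h3
  rw [← h4]
  apply dv_congr
  filter_upwards [isOpen_UH.mem_nhds hq] with y hy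
  have hy' : 0 < y 2 := hy
  unfold hnorm hgrad wt
  rw [norm_smul, Real.norm_of_nonneg (by positivity), smul_smul, smul_smul]
  congr 1
  rcases eq_or_ne ‖∇ F y‖ 0 with h0 | h0
  · rw [h0]; simp
  · field_simp

lemma IsMinimalSurface.isMinimalIn (hS : IsMinimalSurface Γ S) :
    IsMinimalIn wt UH (Subtype.val '' (lift Γ S)) where
  isOpen := isOpen_UH
  contw := contDiffOn_wt
  subset := by rintro _ ⟨q, -, rfl⟩; exact q.2
  closed := by
    intro p hpU hp
    have h1 : IsClosed (lift Γ S) := hS.isClosed.preimage continuous_quotient_mk'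
    have hpU' : 0 < p 2 := hpU
    have h2 : (⟨p, hpU'⟩ : H3) ∈ (lift Γ S)ᶜ := fun h => hp ⟨⟨p, hpU'⟩, h, rfl⟩
    have h3 : (lift Γ S)ᶜ ∈ 𝓝 (⟨p, hpU'⟩ : H3) := h1.isOpen_compl.mem_nhds h2
    rw [nhds_subtype_eq_comap, mem_comap] at h3
    obtain ⟨O, hO, hOS⟩ := h3
    filter_upwards [hO] with q hq
    rintro ⟨z, hz, rfl⟩
    exact hOS hq hz
  level := by
    rintro _ ⟨p, hp, rfl⟩
    obtain ⟨W, F, hWo, hpW, hF, hG, hmem, hH⟩ := hS.level p hp
    refine ⟨W ∩ UH, F, hWo.inter isOpen_UH, ⟨hpW, p.2⟩, inter_subset_right,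
      hF.mono inter_subset_left, fun q hq => hG q hq.1, ?_, ?_⟩
    · rintro q ⟨hqW, hqU⟩
      rw [← hmem ⟨q, hqU⟩ hqW, ← mem_val_image]
    · rintro q ⟨hqW, hqU⟩ hq0
      exact dv_of_meanCurvature hqU (hH ⟨q, hqU⟩ hqW hq0)

/-- In a Fuchsian manifold, a properly embedded minimal surface of finite area is the quotient of
the totally geodesic plane. -/
theorem lift_eq_plane (hΓ : Γ ≤ HIsom) (hd : IsDiscrete Γ) (ht : IsTorsionFree Γ)
    (hP : ∀ γ ∈ Γ, ∀ q ∈ plane, γ q ∈ plane) (hS : IsMinimalSurface Γ S) (ha : area Γ S < ⊤) :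
    lift Γ S = plane := by
  unfold area at ha
  simp only [iInf_lt_iff] at ha
  obtain ⟨D, hD, hcov, hfin⟩ := ha
  have hmin := hS.isMinimalIn
  have hsub := subset_plane hΓ hd ht hmin hP (fun γ hγ q => mem_lift_smul hγ q) hD hcov hfin
  refine eq_plane hmin ?_ hsub
  obtain ⟨x, hx⟩ := hS.nonempty
  obtain ⟨q, rfl⟩ := Quotient.exists_rep x
  exact ⟨q, hx⟩

/-- The explicit groups have no minimal surface of finite area. -/
theorem GG_area {ι : Type} (n : ι → ℤ) (hn : Function.Injective n) (S : Set (Mfd (GG n)))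
    (hS : IsMinimalSurface (GG n) S) : area (GG n) S = ⊤ := by
  by_contra h
  have hP : ∀ γ ∈ GG n, ∀ q ∈ plane, γ q ∈ plane := fun γ hγ q hq => GG_plane n hγ hq
  have h1 := lift_eq_plane (GG_le_HIsom n) (GG_discrete n hn) (GG_torsionFree n hn) hP hS
    (lt_top_iff_ne_top.2 h)
  apply h
  rw [eq_top_iff]
  unfold area
  refine le_iInf fun D => le_iInf fun hD => le_iInf fun hcov => ?_
  rw [h1, coarea_infinite (GG_le_HIsom n) (GG_discrete n hn) hP ?_ hD hcov]
  rintro γ hγ p ⟨-, h1, h2⟩ ⟨-, h3, h4⟩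
  exact GG_wandering n hn hγ (strip_subset h1 h2) (strip_subset h3 h4)

end Pool.Agent.Helper82
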