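import Mathlib
import Pool.Agent.Helper82.Final

/-!
# The quotient of the totally geodesic plane is a minimal surface
-/

open MeasureTheory MeasureTheory.Measure Module Set Filter Topology
open scoped ENNReal NNReal Gradient RealInnerProductSpace ContDiff

namespace Pool.Agent.Helper82

lemma gradient_coord (p : E3) : ∇ (fun q : E3 => q 1) p = ev 1 := by
  apply ext_inner_right ℝ
  intro v
  rw [inner_gradient_left, (hasFDerivAt_coord 1 p).fderiv, pr_apply, ev,
    EuclideanSpace.inner_single_left]
  simp

lemma meanCurvature_coord {q : E3} (hq : 0 < q 2) : meanCurvature (fun q : E3 => q 1) q = 0 := by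
  unfold meanCurvature hdiv
  have hev : ‖ev 1‖ = 1 := by simp [ev]
  have h1 : dv (fun y => (y 2 ^ 3)⁻¹ • ((hnorm y (hgrad (fun q : E3 => q 1) y))⁻¹ •
      hgrad (fun q : E3 => q 1) y)) q = dv (fun y => wt y • ev 1) q := by
    apply dv_congr
    filter_upwards [isOpen_UH.mem_nhds hq] with y hy
    have hy' : 0 < y 2 := hy
    unfold hnorm hgrad wt
    rw [gradient_coord, norm_smul, Real.norm_of_nonneg (by positivity), hev, smul_smul, smul_smul]
    congr 1
    field_simp
  have h2 : dv (fun y => wt y • ev 1) q = wt q * dv (fun _ => ev 1) q + fderiv ℝ wt q (ev 1) :=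
    dv_smul (hasFDerivAt_wt hq).differentiableAt (differentiableAt_const _)
  have h3 : dv (fun _ : E3 => ev 1) q = 0 := by simp [dv]
  rw [h1, h2, h3, (hasFDerivAt_wt hq).fderiv]
  simp [pr_apply, ev]

lemma isMinimalSurface_of_lift_eq {Γ : Subgroup (Equiv.Perm H3)} {S : Set (Mfd Γ)}
    (h : lift Γ S = plane) : IsMinimalSurface Γ S where
  nonempty := by
    have h1 : mk3 0 0 1 one_pos ∈ lift Γ S := by rw [h]; simp [plane]
    exact ⟨_, h1⟩
  isClosed := by
    have h1 : IsClosed plane := isClosed_eq (by fun_prop) continuous_const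
    rw [← h] at h1
    exact (isQuotientMap_quotient_mk'.isClosed_preimage (s := S)).1 h1
  level := by
    intro p _
    refine ⟨univ, fun q => q 1, isOpen_univ, mem_univ _, by fun_prop, ?_, ?_, ?_⟩
    · intro q _ h0
      rw [gradient_coord] at h0
      have : ‖ev 1‖ = 1 := by simp [ev]
      rw [h0, norm_zero] at this
      exact zero_ne_one this
    · intro q _
      rw [h]
      rfl
    · intro q _ _
      exact meanCurvature_coord q.2

end Pool.Agent.Helper82
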