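import Pool.Agent.Helper28.JM.Defs

/-!
# Coordinates of a finite simple planar distributive lattice
-/

set_option autoImplicit false

open Finset Pool.Agent.Helper28.JM

namespace Pool.Agent.Helper82.JM

/-- Dilworth's theorem for width two -/
lemma dilworth2 {α : Type*} [PartialOrder α] (n : ℕ) : ∀ P : Finset α, P.card = n →
    (∀ a ∈ P, ∀ b ∈ P, ∀ c ∈ P, a ≠ b → a ≠ c → b ≠ c →
      (a ≤ b ∨ b ≤ a) ∨ (a ≤ c ∨ c ≤ a) ∨ (b ≤ c ∨ c ≤ b)) →
    ∃ col : α → Bool, ∀ a ∈ P, ∀ b ∈ P, col a = col b → a ≤ b ∨ b ≤ a := by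
  classical
  induction n with
  | zero =>
    intro P hP _
    rw [card_eq_zero] at hP
    subst hP
    exact ⟨fun _ => true, by simp⟩
  | succ n ih =>
    intro P hP h
    have hne : P.Nonempty := by rw [← card_pos]; omega
    obtain ⟨x, hx⟩ := P.exists_maximal hne
    have hxP : x ∈ P := hx.prop
    have hmax : ∀ y ∈ P, x ≤ y → y = x := fun y hy hxy => le_antisymm (hx.le_of_ge hy hxy) hxy
    obtain ⟨col, hcol⟩ := ih (P.erase x) (by rw [card_erase_of_mem hxP]; omega)
      fun a ha b hb c hc => h a (mem_of_mem_erase ha) b (mem_of_mem_erase hb) c (mem_of_mem_erase hc)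
    set N := (P.erase x).filter fun y => ¬ y ≤ x with hN
    have hNmem : ∀ y, y ∈ N ↔ y ∈ P.erase x ∧ ¬ y ≤ x := fun y => by rw [hN, mem_filter]
    have hchain : ∀ y ∈ N, ∀ z ∈ N, y ≤ z ∨ z ≤ y := by
      intro y hy z hz
      obtain ⟨hy1, hy2⟩ := (hNmem y).1 hy
      obtain ⟨hz1, hz2⟩ := (hNmem z).1 hz
      by_cases hyz : y = z
      · exact Or.inl hyz.le
      have hyP := mem_of_mem_erase hy1
      have hzP := mem_of_mem_erase hz1
      have hyx := ne_of_mem_erase hy1
      have hzx := ne_of_mem_erase hz1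
      rcases h x hxP y hyP z hzP hyx.symm hzx.symm hyz with (h1 | h1) | (h1 | h1) | h1
      · exact absurd (hmax y hyP h1) hyx
      · exact absurd h1 hy2
      · exact absurd (hmax z hzP h1) hzx
      · exact absurd h1 hz2
      · exact h1
    rcases N.eq_empty_or_nonempty with hN0 | hNne
    · have hall : ∀ y ∈ P, y ≤ x := by
        intro y hy
        by_cases hyx : y = x
        · exact hyx.le
        by_contra hcon
        have : y ∈ N := (hNmem y).2 ⟨mem_erase.2 ⟨hyx, hy⟩, hcon⟩
        rw [hN0] at this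
        exact absurd this (notMem_empty y)
      refine ⟨col, fun a ha b hb hab => ?_⟩
      by_cases hax : a = x
      · subst hax; exact Or.inr (hall b hb)
      by_cases hbx : b = x
      · subst hbx; exact Or.inl (hall a ha)
      exact hcol a (mem_erase.2 ⟨hax, ha⟩) b (mem_erase.2 ⟨hbx, hb⟩) hab
    · obtain ⟨m, hm⟩ := N.exists_minimal hNne
      have hmN : m ∈ N := hm.prop
      have hmle : ∀ y ∈ N, m ≤ y := by
        intro y hy
        rcases hchain m hmN y hy with h1 | h1
        · exact h1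
        · exact hm.le_of_le hy h1
      obtain ⟨hm1, hm2⟩ := (hNmem m).1 hmN
      refine ⟨fun y => if y = x then !(col m) else if y ≤ x then col y else col m, ?_⟩
      have key : ∀ a ∈ P, ∀ b ∈ P, a ≠ x → b ≠ x → a ≤ x → ¬ b ≤ x → col a = col m → a ≤ b := by
        intro a ha b hb hax hbx hle hnle hca
        have hbN : b ∈ N := (hNmem b).2 ⟨mem_erase.2 ⟨hbx, hb⟩, hnle⟩
        rcases hcol a (mem_erase.2 ⟨hax, ha⟩) m hm1 hca with h1 | h1
        · exact h1.trans (hmle b hbN)
        · exact absurd (h1.trans hle) hm2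
      intro a ha b hb hab
      by_cases hax : a = x
      · by_cases hbx : b = x
        · rw [hax, hbx]; exact Or.inl le_rfl
        · by_cases hle : b ≤ x
          · rw [hax]; exact Or.inr hle
          · simp [hax, hbx, hle] at hab
      · by_cases hbx : b = x
        · by_cases hle : a ≤ x
          · rw [hbx]; exact Or.inl hle
          · simp [hax, hbx, hle] at hab
        · simp only [hax, hbx, if_false] at hab
          by_cases ha1 : a ≤ x
          · by_cases hb1 : b ≤ x
            · simp only [ha1, hb1, if_true] at hab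
              exact hcol a (mem_erase.2 ⟨hax, ha⟩) b (mem_erase.2 ⟨hbx, hb⟩) hab
            · simp only [ha1, hb1, if_true, if_false] at hab
              exact Or.inl (key a ha b hb hax hbx ha1 hb1 hab)
          · by_cases hb1 : b ≤ x
            · simp only [ha1, hb1, if_true, if_false] at hab
              exact Or.inr (key b hb a ha hbx hax hb1 ha1 hab.symm)
            · exact hchain a ((hNmem a).2 ⟨mem_erase.2 ⟨hax, ha⟩, ha1⟩) b
                ((hNmem b).2 ⟨mem_erase.2 ⟨hbx, hb⟩, hb1⟩)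

section

variable {L : Type*} [DistribLattice L] [BoundedOrder L] [Fintype L]

open Classical in
/-- the irreducibles of colour `κ` below `a` -/
noncomputable def SS (col : L → Bool) (κ : Bool) (a : L) : Finset L :=
  univ.filter fun p => SupIrred p ∧ col p = κ ∧ p ≤ a

variable {col : L → Bool}

lemma mem_SS {κ : Bool} {a p : L} : p ∈ SS col κ a ↔ SupIrred p ∧ col p = κ ∧ p ≤ a := by
  simp [SS]

lemma le_of_irred {a b : L} (h : ∀ p, SupIrred p → p ≤ a → p ≤ b) : a ≤ b := by
  obtain ⟨s, hs, hs'⟩ := exists_supIrred_decomposition a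
  rw [← hs, Finset.sup_le_iff]
  intro p hp
  exact h p (hs' hp) (by rw [← hs]; exact Finset.le_sup (f := id) hp)

lemma nested (hcol : ∀ a, SupIrred a → ∀ b, SupIrred b → col a = col b → a ≤ b ∨ b ≤ a)
    (κ : Bool) (a b : L) : SS col κ a ⊆ SS col κ b ∨ SS col κ b ⊆ SS col κ a := by
  by_contra hcon
  rw [not_or, not_subset, not_subset] at hcon
  obtain ⟨⟨p, hp, hp'⟩, q, hq, hq'⟩ := hcon
  rw [mem_SS] at hp hq hp' hq'
  rcases hcol p hp.1 q hq.1 (hp.2.1.trans hq.2.1.symm) with h | h
  · exact hp' ⟨hp.1, hp.2.1, h.trans hq.2.2⟩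
  · exact hq' ⟨hq.1, hq.2.1, h.trans hp.2.2⟩

open Classical in
lemma SS_sup (κ : Bool) (a b : L) : SS col κ (a ⊔ b) = SS col κ a ∪ SS col κ b := by
  ext p
  rw [mem_union, mem_SS, mem_SS, mem_SS]
  constructor
  · rintro ⟨h1, h2, h3⟩
    rcases (supPrime_iff_supIrred.2 h1).le_sup.1 h3 with h | h
    · exact Or.inl ⟨h1, h2, h⟩
    · exact Or.inr ⟨h1, h2, h⟩
  · rintro (⟨h1, h2, h3⟩ | ⟨h1, h2, h3⟩)
    · exact ⟨h1, h2, h3.trans le_sup_left⟩
    · exact ⟨h1, h2, h3.trans le_sup_right⟩

open Classical in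
lemma SS_inf (κ : Bool) (a b : L) : SS col κ (a ⊓ b) = SS col κ a ∩ SS col κ b := by
  ext p
  rw [mem_inter, mem_SS, mem_SS, mem_SS]
  constructor
  · rintro ⟨h1, h2, h3⟩
    exact ⟨⟨h1, h2, h3.trans inf_le_left⟩, ⟨h1, h2, h3.trans inf_le_right⟩⟩
  · rintro ⟨⟨h1, h2, h3⟩, ⟨_, _, h4⟩⟩
    exact ⟨h1, h2, le_inf h3 h4⟩

/-- the number of irreducibles of colour `κ` below `a` -/
noncomputable def NN (col : L → Bool) (κ : Bool) (a : L) : ℤ := (SS col κ a).card

lemma NN_sup (hcol : ∀ a, SupIrred a → ∀ b, SupIrred b → col a = col b → a ≤ b ∨ b ≤ a)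
    (κ : Bool) (a b : L) : NN col κ (a ⊔ b) = max (NN col κ a) (NN col κ b) := by
  classical
  unfold NN
  rw [SS_sup]
  rcases nested hcol κ a b with h | h
  · rw [union_eq_right.2 h, max_eq_right]
    exact_mod_cast card_le_card h
  · rw [union_eq_left.2 h, max_eq_left]
    exact_mod_cast card_le_card h

lemma NN_inf (hcol : ∀ a, SupIrred a → ∀ b, SupIrred b → col a = col b → a ≤ b ∨ b ≤ a)
    (κ : Bool) (a b : L) : NN col κ (a ⊓ b) = min (NN col κ a) (NN col κ b) := by
  classical
  unfold NN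
  rw [SS_inf]
  rcases nested hcol κ a b with h | h
  · rw [inter_eq_left.2 h, min_eq_left]
    exact_mod_cast card_le_card h
  · rw [inter_eq_right.2 h, min_eq_right]
    exact_mod_cast card_le_card h

/-- the coordinates -/
noncomputable def cc (col : L → Bool) (a : L) : Pt := (NN col true a, NN col false a)

lemma cc_sup (hcol : ∀ a, SupIrred a → ∀ b, SupIrred b → col a = col b → a ≤ b ∨ b ≤ a)
    (a b : L) : cc col (a ⊔ b) = cc col a ⊔ cc col b := by
  unfold cc
  rw [NN_sup hcol, NN_sup hcol]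
  rfl

lemma cc_inf (hcol : ∀ a, SupIrred a → ∀ b, SupIrred b → col a = col b → a ≤ b ∨ b ≤ a)
    (a b : L) : cc col (a ⊓ b) = cc col a ⊓ cc col b := by
  unfold cc
  rw [NN_inf hcol, NN_inf hcol]
  rfl

lemma cc_inj (hcol : ∀ a, SupIrred a → ∀ b, SupIrred b → col a = col b → a ≤ b ∨ b ≤ a) :
    Function.Injective (cc col) := by
  intro a b hab
  have h1 : ∀ κ, NN col κ a = NN col κ b := by
    intro κ
    have h2 := congrArg Prod.fst hab
    have h3 := congrArg Prod.snd hab
    cases κ
    · exact h3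
    · exact h2
  have h2 : ∀ κ, SS col κ a = SS col κ b := by
    intro κ
    have h3 := h1 κ
    unfold NN at h3
    have h4 : (SS col κ a).card = (SS col κ b).card := by exact_mod_cast h3
    rcases nested hcol κ a b with h | h
    · exact eq_of_subset_of_card_le h h4.ge
    · exact (eq_of_subset_of_card_le h h4.le).symm
  apply le_antisymm
  · apply le_of_irred
    intro p hp hpa
    have : p ∈ SS col (col p) a := mem_SS.2 ⟨hp, rfl, hpa⟩
    rw [h2] at this
    exact (mem_SS.1 this).2.2
  · apply le_of_irred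
    intro p hp hpa
    have : p ∈ SS col (col p) b := mem_SS.2 ⟨hp, rfl, hpa⟩
    rw [← h2] at this
    exact (mem_SS.1 this).2.2

lemma NN_mono (κ : Bool) {a b : L} (h : a ≤ b) : NN col κ a ≤ NN col κ b := by
  unfold NN
  have : SS col κ a ⊆ SS col κ b := by
    intro p hp
    rw [mem_SS] at hp ⊢
    exact ⟨hp.1, hp.2.1, hp.2.2.trans h⟩
  exact_mod_cast card_le_card this

lemma NN_bot (κ : Bool) : NN col κ (⊥ : L) = 0 := by
  unfold NN
  have : SS col κ (⊥ : L) = ∅ := by
    rw [eq_empty_iff_forall_notMem]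
    intro p hp
    rw [mem_SS] at hp
    apply hp.1.1
    rw [le_bot_iff.1 hp.2.2]
    exact isMin_bot
  rw [this]; simp

/-- one step down -/
lemma exists_down (a : L) (ha : a ≠ ⊥) : ∃ (a' : L) (κ : Bool), a' < a ∧
    NN col κ a' = NN col κ a - 1 ∧ NN col (!κ) a' = NN col (!κ) a := by
  classical
  set Q : Finset L := univ.filter fun p => SupIrred p ∧ p ≤ a with hQ
  have hmem : ∀ p, p ∈ Q ↔ SupIrred p ∧ p ≤ a := fun p => by simp [hQ]
  have hne : Q.Nonempty := by
    rw [nonempty_iff_ne_empty]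
    intro h0
    apply ha
    rw [← le_bot_iff]
    apply le_of_irred
    intro p hp hpa
    have : p ∈ Q := (hmem p).2 ⟨hp, hpa⟩
    rw [h0] at this
    exact absurd this (notMem_empty p)
  obtain ⟨p, hp⟩ := Q.exists_maximal hne
  obtain ⟨hp1, hp2⟩ := (hmem p).1 hp.prop
  have hmax : ∀ y ∈ Q, p ≤ y → y = p := fun y hy hxy => le_antisymm (hp.le_of_ge hy hxy) hxy
  set a' := (Q.erase p).sup id with ha'
  have hiff : ∀ q, SupIrred q → (q ≤ a' ↔ q ≤ a ∧ q ≠ p) := by
    intro q hq
    constructor
    · intro h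
      obtain ⟨r, hr, hqr⟩ := (supPrime_iff_supIrred.2 hq).le_finset_sup.1 h
      have hr1 := (hmem r).1 (mem_of_mem_erase hr)
      refine ⟨(show q ≤ r from hqr).trans hr1.2, ?_⟩
      rintro rfl
      exact ne_of_mem_erase hr (hmax r (mem_of_mem_erase hr) hqr)
    · rintro ⟨h1, h2⟩
      exact Finset.le_sup (f := id) (mem_erase.2 ⟨h2, (hmem q).2 ⟨hq, h1⟩⟩)
  have hle : a' ≤ a := le_of_irred fun q hq h => ((hiff q hq).1 h).1
  have hlt : a' < a := by
    refine lt_of_le_of_ne hle fun h => ?_
    have := (hiff p hp1).1 (h ▸ hp2)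
    exact this.2 rfl
  refine ⟨a', col p, hlt, ?_, ?_⟩
  · have : SS col (col p) a' = (SS col (col p) a).erase p := by
      ext q
      rw [mem_erase, mem_SS, mem_SS]
      constructor
      · rintro ⟨h1, h2, h3⟩
        have := (hiff q h1).1 h3
        exact ⟨this.2, h1, h2, this.1⟩
      · rintro ⟨h0, h1, h2, h3⟩
        exact ⟨h1, h2, (hiff q h1).2 ⟨h3, h0⟩⟩
    have hpS : p ∈ SS col (col p) a := mem_SS.2 ⟨hp1, rfl, hp2⟩
    unfold NN
    rw [this, card_erase_of_mem hpS]
    have := card_pos.2 ⟨p, hpS⟩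
    omega
  · have : SS col (!(col p)) a' = SS col (!(col p)) a := by
      ext q
      rw [mem_SS, mem_SS]
      constructor
      · rintro ⟨h1, h2, h3⟩
        exact ⟨h1, h2, ((hiff q h1).1 h3).1⟩
      · rintro ⟨h1, h2, h3⟩
        refine ⟨h1, h2, (hiff q h1).2 ⟨h3, ?_⟩⟩
        rintro rfl
        simp at h2
    unfold NN
    rw [this]

/-- one step up -/
lemma exists_up (a : L) (ha : a ≠ ⊤) : ∃ (a' : L) (κ : Bool), a < a' ∧
    NN col κ a' = NN col κ a + 1 ∧ NN col (!κ) a' = NN col (!κ) a := by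
  classical
  set Q : Finset L := univ.filter fun p => SupIrred p ∧ ¬ p ≤ a with hQ
  have hmem : ∀ p, p ∈ Q ↔ SupIrred p ∧ ¬ p ≤ a := fun p => by simp [hQ]
  have hne : Q.Nonempty := by
    rw [nonempty_iff_ne_empty]
    intro h0
    apply ha
    rw [← top_le_iff]
    apply le_of_irred
    intro p hp _
    by_contra hcon
    have : p ∈ Q := (hmem p).2 ⟨hp, hcon⟩
    rw [h0] at this
    exact absurd this (notMem_empty p)
  obtain ⟨p, hp⟩ := Q.exists_minimal hne
  obtain ⟨hp1, hp2⟩ := (hmem p).1 hp.prop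
  have hmin : ∀ y ∈ Q, y ≤ p → y = p := fun y hy hxy => le_antisymm hxy (hp.le_of_le hy hxy)
  have hiff : ∀ q, SupIrred q → (q ≤ a ⊔ p ↔ q ≤ a ∨ q = p) := by
    intro q hq
    rw [(supPrime_iff_supIrred.2 hq).le_sup]
    constructor
    · rintro (h | h)
      · exact Or.inl h
      · by_cases hqa : q ≤ a
        · exact Or.inl hqa
        · exact Or.inr (hmin q ((hmem q).2 ⟨hq, hqa⟩) h)
    · rintro (h | h)
      · exact Or.inl h
      · exact Or.inr h.le
  have hlt : a < a ⊔ p := by
    refine lt_of_le_of_ne le_sup_left fun h => hp2 ?_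
    rw [h]; exact le_sup_right
  refine ⟨a ⊔ p, col p, hlt, ?_, ?_⟩
  · have : SS col (col p) (a ⊔ p) = insert p (SS col (col p) a) := by
      ext q
      rw [mem_insert, mem_SS, mem_SS]
      constructor
      · rintro ⟨h1, h2, h3⟩
        rcases (hiff q h1).1 h3 with h | h
        · exact Or.inr ⟨h1, h2, h⟩
        · exact Or.inl h
      · rintro (rfl | ⟨h1, h2, h3⟩)
        · exact ⟨hp1, rfl, le_sup_right⟩
        · exact ⟨h1, h2, h3.trans le_sup_left⟩
    unfold NN
    rw [this, card_insert_of_notMem (fun h => hp2 (mem_SS.1 h).2.2)]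
    push_cast; ring
  · have : SS col (!(col p)) (a ⊔ p) = SS col (!(col p)) a := by
      ext q
      rw [mem_SS, mem_SS]
      constructor
      · rintro ⟨h1, h2, h3⟩
        refine ⟨h1, h2, ?_⟩
        rcases (hiff q h1).1 h3 with h | h
        · exact h
        · subst h; simp at h2
      · rintro ⟨h1, h2, h3⟩
        exact ⟨h1, h2, h3.trans le_sup_left⟩
    unfold NN
    rw [this]

/-- all values between `0` and the value of `y` are taken below `y` -/
lemma exists_level (κ : Bool) (y : L) : ∀ s : ℤ, 0 ≤ s → s ≤ NN col κ y →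
    ∃ z ≤ y, NN col κ z = s := by
  induction y using WellFoundedLT.induction with
  | _ y ih =>
    intro s hs0 hs
    rcases eq_or_lt_of_le hs with h | h
    · exact ⟨y, le_rfl, h.symm⟩
    · have hy : y ≠ ⊥ := by
        rintro rfl
        rw [NN_bot] at h
        omega
      obtain ⟨y', κ', hlt, h1, h2⟩ := exists_down (col := col) y hy
      have h3 : NN col κ y - 1 ≤ NN col κ y' := by
        by_cases hκ : κ = κ'
        · subst hκ; omega
        · have : κ = !κ' := by
            cases κ <;> cases κ' <;> simp_all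
          subst this; omega
      obtain ⟨z, hz, hz'⟩ := ih y' hlt s hs0 (by omega)
      exact ⟨z, hz.trans hlt.le, hz'⟩

end

theorem exists_coords (L : Type*) [DistribLattice L] [BoundedOrder L] [Finite L]
    (hs : IsSimpleLat L) (hp : IsPlanarLat L) :
    ∃ c : L → Pt, Function.Injective c ∧ (∀ a b, c (a ⊔ b) = c a ⊔ c b) ∧
      (∀ a b, c (a ⊓ b) = c a ⊓ c b) ∧ Reg (Set.range c) (c ⊥) (c ⊤) := by
  classical
  have : Fintype L := Fintype.ofFinite L
  obtain ⟨col, hcol'⟩ := dilworth2 _ (univ.filter fun p : L => SupIrred p) rfl (by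
    intro a ha b hb c hc
    simp only [mem_filter, mem_univ, true_and] at ha hb hc
    exact hp a b c ha hb hc)
  have hcol : ∀ a, SupIrred a → ∀ b, SupIrred b → col a = col b → a ≤ b ∨ b ≤ a := by
    intro a ha b hb
    exact hcol' a (by simp [ha]) b (by simp [hb])
  have hinj := cc_inj hcol
  have hsup := cc_sup hcol
  have hinf := cc_inf hcol
  have hmono : ∀ a b : L, a ≤ b → cc col a ≤ cc col b := fun a b h => ⟨NN_mono true h, NN_mono false h⟩
  have hle : ∀ a b : L, cc col a ≤ cc col b → a ≤ b := by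
    intro a b h
    have h1 := hsup a b
    rw [sup_eq_right.2 h] at h1
    exact sup_eq_right.1 (hinj h1)
  have hor : ∀ (i i' j s : ℤ), (i, j) ∈ Set.range (cc col) → (i', j) ∈ Set.range (cc col) →
      i ≤ s → s ≤ i' → (s, j) ∈ Set.range (cc col) := by
    rintro i i' j s ⟨a, ha⟩ ⟨b, hb⟩ h1 h2
    have ha1 : NN col true a = i := congrArg Prod.fst ha
    have ha2 : NN col false a = j := congrArg Prod.snd ha
    have hb1 : NN col true b = i' := congrArg Prod.fst hb
    have hb2 : NN col false b = j := congrArg Prod.snd hb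
    have h0 : 0 ≤ NN col true a := by unfold NN; positivity
    obtain ⟨z, hz, hz'⟩ := exists_level (col := col) true b s (by omega) (by omega)
    refine ⟨a ⊔ z, ?_⟩
    have h3 : NN col false z ≤ NN col false b := NN_mono false hz
    unfold cc
    rw [NN_sup hcol, NN_sup hcol, hz', ha1, ha2, max_eq_right h1, max_eq_left (by omega)]
  have ver : ∀ (i j j' t : ℤ), (i, j) ∈ Set.range (cc col) → (i, j') ∈ Set.range (cc col) →
      j ≤ t → t ≤ j' → (i, t) ∈ Set.range (cc col) := by
    rintro i j j' t ⟨a, ha⟩ ⟨b, hb⟩ h1 h2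
    have ha1 : NN col true a = i := congrArg Prod.fst ha
    have ha2 : NN col false a = j := congrArg Prod.snd ha
    have hb1 : NN col true b = i := congrArg Prod.fst hb
    have hb2 : NN col false b = j' := congrArg Prod.snd hb
    have h0 : 0 ≤ NN col false a := by unfold NN; positivity
    obtain ⟨z, hz, hz'⟩ := exists_level (col := col) false b t (by omega) (by omega)
    refine ⟨a ⊔ z, ?_⟩
    have h3 : NN col true z ≤ NN col true b := NN_mono true hz
    unfold cc
    rw [NN_sup hcol, NN_sup hcol, hz', ha1, ha2, max_eq_right h1, max_eq_left (by omega)]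
  have rect : ∀ i i' j j' s t : ℤ, (i, j') ∈ Set.range (cc col) → (i', j) ∈ Set.range (cc col) →
      i ≤ s → s ≤ i' → j ≤ t → t ≤ j' → (s, t) ∈ Set.range (cc col) := by
    intro i i' j j' s t h1 h2 h3 h4 h5 h6
    have hul : (i', j') ∈ Set.range (cc col) := by
      obtain ⟨a, ha⟩ := h1
      obtain ⟨b, hb⟩ := h2
      refine ⟨a ⊔ b, ?_⟩
      rw [hsup, ha, hb]
      exact Prod.ext (max_eq_right (h3.trans h4)) (max_eq_left (h5.trans h6))
    have hlr : (i, j) ∈ Set.range (cc col) := by
      obtain ⟨a, ha⟩ := h1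
      obtain ⟨b, hb⟩ := h2
      refine ⟨a ⊓ b, ?_⟩
      rw [hinf, ha, hb]
      exact Prod.ext (min_eq_left (h3.trans h4)) (min_eq_right (h5.trans h6))
    exact ver s j j' t (hor i i' j s hlr h2 h3 h4) (hor i i' j' s h1 hul h3 h4) h5 h6
  refine ⟨cc col, hinj, hsup, hinf, ?_⟩
  refine ⟨Set.finite_range _, ⟨⊥, rfl⟩, ⟨⊤, rfl⟩, ?_, ?_, rect, ?_, ?_, ?_⟩
  · rintro _ ⟨a, rfl⟩
    exact hmono _ _ bot_le
  · rintro _ ⟨a, rfl⟩
    exact hmono _ _ le_top
  · rintro _ ⟨a, rfl⟩ ha
    have ha' : a ≠ ⊥ := fun h => ha (by rw [h])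
    obtain ⟨a', κ, -, h1, h2⟩ := exists_down (col := col) a ha'
    cases κ
    · right; exact ⟨a', Prod.ext h2 h1⟩
    · left; exact ⟨a', Prod.ext h1 h2⟩
  · rintro _ ⟨a, rfl⟩ ha
    have ha' : a ≠ ⊤ := fun h => ha (by rw [h])
    obtain ⟨a', κ, -, h1, h2⟩ := exists_up (col := col) a ha'
    cases κ
    · right; exact ⟨a', Prod.ext h2 h1⟩
    · left; exact ⟨a', Prod.ext h1 h2⟩
  · rintro _ ⟨a, rfl⟩ ha1 ha2
    have hne1 : a ≠ ⊥ := fun h => ha1 (by rw [h])
    have hne2 : a ≠ ⊤ := fun h => ha2 (by rw [h])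
    have hinc : ∃ b, ¬ (a ≤ b ∨ b ≤ a) := by
      by_contra hcon
      push Not at hcon
      rcases hs a (fun b => by
        rcases em (a ≤ b) with h | h
        · exact Or.inl h
        · exact Or.inr (by
            by_contra h'
            exact absurd (hcon b) (by tauto))) with h | h
      · exact hne1 h
      · exact hne2 h
    obtain ⟨b, hb⟩ := hinc
    rw [not_or] at hb
    have h1 : ¬ cc col a ≤ cc col b := fun h => hb.1 (hle a b h)
    have h2 : ¬ cc col b ≤ cc col a := fun h => hb.2 (hle b a h)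
    have h1' : ¬ (NN col true a ≤ NN col true b ∧ NN col false a ≤ NN col false b) := h1
    have h2' : ¬ (NN col true b ≤ NN col true a ∧ NN col false b ≤ NN col false a) := h2
    have hma : (NN col true a, NN col false a) ∈ Set.range (cc col) := ⟨a, rfl⟩
    have hmb : (NN col true b, NN col false b) ∈ Set.range (cc col) := ⟨b, rfl⟩
    rcases lt_or_ge (NN col true a) (NN col true b) with h | h
    · left
      exact rect _ _ _ _ _ _ hma hmb (by change NN col true a ≤ NN col true a + 1; omega)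
        (by change NN col true a + 1 ≤ NN col true b; omega)
        (by change NN col false b ≤ NN col false a - 1; omega)
        (by change NN col false a - 1 ≤ NN col false a; omega)
    · right
      have h3 : NN col false a < NN col false b := by
        by_contra hcon
        exact h2' ⟨h, by omega⟩
      have h4 : NN col true b < NN col true a := by
        by_contra hcon
        exact h1' ⟨by omega, h3.le⟩
      exact rect _ _ _ _ _ _ hmb hma (by change NN col true b ≤ NN col true a - 1; omega)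
        (by change NN col true a - 1 ≤ NN col true a; omega)
        (by change NN col false a ≤ NN col false a + 1; omega)
        (by change NN col false a + 1 ≤ NN col false b; omega)

end Pool.Agent.Helper82.JM
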